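import Pool.Agent.H780.RG.StmA
import Pool.Graph.R_pool_sql_team_seeded_63374d34.N979.CP.COMb

/-!
# RG-COMBE (helper299 for helper780): the case of equality in `S_COMb`
-/

set_option autoImplicit false

open MeasureTheory Metric Set Filter Topology InnerProductGeometry Matrix

namespace Pool.Agent.H780.RG.COMBE

open Pool.Agent.H241R3.FV Pool.Agent.N526.CP Pool.Agent.N979.CP Pool.Agent.H780.RG
open Pool.Agent.N979.CP.COMb (finite_sg exists_root inner_eq gnorm_root norm_le_one)

theorem main (hC : S_COME) : S_COMBE := by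
  intro d hd s hs X hX α hα G hG hb heq hne
  have := finite_sg (d + 1)
  obtain ⟨A, hA, hdet, hdet'⟩ := exists_root G hG
  set a : Sph (d + 1) → E (d + 1) := fun θ => act Aᵀ (α θ) with ha
  have hcont : Continuous (fun v : E (d + 1) => act Aᵀ v) := by
    unfold act
    fun_prop
  have hma : Measurable a := hcont.measurable.comp hα
  have hab : ∀ᵐ θ ∂(sg (d + 1)), ‖a θ‖ ≤ 1 := by
    filter_upwards [hb] with θ hθ
    exact norm_le_one G A hA (α θ) hθ
  have haj : ∀ θ j, a θ j = ∑ k, α θ k * A k j := fun θ j => by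
    rw [ha]; simp [act, transpose_apply, mul_comm]
  -- integrability
  have hint : ∀ i k : Fin (d + 1), Integrable (fun θ : Sph (d + 1) => (θ : E (d + 1)) i * α θ k)
      (sg (d + 1)) := by
    intro i k
    refine Integrable.of_bound (C := gnorm G (EuclideanSpace.single k 1)) ?_ ?_
    · have h1 : Measurable fun θ : Sph (d + 1) => (θ : E (d + 1)) i := by
        have : Continuous fun θ : Sph (d + 1) => (θ : E (d + 1)) i := by fun_prop
        exact this.measurable
      have h2 : Measurable fun θ : Sph (d + 1) => α θ k := by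
        have : Continuous fun v : E (d + 1) => v k := by fun_prop
        exact this.measurable.comp hα
      exact (h1.mul h2).aestronglyMeasurable
    · filter_upwards [hb] with θ hθ
      have h1 : |(θ : E (d + 1)) i| ≤ 1 := by
        have h2 := PiLp.norm_apply_le (θ : E (d + 1)) i
        rw [norm_sph] at h2
        simpa using h2
      have h3 : |α θ k| ≤ gnorm G (EuclideanSpace.single k 1) := by
        have h4 := hθ (EuclideanSpace.single k 1)
        have h5 : inner ℝ (α θ) (EuclideanSpace.single k (1 : ℝ)) = α θ k := by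
          rw [inner_eq]
          rw [Finset.sum_eq_single k]
          · simp
          · intro b _ hbk
            simp [hbk]
          · simp
        rwa [h5] at h4
      rw [norm_mul, Real.norm_eq_abs, Real.norm_eq_abs]
      calc |(θ : E (d + 1)) i| * |α θ k| ≤ 1 * |α θ k| := by gcongr
        _ = |α θ k| := one_mul _
        _ ≤ _ := h3
  have hMx : Mx (sg (d + 1)) (fun θ : Sph (d + 1) => (θ : E (d + 1))) a =
      Mx (sg (d + 1)) (fun θ : Sph (d + 1) => (θ : E (d + 1))) α * A := by
    ext i j
    rw [Matrix.mul_apply]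
    unfold Mx
    have h1 : ∀ θ : Sph (d + 1), (θ : E (d + 1)) i * a θ j =
        ∑ k, (θ : E (d + 1)) i * α θ k * A k j := fun θ => by
      rw [haj, Finset.mul_sum]
      refine Finset.sum_congr rfl fun k _ => ?_
      ring
    simp only [h1]
    rw [integral_finsetSum _ (fun k _ => (hint i k).mul_const _)]
    refine Finset.sum_congr rfl fun k _ => ?_
    rw [integral_mul_const]
  have hLm : Lm X a = Lm X α * A := by
    unfold Lm
    rw [hMx, Matrix.mul_assoc]
  have hM : ∀ θ : Sph (d + 1), (Vm X θ * Lm X a +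
      vecMulVec (fun i => (θ : E (d + 1)) i) (fun i => a θ i)).det =
      (Vm X θ * Lm X α + vecMulVec (fun i => (θ : E (d + 1)) i) (fun i => α θ i)).det * A.det := by
    intro θ
    rw [← det_mul, hLm, Matrix.add_mul, Matrix.mul_assoc, vecMulVec_mul]
    congr 3
    ext j
    rw [haj]
    simp [vecMul, dotProduct]
  have hGd : 0 < G.det := hG.det_pos
  have hsq : √G.det ^ 2 = G.det := Real.sq_sqrt hGd.le
  have hLd : (Lm X a).det = (Lm X α).det * A.det := by rw [hLm, det_mul]
  obtain ⟨h1, h2⟩ := hC d hd X (hX.trans_lt hs.2.1) (hs.2.2 ‖X‖ ⟨norm_nonneg _, hX⟩) a hma hab (by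
    simp only [hM]
    rw [integral_mul_const, hLd]
    have h3 : ((d + 1 : ℝ) * ∫ θ, (Vm X θ * Lm X α +
        vecMulVec (fun i => (θ : E (d + 1)) i) (fun i => α θ i)).det ∂(sg (d + 1)) -
        d * ((Lm X α).det * (√(1 - ‖X‖ ^ 2))⁻¹)) * A.det = 1 := by
      rw [heq, mul_comm]
      exact hdet'
    refine Eq.trans ?_ h3
    ring) (by
    rw [hLd]
    exact mul_ne_zero hne hdet.ne')
  refine ⟨?_, ?_⟩
  · rw [hLd] at h1
    have h3 : ((Lm X α).det * (√(1 - ‖X‖ ^ 2))⁻¹) ^ 2 * (A.det * √G.det) ^ 2 = G.det := by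
      calc ((Lm X α).det * (√(1 - ‖X‖ ^ 2))⁻¹) ^ 2 * (A.det * √G.det) ^ 2
          = ((Lm X α).det * A.det * (√(1 - ‖X‖ ^ 2))⁻¹) ^ 2 * √G.det ^ 2 := by ring
        _ = G.det := by rw [h1, one_mul, hsq]
    rw [hdet', one_pow, mul_one] at h3
    exact h3
  · intro hpos
    have h3 := h2 (by rw [hLd]; exact mul_pos hpos hdet)
    filter_upwards [h3] with θ hθ
    set q := (√(1 - ip X θ ^ 2))⁻¹ with hq
    have hu : IsUnit A.det := isUnit_iff_ne_zero.2 hdet.ne'
    have h4 : Matrix.vecMul (fun k => α θ k) A =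
        Matrix.vecMul (fun k => q * ∑ i, Lm X α i k * (θ : E (d + 1)) i) A := by
      ext j
      have h5 : (Matrix.vecMul (fun k => α θ k) A) j = a θ j := by
        rw [haj]
        rfl
      have h6 : (Matrix.vecMul (fun k => q * ∑ i, Lm X α i k * (θ : E (d + 1)) i) A) j =
          q * ∑ i, Lm X a i j * (θ : E (d + 1)) i := by
        rw [hLm]
        simp only [Matrix.vecMul, dotProduct, Matrix.mul_apply, Finset.mul_sum, Finset.sum_mul]
        rw [Finset.sum_comm]
        refine Finset.sum_congr rfl fun i _ => Finset.sum_congr rfl fun k _ => ?_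
        ring
      rw [h5, h6]
      exact hθ j
    have h7 : (fun k => α θ k) = (fun k => q * ∑ i, Lm X α i k * (θ : E (d + 1)) i) := by
      have h8 := congrArg (fun w => Matrix.vecMul w A⁻¹) h4
      simp only [Matrix.vecMul_vecMul, Matrix.mul_nonsing_inv _ hu, Matrix.vecMul_one] at h8
      exact h8
    intro j
    exact congrFun h7 j

end Pool.Agent.H780.RG.COMBE

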