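import Pool.Graph.R_pool_sql_team_seeded_63374d34.N979.CP.Stm

/-!
# Project RG (helper780): rigidity of convex regions of the round sphere

Part A: the case of equality in the comass inequality, dimension `d + 1 ≥ 3`.
-/

set_option autoImplicit false

open MeasureTheory Metric Set Filter Topology InnerProductGeometry Matrix

namespace Pool.Agent.H780.RG

open Pool.Agent.H241R3.FV Pool.Agent.N526.CP Pool.Agent.N979.CP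

/-- SCAE: the case of equality in `S_SCA` -/
def S_SCAE : Prop := ∀ (n : ℕ), 3 ≤ n → ∀ (p z : Fin n → ℝ), (∀ i, 0 < p i) → ∑ i, p i = 1 →
  (∀ i, 0 ≤ z i) → (∑ i, p i * z i) ^ 2 = ∏ i, (1 + p i * (z i ^ 2 - 1)) → ∀ i, z i = 1

/-- HADE: equality in Hadamard's inequality, rows of length one -/
def S_HADE : Prop := ∀ (n : ℕ) (A : Matrix (Fin n) (Fin n) ℝ), (∀ i, ∑ j, A i j ^ 2 = 1) →
  A.det ^ 2 = 1 → A * Aᵀ = 1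

/-- KEQ: the case of equality in `S_KEY2` -/
def S_KEQ : Prop := ∀ (d : ℕ), 2 ≤ d → ∀ (B D : Matrix (Fin (d + 1)) (Fin (d + 1)) ℝ)
  (p : Fin (d + 1) → ℝ) (σ : ℝ), (∀ i, 0 < p i) → ∑ i, p i = 1 →
  ∑ i, (∑ j, B i j ^ 2 + (1 - p i) / p i * ∑ j, D i j ^ 2) ≤ d + 1 → σ ^ 2 = 1 →
  ((B + D).adjugate * B).trace - d * (B + D).det = σ → (B + D).det ≠ 0 →
    (B + D) * (B + D)ᵀ = 1 ∧ ((B + D).det = σ → D = 0)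

/-- ABSE: the case of equality in `S_ABS2` -/
def S_ABSE : Prop := ∀ (d : ℕ), 2 ≤ d → ∀ (Ω : Type) [MeasurableSpace Ω] (μ : Measure Ω)
  [IsProbabilityMeasure μ] (ν p a : Ω → E (d + 1)),
  Measurable ν → Measurable p → Measurable a → (∃ C : ℝ, ∀ ω, ‖ν ω‖ ≤ C ∧ ‖p ω‖ ≤ C) →
  (∀ᵐ ω ∂μ, ‖a ω‖ ≤ 1) →
  (∀ u v : E (d + 1), ∫ ω, inner ℝ (ν ω) u * inner ℝ (ν ω) v ∂μ = inner ℝ u v / (d + 1)) →
  (∀ u v : E (d + 1), ∫ ω, inner ℝ (p ω) u * inner ℝ (ν ω) v ∂μ = inner ℝ u v) →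
  ∀ (e : E (d + 1)) (pr pt : ℝ), ‖e‖ = 1 → 0 < pr → 0 < pt → pr + d * pt = 1 →
  (∀ v : E (d + 1), ∫ ω, inner ℝ (p ω) v ^ 2 ∂μ ≤
    (d + 1) / (1 - pt) * (‖v‖ ^ 2 - inner ℝ e v ^ 2) + (d + 1) / (1 - pr) * inner ℝ e v ^ 2) →
  ((Mx μ p a).adjugate * ((d + 1 : ℝ) • Mx μ ν a)).trace - d * (Mx μ p a).det = 1 →
  (Mx μ p a).det ≠ 0 →
    (Mx μ p a).det ^ 2 = 1 ∧
    (0 < (Mx μ p a).det → ∀ᵐ ω ∂μ, ∀ j, a ω j = ∑ i, Mx μ p a i j * ν ω i)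

/-- COME: the case of equality in `S_COM1b` -/
def S_COME : Prop := ∀ (d : ℕ), 2 ≤ d → ∀ (X : E (d + 1)), ‖X‖ < 1 → G2 d ‖X‖ →
  ∀ (a : Sph (d + 1) → E (d + 1)), Measurable a → (∀ᵐ θ ∂(sg (d + 1)), ‖a θ‖ ≤ 1) →
  (d + 1) * ∫ θ, (Vm X θ * Lm X a +
      vecMulVec (fun i => (θ : E (d + 1)) i) (fun i => a θ i)).det ∂(sg (d + 1)) -
    d * ((Lm X a).det * (√(1 - ‖X‖ ^ 2))⁻¹) = 1 →
  (Lm X a).det ≠ 0 →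
    ((Lm X a).det * (√(1 - ‖X‖ ^ 2))⁻¹) ^ 2 = 1 ∧
    (0 < (Lm X a).det → ∀ᵐ θ ∂(sg (d + 1)), ∀ j, a θ j =
      (√(1 - ip X θ ^ 2))⁻¹ * ∑ i, Lm X a i j * (θ : E (d + 1)) i)

/-- COMBE: the case of equality in `S_COMb` -/
def S_COMBE : Prop := ∀ (d : ℕ), 2 ≤ d → ∀ (s : ℝ), Good2 d s → ∀ (X : E (d + 1)), ‖X‖ ≤ s →
  ∀ (α : Sph (d + 1) → E (d + 1)), Measurable α →
  ∀ (G : Matrix (Fin (d + 1)) (Fin (d + 1)) ℝ), G.PosDef →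
  (∀ᵐ θ ∂(sg (d + 1)), ∀ v, |inner ℝ (α θ) v| ≤ gnorm G v) →
  (d + 1) * ∫ θ, (Vm X θ * Lm X α +
      vecMulVec (fun i => (θ : E (d + 1)) i) (fun i => α θ i)).det ∂(sg (d + 1)) -
    d * ((Lm X α).det * (√(1 - ‖X‖ ^ 2))⁻¹) = √G.det →
  (Lm X α).det ≠ 0 →
    ((Lm X α).det * (√(1 - ‖X‖ ^ 2))⁻¹) ^ 2 = G.det ∧
    (0 < (Lm X α).det → ∀ᵐ θ ∂(sg (d + 1)), ∀ j, α θ j =
      (√(1 - ip X θ ^ 2))⁻¹ * ∑ i, Lm X α i j * (θ : E (d + 1)) i)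

end Pool.Agent.H780.RG
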