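import Pool.Graph.R_pool_sql_team_seeded_63374d34.N526.CP.ComOne
import Pool.Agent.H780.RG.StmA

/-! PROJECT RG, part COME (helper767): the case of equality in the pointwise comass inequality. The first part of the
proof is that of part COM1b (helper621, `Pool.Agent.N621.CPN2.main`). -/

set_option autoImplicit false

open MeasureTheory Metric Set Filter Topology InnerProductGeometry Matrix
open scoped ENNReal

namespace Pool.Agent.H780.RG.COME

open Pool.Agent.H241R3.FV Pool.Agent.N526.CP Pool.Agent.N979.CP Pool.Agent.N526.CP.COM1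

/-- COME -/
theorem main (hABS : S_ABSE) (hDETV : S_DETV) (hG : S_GRAM) (hLZ : S_LZ) (hEIG : S_EIG2)
    (hSPH : S_SPH) : S_COME := by
  intro d hd2 X hX hG2 a ha hb heq hne
  have hd : 1 ≤ d := le_trans (by norm_num) hd2
  have := (hSPH d hd).1
  have hc := c_pos hX
  have hc2 := c_sq hX
  obtain ⟨hPD, e, pr, pt, he, hpr, hpt, hsum, hEig⟩ := hEIG d hd X hX hG2
  obtain ⟨hL01, hL10, hdet0, hsq, hsym0, hsym1⟩ := hLZ (d + 1) X hX
  have := prob_mu hd hG hX
  set c := √(1 - ‖X‖ ^ 2) with hcdef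
  have hDu : IsUnit (DZ X).det := hPD.det_pos.ne'.isUnit
  have hDsym : (DZ X).transpose = DZ X := by
    ext i j
    simp only [transpose_apply, DZ]
    refine integral_congr_ae (Eventually.of_forall fun θ => ?_)
    ring
  have hDD : DZ X * (DZ X)⁻¹ = 1 := Matrix.mul_nonsing_inv _ hDu
  have hDisym : ((DZ X)⁻¹).transpose = (DZ X)⁻¹ := by
    rw [Matrix.transpose_nonsing_inv, hDsym]
  have hTs : (L1 X * (DZ X)⁻¹).transpose = (DZ X)⁻¹ * L1 X := by
    rw [Matrix.transpose_mul, hDisym, hsym1]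
  -- the fields
  set ν : Sph (d + 1) → E (d + 1) := vf (fun θ => (q X θ)⁻¹) (L0 X) with hν
  set p : Sph (d + 1) → E (d + 1) := vf (fun θ => q X θ ^ (d + 1) / c) (L1 X * (DZ X)⁻¹) with hp
  have hcq : Continuous (fun θ : Sph (d + 1) => q X θ ^ (d + 1) / c) :=
    ((cont_q X).pow _).div_const _
  have hνc : Continuous ν := cont_vf (cont_qi hX) _
  have hpc : Continuous p := cont_vf hcq _
  have hbd : ∃ C : ℝ, ∀ ω, ‖ν ω‖ ≤ C ∧ ‖p ω‖ ≤ C := by
    obtain ⟨C1, h1⟩ := (isCompact_univ (X := Sph (d + 1))).exists_bound_of_continuousOn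
      hνc.continuousOn
    obtain ⟨C2, h2⟩ := (isCompact_univ (X := Sph (d + 1))).exists_bound_of_continuousOn
      hpc.continuousOn
    exact ⟨max C1 C2, fun ω => ⟨(h1 ω (mem_univ _)).trans (le_max_left _ _),
      (h2 ω (mem_univ _)).trans (le_max_right _ _)⟩⟩
  have hq : ∀ θ : Sph (d + 1), q X θ ≠ 0 := fun θ => (q_pos hX θ).ne'
  have hae : ∀ᵐ ω ∂(mu X), ‖a ω‖ ≤ 1 := (withDensity_absolutelyContinuous _ _).ae_le hb
  -- (i)
  have hi : ∀ u v : E (d + 1), ∫ ω, inner ℝ (ν ω) u * inner ℝ (ν ω) v ∂(mu X) =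
      inner ℝ u v / (d + 1) := by
    intro u v
    rw [integral_mu hX]
    have h1 : (fun θ : Sph (d + 1) => w X θ * (inner ℝ (ν θ) u * inner ℝ (ν θ) v)) =
        fun θ => c * (((√(1 - ip X θ ^ 2))⁻¹) ^ (d + 3) *
          (ip (cl (L0 X) u) θ * ip (cl (L0 X) v) θ)) := by
      funext θ
      rw [hν, inner_vf, inner_vf, hsym0]
      unfold w q
      rw [← hcdef]
      ring
    rw [h1, integral_const_mul, (hG d hd X hX).2, inner_L0 hX, inner_L0 hX, inner_L0_L0 hX hLZ,
      ← hcdef]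
    have h2 : 1 - ‖X‖ ^ 2 = c ^ 2 := hc2.symm
    rw [h2]
    have h3 : (d + 1 : ℝ) ≠ 0 := by positivity
    field_simp
    ring
  -- (ii)
  have hii : ∀ u v : E (d + 1), ∫ ω, inner ℝ (p ω) u * inner ℝ (ν ω) v ∂(mu X) =
      inner ℝ u v := by
    intro u v
    rw [integral_mu hX]
    have h1 : (fun θ : Sph (d + 1) => w X θ * (inner ℝ (p θ) u * inner ℝ (ν θ) v)) =
        fun θ => (q X θ)⁻¹ * (ip (cl ((DZ X)⁻¹ * L1 X) u) θ * ip (cl (L0 X) v) θ) := by
      funext θ
      rw [hν, hp, inner_vf, inner_vf, hsym0, hTs]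
      unfold w
      rw [← hcdef]
      exact alg1 _ _ _ _ _ _ hc.ne' (qq hX θ _)
    rw [h1, int_DZ hX, ← cl_mul, ← Matrix.mul_assoc, hDD, Matrix.one_mul, inner_cl, ← cl_mul,
      hsym1, hL10, cl_one]
  -- (iii)
  have hiii : ∀ v : E (d + 1), ∫ ω, inner ℝ (p ω) v ^ 2 ∂(mu X) ≤
      (d + 1) / (1 - pt) * (‖v‖ ^ 2 - inner ℝ e v ^ 2) + (d + 1) / (1 - pr) * inner ℝ e v ^ 2 := by
    intro v
    rw [integral_mu hX]
    have h1 : (fun θ : Sph (d + 1) => w X θ * (inner ℝ (p θ) v) ^ 2) =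
        fun θ => c⁻¹ * (ip (cl ((DZ X)⁻¹ * L1 X) v) θ ^ 2 * √(1 - ip X θ ^ 2) ^ (d + 1)) := by
      funext θ
      rw [hp, inner_vf, hTs]
      unfold w
      rw [← hcdef]
      change c * (q X θ)⁻¹ ^ (d + 1) *
        (q X θ ^ (d + 1) / c * ip (cl ((DZ X)⁻¹ * L1 X) v) θ) ^ 2 =
        c⁻¹ * (ip (cl ((DZ X)⁻¹ * L1 X) v) θ ^ 2 * q X θ ^ (d + 1))
      exact alg2 _ _ _ _ hc.ne' (qq hX θ _)
    rw [h1, integral_const_mul]
    calc _ ≤ c⁻¹ * (c * ((d + 1) / (1 - pt) * (‖v‖ ^ 2 - inner ℝ e v ^ 2) +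
            (d + 1) / (1 - pr) * inner ℝ e v ^ 2)) :=
          mul_le_mul_of_nonneg_left (hEig v) (inv_pos.mpr hc).le
      _ = _ := by rw [← mul_assoc, inv_mul_cancel₀ hc.ne', one_mul]
  have hfin := hABS d hd2 (Sph (d + 1)) (mu X) ν p a hνc.measurable hpc.measurable ha hbd hae
    hi hii e pr pt he hpr hpt hsum hiii
  -- the matrices
  set K := Mx (mu X) p a with hK
  have hKL : K = L1 X * Lm X a := by
    rw [hK, hp, Mx_mu hX hcq ha hb, Matrix.mul_assoc]
    congr 2
    ext i j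
    unfold Mo Mx
    refine integral_congr_ae (Eventually.of_forall fun θ => ?_)
    simp only
    unfold w
    rw [← hcdef]
    exact alg3 _ _ _ _ _ hc.ne' (qq hX θ _)
  have hLK : Lm X a = L0 X * K := by
    rw [hKL, ← Matrix.mul_assoc, hL01, Matrix.one_mul]
  set N0 : Matrix (Fin (d + 1)) (Fin (d + 1)) ℝ :=
    Mo (fun θ => ((q X θ)⁻¹) ^ (d + 2)) a with hN0
  have hB : Mx (mu X) ν a = c • (L0 X * N0) := by
    rw [hν, Mx_mu hX (cont_qi hX) ha hb, ← Matrix.mul_smul]
    congr 1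
    ext i j
    rw [Matrix.smul_apply, hN0]
    unfold Mo
    rw [smul_eq_mul, ← integral_const_mul]
    refine integral_congr_ae (Eventually.of_forall fun θ => ?_)
    simp only
    unfold w
    rw [← hcdef]
    ring
  -- the integral of the determinant
  have hqk : Continuous (fun θ : Sph (d + 1) => ((q X θ)⁻¹) ^ (d + 2)) := (cont_qi hX).pow _
  have hdetint : ∫ θ, (Vm X θ * Lm X a +
      vecMulVec (fun i => (θ : E (d + 1)) i) (fun i => a θ i)).det ∂(sg (d + 1)) =
      ((Lm X a).adjugate * (L0 X * L0 X * N0)).trace := by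
    have h1 : (fun θ : Sph (d + 1) => (Vm X θ * Lm X a +
        vecMulVec (fun i => (θ : E (d + 1)) i) (fun i => a θ i)).det) =
        fun θ : Sph (d + 1) => ∑ i, ∑ j, ∑ k, (Lm X a).adjugate i j * ((L0 X * L0 X) j k *
          (((q X θ)⁻¹) ^ (d + 2) * (θ : E (d + 1)) k * a θ i)) := by
      funext θ
      rw [hDETV (d + 1) X θ hX (Lm X a) (fun i => a θ i)]
      simp only [dotProduct, mulVec, Wv]
      refine Finset.sum_congr rfl fun i _ => ?_
      rw [Finset.mul_sum]
      refine Finset.sum_congr rfl fun j _ => ?_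
      have h2 : ∑ k, (L0 X * L0 X) j k * (θ : E (d + 1)) k = (θ : E (d + 1)) j - ip X θ * X j := by
        simp only [hsq, sub_mul, Finset.sum_sub_distrib, ite_mul, one_mul, zero_mul,
          Finset.sum_ite_eq, Finset.mem_univ, if_true]
        congr 1
        unfold ip
        rw [inner_eq, Finset.sum_mul]
        refine Finset.sum_congr rfl fun k _ => ?_
        ring
      have h3 : ∑ k, (Lm X a).adjugate i j * ((L0 X * L0 X) j k *
          (((q X θ)⁻¹) ^ (d + 2) * (θ : E (d + 1)) k * a θ i)) =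
          (Lm X a).adjugate i j * ((q X θ)⁻¹) ^ (d + 2) * a θ i *
            ∑ k, (L0 X * L0 X) j k * (θ : E (d + 1)) k := by
        rw [Finset.mul_sum]
        refine Finset.sum_congr rfl fun k _ => ?_
        ring
      rw [h3, h2]
      unfold q
      ring
    have hint : ∀ i k, Integrable (fun θ : Sph (d + 1) =>
        ((q X θ)⁻¹) ^ (d + 2) * (θ : E (d + 1)) k * a θ i) (sg (d + 1)) := fun i k =>
      int_coord hqk ha hb k i
    rw [h1, integral_finsetSum _ fun i _ => integrable_finsetSum _ fun j _ =>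
      integrable_finsetSum _ fun k _ => ((hint i k).const_mul _).const_mul _]
    unfold Matrix.trace
    refine Finset.sum_congr rfl fun i _ => ?_
    rw [diag_apply, mul_apply, integral_finsetSum _ fun j _ =>
      integrable_finsetSum _ fun k _ => ((hint i k).const_mul _).const_mul _]
    refine Finset.sum_congr rfl fun j _ => ?_
    rw [mul_apply, Finset.mul_sum, integral_finsetSum _ fun k _ =>
      ((hint i k).const_mul _).const_mul _]
    refine Finset.sum_congr rfl fun k _ => ?_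
    rw [integral_const_mul, integral_const_mul]
    rfl
  have hadj0 : (L0 X).adjugate = c • L1 X := by
    have h1 : L0 X * (L0 X).adjugate = (L0 X).det • (1 : Matrix _ _ ℝ) := Matrix.mul_adjugate _
    calc (L0 X).adjugate = L1 X * (L0 X * (L0 X).adjugate) := by
          rw [← Matrix.mul_assoc, hL10, Matrix.one_mul]
      _ = c • L1 X := by rw [h1, hdet0, Matrix.mul_smul, Matrix.mul_one]
  have hfirst : (Lm X a).adjugate * (L0 X * L0 X * N0) = K.adjugate * Mx (mu X) ν a := by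
    rw [hLK, Matrix.adjugate_mul_distrib, hadj0, hB]
    simp only [Matrix.mul_smul, Matrix.smul_mul]
    congr 1
    rw [Matrix.mul_assoc, Matrix.mul_assoc, ← Matrix.mul_assoc (L1 X), hL10, Matrix.one_mul]
  have hdetL : (Lm X a).det * c⁻¹ = K.det := by
    rw [hLK, Matrix.det_mul, hdet0]
    field_simp
  rw [hdetint, hfirst, hdetL] at heq
  rw [Matrix.mul_smul, Matrix.trace_smul, smul_eq_mul] at hfin
  have hKne : K.det ≠ 0 := by
    rw [← hdetL]
    exact mul_ne_zero hne (inv_ne_zero hc.ne')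
  obtain ⟨hsq1, hpos⟩ := hfin heq hKne
  refine ⟨by rw [hdetL]; exact hsq1, fun hLpos => ?_⟩
  have hKpos : 0 < K.det := by
    rw [← hdetL]
    exact mul_pos hLpos (inv_pos.mpr hc)
  have hAE := hpos hKpos
  have hac : sg (d + 1) ≪ mu X := by
    unfold mu
    refine withDensity_absolutelyContinuous'
      (cont_w hX).measurable.ennreal_ofReal.aemeasurable (Eventually.of_forall fun θ => ?_)
    exact (ENNReal.ofReal_pos.mpr (w_pos hX θ)).ne'
  have hAE2 : ∀ᵐ θ ∂(sg (d + 1)), ∀ j, a θ j = ∑ i, K i j * ν θ i := hac.ae_le hAE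
  filter_upwards [hAE2] with θ hθ j
  rw [hθ j, hLK]
  change ∑ i, K i j * ν θ i = (q X θ)⁻¹ * ∑ i, (L0 X * K) i j * (θ : E (d + 1)) i
  have hsymm : ∀ i k, L0 X i k = L0 X k i := fun i k => by
    rw [← transpose_apply (L0 X) k i, hsym0]
  have h1 : ∀ i, K i j * ν θ i = ∑ k, (q X θ)⁻¹ * (L0 X k i * K i j * (θ : E (d + 1)) k) := by
    intro i
    rw [hν, vf_apply, Finset.mul_sum, Finset.mul_sum]
    refine Finset.sum_congr rfl fun k _ => ?_
    rw [hsymm i k]
    ring
  rw [Finset.sum_congr rfl fun i _ => h1 i, Finset.sum_comm, Finset.mul_sum]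
  refine Finset.sum_congr rfl fun k _ => ?_
  rw [mul_apply, Finset.sum_mul, Finset.mul_sum]

end Pool.Agent.H780.RG.COME
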