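import Pool.Agent.H780.RG.StmB

/-!
# CVX: convex bodies and rays
-/

set_option autoImplicit false

open MeasureTheory Metric Set Filter Topology InnerProductGeometry

namespace Pool.Agent.H780.RG.CVX

open Pool.Agent.H241R3.FV Pool.Agent.N526.CP

lemma unit_of {n : ℕ} {w : E n} (hw : w ≠ 0) :
    ∃ (u : E n) (c : ℝ), ‖u‖ = 1 ∧ 0 < c ∧ w = c • u := by
  have h : 0 < ‖w‖ := norm_pos_iff.2 hw
  refine ⟨‖w‖⁻¹ • w, ‖w‖, ?_, h, ?_⟩
  · rw [norm_smul, norm_inv, norm_norm, inv_mul_cancel₀ h.ne']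
  · rw [smul_smul, mul_inv_cancel₀ h.ne', one_smul]

lemma part1 {n : ℕ} (hn : 1 ≤ n) {C : Set (E n)} (hC : IsCompact C) (hc : Convex ℝ C) (v : E n)
    (h : ∀ u : E n, ‖u‖ = 1 → ∃ b ∈ C, ∃ t : ℝ, 0 ≤ t ∧ b = v + t • u) : v ∈ C := by
  by_contra hv
  obtain ⟨f, u₀, h1, h2⟩ := geometric_hahn_banach_point_closed hc hC.isClosed hv
  obtain ⟨b₀, hb₀, -⟩ := h (EuclideanSpace.single (⟨0, by omega⟩ : Fin n) (1 : ℝ)) (by simp)
  have h3 : v - b₀ ≠ 0 := by
    intro h0
    rw [sub_eq_zero] at h0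
    exact hv (h0 ▸ hb₀)
  obtain ⟨u, c, hu, hcp, hw⟩ := unit_of h3
  have h4 : c * f u = f v - f b₀ := by
    rw [← map_sub, hw, map_smul, smul_eq_mul]
  have h5 : f u < 0 := by
    have := h2 b₀ hb₀
    by_contra hcon
    rw [not_lt] at hcon
    have := mul_nonneg hcp.le hcon
    linarith
  obtain ⟨b, hb, t, ht, hbt⟩ := h u hu
  have h6 := h2 b hb
  rw [hbt, map_add, map_smul, smul_eq_mul] at h6
  have := mul_nonpos_of_nonneg_of_nonpos ht h5.le
  linarith

lemma part2 {n : ℕ} {C : Set (E n)} (hc : Convex ℝ C) (v : E n)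
    (hv : v ∈ C \ interior C) : ∃ u : E n, ‖u‖ = 1 ∧ ∀ t : ℝ, 0 < t → v + t • u ∉ C := by
  by_cases hne : (interior C).Nonempty
  · obtain ⟨f, hf⟩ := geometric_hahn_banach_open_point hc.interior isOpen_interior hv.2
    have hle : ∀ a ∈ C, f a ≤ f v := by
      intro a ha
      have h1 : a ∈ closure (interior C) := by
        rw [hc.closure_interior_eq_closure_of_nonempty_interior hne]
        exact subset_closure ha
      have h2 : IsClosed {x | f x ≤ f v} := isClosed_le f.continuous continuous_const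
      exact closure_minimal (fun x hx => (hf x hx).le) h2 h1
    obtain ⟨a, ha⟩ := hne
    have h3 : v - a ≠ 0 := by
      intro h0
      rw [sub_eq_zero] at h0
      exact hv.2 (h0 ▸ ha)
    obtain ⟨u, c, hu, hcp, hw⟩ := unit_of h3
    have h4 : c * f u = f v - f a := by
      rw [← map_sub, hw, map_smul, smul_eq_mul]
    have h5 : 0 < f u := by
      have := hf a ha
      by_contra hcon
      rw [not_lt] at hcon
      have := mul_nonpos_of_nonneg_of_nonpos hcp.le hcon
      linarith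
    refine ⟨u, hu, fun t ht hmem => ?_⟩
    have h6 := hle _ hmem
    rw [map_add, map_smul, smul_eq_mul] at h6
    have := mul_pos ht h5
    linarith
  · have h1 : affineSpan ℝ C ≠ ⊤ := fun h => hne (hc.interior_nonempty_iff_affineSpan_eq_top.2 h)
    have hvs : v ∈ affineSpan ℝ C := subset_affineSpan ℝ C hv.1
    have h2 : (affineSpan ℝ C).direction ≠ ⊤ := by
      intro h
      exact h1 ((AffineSubspace.direction_eq_top_iff_of_nonempty ⟨v, hvs⟩).1 h)
    obtain ⟨w, hw⟩ : ∃ w : E n, w ∉ (affineSpan ℝ C).direction := by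
      by_contra hcon
      push Not at hcon
      exact h2 (Submodule.eq_top_iff'.2 hcon)
    have hw0 : w ≠ 0 := fun h0 => hw (h0 ▸ Submodule.zero_mem _)
    obtain ⟨u, c, hu, hcp, hwu⟩ := unit_of hw0
    refine ⟨u, hu, fun t ht hmem => ?_⟩
    have h3 : (v + t • u) -ᵥ v ∈ (affineSpan ℝ C).direction :=
      AffineSubspace.vsub_mem_direction (subset_affineSpan ℝ C hmem) hvs
    have h4 : (v + t • u) -ᵥ v = t • u := by
      rw [vsub_eq_sub, add_sub_cancel_left]
    rw [h4] at h3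
    apply hw
    have h5 : w = (c / t) • (t • u) := by
      rw [hwu, smul_smul, div_mul_cancel₀ _ ht.ne']
    rw [h5]
    exact Submodule.smul_mem _ _ h3

lemma part3 {n : ℕ} {C : Set (E n)} (hc : Convex ℝ C) {v : E n} (hv : v ∈ interior C) {b b' : E n}
    (hb : b ∉ interior C) (hb' : b' ∈ C) {u : E n} {t t' : ℝ} (ht : 0 ≤ t)
    (h : b = v + t • u) (h' : b' = v + t' • u) : t' ≤ t := by
  by_contra hcon
  rw [not_le] at hcon
  have ht' : 0 < t' := lt_of_le_of_lt ht hcon
  rcases ht.eq_or_lt with h0 | h0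
  · apply hb
    rw [h, ← h0, zero_smul, add_zero]
    exact hv
  · apply hb
    apply hc.openSegment_interior_self_subset_interior hv hb'
    refine ⟨1 - t / t', t / t', ?_, div_pos h0 ht', by ring, ?_⟩
    · have : t / t' < 1 := (div_lt_one ht').2 hcon
      linarith
    · rw [h, h', smul_add, smul_smul, div_mul_cancel₀ _ ht'.ne', ← add_assoc, ← add_smul]
      congr 1
      rw [sub_add_cancel, one_smul]

lemma part4 {n : ℕ} {C : Set (E n)} (hC : IsCompact C) {v z : E n}
    (hz : z ∈ C) (hne : v ≠ z) : ∃ b ∈ C \ interior C, z ∈ segment ℝ v b := by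
  have hw : z - v ≠ 0 := sub_ne_zero.2 hne.symm
  have hwp : 0 < ‖z - v‖ := norm_pos_iff.2 hw
  set T : Set ℝ := {t | v + t • (z - v) ∈ C} with hT
  have hcont : Continuous (fun t : ℝ => v + t • (z - v)) := by fun_prop
  have hTcl : IsClosed T := hC.isClosed.preimage hcont
  obtain ⟨R, hR⟩ := hC.isBounded.exists_norm_le
  have hTb : T ⊆ Icc (-((R + ‖v‖) / ‖z - v‖)) ((R + ‖v‖) / ‖z - v‖) := by
    intro t ht
    have h1 := hR _ ht
    have h2 : ‖t • (z - v)‖ ≤ R + ‖v‖ := by
      calc ‖t • (z - v)‖ = ‖(v + t • (z - v)) - v‖ := by rw [add_sub_cancel_left]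
        _ ≤ ‖v + t • (z - v)‖ + ‖v‖ := norm_sub_le _ _
        _ ≤ R + ‖v‖ := by linarith
    rw [norm_smul, Real.norm_eq_abs, ← le_div_iff₀ hwp] at h2
    exact abs_le.1 h2
  have hTc : IsCompact T := isCompact_Icc.of_isClosed_subset hTcl hTb
  have h1T : (1 : ℝ) ∈ T := by
    show v + (1 : ℝ) • (z - v) ∈ C
    rw [one_smul, add_sub_cancel]
    exact hz
  obtain ⟨t, htT, htM⟩ := hTc.exists_isGreatest ⟨1, h1T⟩
  have ht1 : 1 ≤ t := htM h1T
  refine ⟨v + t • (z - v), ⟨htT, fun hint => ?_⟩, ?_⟩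
  · have h1 : ∀ᶠ s : ℝ in 𝓝 t, v + s • (z - v) ∈ interior C :=
      hcont.continuousAt.eventually_mem (isOpen_interior.mem_nhds hint)
    have h2 : ∀ᶠ s : ℝ in 𝓝[>] t, v + s • (z - v) ∈ interior C := h1.filter_mono nhdsWithin_le_nhds
    obtain ⟨s, hs, hst⟩ := (h2.and self_mem_nhdsWithin).exists
    have h4 : v + s • (z - v) ∈ C := interior_subset hs
    have h3 : s ≤ t := htM h4
    exact absurd hst (not_lt.2 h3)
  · have htp : 0 < t := by linarith
    refine ⟨1 - 1 / t, 1 / t, ?_, by positivity, by ring, ?_⟩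
    · have : 1 / t ≤ 1 := (div_le_one htp).2 ht1
      linarith
    · rw [smul_add, smul_smul, one_div_mul_cancel htp.ne', one_smul, ← add_assoc, ← add_smul,
        sub_add_cancel, one_smul, add_sub_cancel]

theorem main : S_CVX := by
  intro n hn C hC hc
  refine ⟨fun v h => part1 hn hC hc v h, fun v hv => part2 hc v hv, ?_, ?_⟩
  · intro v hv b hb b' hb' u t t' _ ht ht' h h'
    have h1 := part3 hc hv hb.2 hb'.1 ht h h'
    have h2 := part3 hc hv hb'.2 hb.1 ht' h' h
    rw [h, h', le_antisymm h1 h2]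
  · intro v _ z hz hne
    exact part4 hC hz hne

end Pool.Agent.H780.RG.CVX
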