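import Pool.Agent.H780.NV.Cor

/-!
# Truncated families of functions: where they are not truncated
-/

set_option autoImplicit false

open MeasureTheory Metric Set Filter Topology InnerProductGeometry

namespace Pool.Agent.H780.RG.EXTI

open Pool.Agent.H241R3.FV Pool.Agent.N526.CP Pool.Agent.H780.NV
open Pool.Agent.N526.CP.EXT (arcsin_lip iInf_le_add)
open Pool.Agent.N526.CP.EXTF (arcsin_le ref)
open Pool.Agent.N526.CP.FAM (chg integ cont_ip ip_rot asin_nonneg zf_dir)

/-- extension of the boundary functions -/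
theorem ext_exists' {d : ℕ} {M : Type} [MetricSpace M] (bd : Sph (d + 1) → M)
    {s : ℝ} (hs0 : 0 < s) (hs1 : s < 1) (F : E (d + 1) → E (d + 1))
    (hF : ∀ x : Sph (d + 1), ‖F x‖ ≤ s)
    (hbd : ∀ x y : Sph (d + 1), hdist (F x) (F y) ≤ dist (bd x) (bd y)) :
    ∃ g : Sph (d + 1) → M → ℝ, (∀ θ q q', |g θ q - g θ q'| ≤ dist q q') ∧
      (∃ C : ℝ, ∀ θ θ' q, |g θ q - g θ' q| ≤ C * ‖(θ : E (d + 1)) - (θ' : E (d + 1))‖) ∧
      (∀ θ (x : Sph (d + 1)), g θ (bd x) = Real.arcsin (inner ℝ (F x) (θ : E (d + 1)))) ∧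
      Mirror s g ∧ ∀ θ q, g θ q = ⨅ x : Sph (d + 1),
        (Real.arcsin (inner ℝ (F (x : E (d + 1))) (θ : E (d + 1))) + dist q (bd x)) := by
  have hne : Nonempty (Sph (d + 1)) :=
    ⟨⟨EuclideanSpace.single 0 1, by simp⟩⟩
  let h : Sph (d + 1) → Sph (d + 1) → ℝ := fun θ x =>
    Real.arcsin (inner ℝ (F (x : E (d + 1))) (θ : E (d + 1)))
  let g : Sph (d + 1) → M → ℝ := fun θ q => ⨅ x, (h θ x + dist q (bd x))
  have hlow : ∀ θ q x, -(Real.pi / 2) ≤ h θ x + dist q (bd x) := by
    intro θ q x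
    have h2 : -(Real.pi / 2) ≤ h θ x := Real.neg_pi_div_two_le_arcsin _
    have h3 : 0 ≤ dist q (bd x) := dist_nonneg
    linarith
  have hin : ∀ θ x : Sph (d + 1), |inner ℝ (F (x : E (d + 1))) (θ : E (d + 1))| ≤ s := by
    intro θ x
    have := abs_real_inner_le_norm (F (x : E (d + 1))) (θ : E (d + 1))
    rw [norm_sph, mul_one] at this
    exact this.trans (hF x)
  refine ⟨g, ?_, ?_, ?_, ?_, fun _ _ => rfl⟩
  · intro θ q q'
    have key : ∀ q q', g θ q ≤ g θ q' + dist q q' := by
      intro q q'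
      refine iInf_le_add (hlow θ q) fun x => ?_
      have := dist_triangle q q' (bd x)
      linarith
    rw [abs_le]
    constructor
    · have := key q' q
      rw [dist_comm q' q] at this
      linarith
    · have := key q q'
      linarith
  · refine ⟨1 / √(1 - s ^ 2) * s, ?_⟩
    have key : ∀ θ θ' q, g θ q ≤ g θ' q +
        1 / √(1 - s ^ 2) * s * ‖(θ : E (d + 1)) - (θ' : E (d + 1))‖ := by
      intro θ θ' q
      refine iInf_le_add (hlow θ q) fun x => ?_
      have h2 := arcsin_lip hs0 hs1 (hin θ x) (hin θ' x)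
      have h3 : |inner ℝ (F (x : E (d + 1))) (θ : E (d + 1)) -
          inner ℝ (F (x : E (d + 1))) (θ' : E (d + 1))| ≤
          s * ‖(θ : E (d + 1)) - (θ' : E (d + 1))‖ := by
        rw [← inner_sub_right]
        exact (abs_real_inner_le_norm _ _).trans
          (mul_le_mul_of_nonneg_right (hF x) (norm_nonneg _))
      have h4 : h θ x - h θ' x ≤ 1 / √(1 - s ^ 2) * (s * ‖(θ : E (d + 1)) - (θ' : E (d + 1))‖) :=
        (le_abs_self _).trans (h2.trans (mul_le_mul_of_nonneg_left h3 (by positivity)))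
      rw [← mul_assoc] at h4
      linarith
    intro θ θ' q
    rw [abs_le]
    constructor
    · have := key θ' θ q
      rw [norm_sub_rev] at this
      linarith
    · have := key θ θ' q
      linarith
  · intro θ x
    apply le_antisymm
    · have h2 : g θ (bd x) ≤ h θ x + dist (bd x) (bd x) :=
        ciInf_le (f := fun y => h θ y + dist (bd x) (bd y))
          ⟨-(Real.pi / 2), by rintro _ ⟨y, rfl⟩; exact hlow θ (bd x) y⟩ x
      rw [dist_self, add_zero] at h2
      exact h2
    · refine le_ciInf fun y => ?_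
      have h2 := arcsin_le ((hF x).trans hs1.le) ((hF y).trans hs1.le) θ
      have h3 := hbd x y
      change h θ x ≤ _
      change h θ x - h θ y ≤ _ at h2
      linarith
  · intro e he θ θ' hθ' hpos q
    refine sub_le_iff_le_add'.2 ?_
    refine iInf_le_add (hlow θ q) fun x => ?_
    have h2 := ref REF.t hs0 hs1 (hF x) θ e (θ' : E (d + 1)) he hpos hθ'
    change h θ x - h θ' x ≤ _ at h2
    linarith


theorem cla_lt {h t : ℝ} (ht : cla h t < h) : t ≤ cla h t := by
  unfold cla at ht ⊢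
  have h1 : min h t < h := lt_of_le_of_lt (le_max_right _ _) ht
  have h2 : t < h := by
    by_contra hc
    rw [min_eq_left (not_lt.1 hc)] at h1
    exact lt_irrefl _ h1
  have h3 : min h t = t := min_eq_right h2.le
  rw [h3]
  exact le_max_right _ _

/-- The truncated family. -/
theorem fam_exists' {d : ℕ} (hd : 1 ≤ d) {M : Type} [MetricSpace M] (bd : Sph (d + 1) → M)
    (hbc : Continuous bd) {s : ℝ} (hs0 : 0 < s) (hs1 : s < 1) (F : E (d + 1) → E (d + 1))
    (hFc : ContinuousOn F (closedBall 0 1))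
    (hF : ∀ x : Sph (d + 1), ‖F x‖ ≤ s)
    (hbd : ∀ x y : Sph (d + 1), hdist (F x) (F y) ≤ dist (bd x) (bd y))
    (h : M → ℝ) (h0 : ∀ q, 0 ≤ h q) (h1 : ∀ q q', h q ≤ h q' + dist q q')
    (h2 : ∀ x : Sph (d + 1), Real.arcsin ‖F x‖ ≤ h (bd x)) :
    ∃ g : Sph (d + 1) → M → ℝ, FamB bd h s F g ∧ ∀ θ q, g θ q < h q →
      ∃ x : Sph (d + 1), Real.arcsin (inner ℝ (F (x : E (d + 1))) (θ : E (d + 1))) +
        dist q (bd x) ≤ g θ q := by
  obtain ⟨g, g1, ⟨C, g2⟩, g3, g4, g5⟩ := ext_exists' bd hs0 hs1 F hF hbd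
  have c1 : ∀ θ q q', |cla (h q) (g θ q) - cla (h q') (g θ q')| ≤ dist q q' := by
    intro θ q q'
    have key : ∀ q q', cla (h q) (g θ q) ≤ cla (h q') (g θ q') + dist q q' := by
      intro q q'
      refine cla_le (h1 q q') (by rw [dist_comm]; exact h1 q' q) ?_
      have := (abs_le.1 (g1 θ q q')).2
      linarith
    rw [abs_le]
    constructor
    · have := key q' q
      rw [dist_comm] at this
      linarith
    · linarith [key q q']
  have c2 : ∀ θ θ' q, |cla (h q) (g θ q) - cla (h q) (g θ' q)| ≤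
      C * ‖(θ : E (d + 1)) - (θ' : E (d + 1))‖ := by
    have key : ∀ θ θ' q, cla (h q) (g θ q) ≤ cla (h q) (g θ' q) +
        C * ‖(θ : E (d + 1)) - (θ' : E (d + 1))‖ := by
      intro θ θ' q
      have h4 := g2 θ θ' q
      have h5 : 0 ≤ C * ‖(θ : E (d + 1)) - (θ' : E (d + 1))‖ := (abs_nonneg _).trans h4
      refine cla_le (by linarith) (by linarith) ?_
      linarith [(abs_le.1 h4).2]
    intro θ θ' q
    rw [abs_le]
    constructor
    · have := key θ' θ q
      rw [norm_sub_rev] at this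
      linarith
    · linarith [key θ θ' q]
  have c4 : Mirror s fun θ q => cla (h q) (g θ q) := by
    intro e he θ θ' hθ' hpos q
    have h4 := g4 e he θ θ' hθ' hpos q
    have h5 : 0 ≤ Real.arcsin (s * ip e θ) := Real.arcsin_nonneg.2 (mul_nonneg hs0.le hpos)
    have := cla_le (h := h q) (h' := h q) (t := g θ q) (t' := g θ' q)
      (c := 2 * Real.arcsin (s * ip e θ)) (by linarith) (by linarith) (by linarith)
    simp only
    linarith
  refine ⟨fun θ q => cla (h q) (g θ q), ⟨c1, ⟨C, c2⟩, fun θ x => ?_,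
    range_of_mirror hd hs0 _ ⟨C, c2⟩ c4, fun θ q => cla_abs (h0 q) _⟩, fun θ q hlt => ?_⟩
  · rw [g3]
    refine cla_eq ?_
    have h5 : |inner ℝ (F (x : E (d + 1))) (θ : E (d + 1))| ≤ ‖F x‖ := by
      have := abs_real_inner_le_norm (F (x : E (d + 1))) (θ : E (d + 1))
      rwa [norm_sph, mul_one] at this
    refine le_trans ?_ (h2 x)
    rw [abs_le] at h5 ⊢
    constructor
    · rw [← Real.arcsin_neg]
      exact Real.monotone_arcsin h5.1
    · exact Real.monotone_arcsin h5.2
  · have hcF : Continuous fun x : Sph (d + 1) => F (x : E (d + 1)) :=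
      hFc.comp_continuous continuous_subtype_val fun x => sphere_subset_closedBall x.2
    have hc : Continuous fun x : Sph (d + 1) =>
        Real.arcsin (inner ℝ (F (x : E (d + 1))) (θ : E (d + 1))) + dist q (bd x) :=
      (Real.continuous_arcsin.comp (hcF.inner continuous_const)).add (continuous_const.dist hbc)
    have hne : (univ : Set (Sph (d + 1))).Nonempty :=
      ⟨⟨EuclideanSpace.single 0 1, by simp⟩, mem_univ _⟩
    obtain ⟨x, -, hx⟩ := isCompact_univ.exists_isMinOn hne hc.continuousOn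
    refine ⟨x, le_trans ?_ (cla_lt hlt)⟩
    rw [g5]
    have : Nonempty (Sph (d + 1)) := ⟨x⟩
    exact le_ciInf fun y => hx (mem_univ y)

end Pool.Agent.H780.RG.EXTI
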