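import Pool.Agent.H780.RG.StmA

/-!
# Project RG (helper780): equality in Hadamard's inequality
-/

set_option autoImplicit false

open MeasureTheory Metric Set Filter Topology InnerProductGeometry Matrix

namespace Pool.Agent.H780.RG.HADE

open Pool.Agent.H241R3.FV Pool.Agent.N526.CP Pool.Agent.N979.CP Pool.Agent.H780.RG

theorem main (hH : Pool.Agent.N979.CP.S_HAD) : S_HADE := by
  intro n A hrow hdet
  have key : ∀ i k : Fin n, i ≠ k → ∑ j, A i j * A k j = 0 := by
    intro i k hik
    obtain ⟨c, hc⟩ : ∃ c, c = ∑ j, A i j * A k j := ⟨_, rfl⟩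
    have h1 : (A.updateRow i (A i + (-c) • A k)).det = A.det :=
      Matrix.det_updateRow_add_smul_self A hik (-c)
    have h2 := hH n (A.updateRow i (A i + (-c) • A k))
    have h3 : ∏ r, ∑ j, (A.updateRow i (A i + (-c) • A k)) r j ^ 2 = 1 - c ^ 2 := by
      rw [Finset.prod_eq_single i]
      · have h4 : ∀ j, (A.updateRow i (A i + (-c) • A k)) i j ^ 2 =
            A i j ^ 2 - 2 * c * (A i j * A k j) + c ^ 2 * A k j ^ 2 := by
          intro j
          rw [Matrix.updateRow_self]
          simp only [Pi.add_apply, Pi.smul_apply, smul_eq_mul]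
          ring
        rw [Finset.sum_congr rfl fun j _ => h4 j, Finset.sum_add_distrib, Finset.sum_sub_distrib,
          ← Finset.mul_sum, ← Finset.mul_sum, hrow i, hrow k, ← hc]
        ring
      · intro r _ hr
        rw [← hrow r]
        refine Finset.sum_congr rfl fun j _ => ?_
        rw [Matrix.updateRow_ne hr]
      · intro h
        exact absurd (Finset.mem_univ i) h
    rw [h1, hdet, h3] at h2
    rw [← hc]
    have h5 : c ^ 2 = 0 := le_antisymm (by linarith) (sq_nonneg c)
    exact pow_eq_zero_iff (two_ne_zero) |>.1 h5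
  ext i k
  rw [Matrix.mul_apply]
  simp only [Matrix.transpose_apply]
  by_cases h : i = k
  · subst h
    rw [Matrix.one_apply_eq, ← hrow i]
    exact Finset.sum_congr rfl fun j _ => by ring
  · rw [Matrix.one_apply_ne h]
    exact key i k h

end Pool.Agent.H780.RG.HADE
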