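import Pool.Agent.H780.RG.StmC

/-! Project RG (helper780), task ISOA (helper286): boundary distances and lifting of points. -/

set_option autoImplicit false

open MeasureTheory Metric Set Filter Topology InnerProductGeometry

namespace Pool.Agent.H780.RG.ISOA

open Pool.Agent.H241R3.FV Pool.Agent.N526.CP

private theorem gn_image {n : ℕ} (hC : S_SPC) (S : Set (E n)) (hS : S ⊆ ball 0 1) :
    gn '' S = ig ⁻¹' S := by
  obtain ⟨-, -, -, -, h5, h6, -, -⟩ := hC n
  ext Y
  constructor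
  · rintro ⟨X, hX, rfl⟩
    change ig (gn X) ∈ S
    rw [h6 X (mem_ball_zero_iff.mp (hS hX))]
    exact hX
  · intro hY
    exact ⟨ig Y, hY, (h5 Y).2⟩

private theorem gn_interior {n : ℕ} (hC : S_SPC) (D : Set (E n)) (hD : D ⊆ ball 0 1) :
    interior (gn '' D) = gn '' interior D := by
  have h := hC n
  obtain ⟨-, -, -, -, h5, h6, h7, h8⟩ := h
  apply Subset.antisymm
  · intro Y hY
    have hopen : IsOpen ((ball (0 : E n) 1) ∩ gn ⁻¹' (interior (gn '' D))) :=
      h7.isOpen_inter_preimage isOpen_ball isOpen_interior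
    have hsub : (ball (0 : E n) 1) ∩ gn ⁻¹' (interior (gn '' D)) ⊆ D := by
      rintro X ⟨hX, hX2⟩
      have h1 : gn X ∈ gn '' D := interior_subset hX2
      rw [gn_image hC D hD] at h1
      have h2 : ig (gn X) ∈ D := h1
      rwa [h6 X (mem_ball_zero_iff.mp hX)] at h2
    have hY2 : ig Y ∈ (ball (0 : E n) 1) ∩ gn ⁻¹' (interior (gn '' D)) := by
      refine ⟨mem_ball_zero_iff.mpr (h5 Y).1, ?_⟩
      change gn (ig Y) ∈ interior (gn '' D)
      rw [(h5 Y).2]
      exact hY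
    exact ⟨ig Y, interior_maximal hsub hopen hY2, (h5 Y).2⟩
  · have h1 : IsOpen (gn '' interior D) := by
      rw [gn_image hC _ (interior_subset.trans hD)]
      exact isOpen_interior.preimage h8
    exact interior_maximal (image_mono interior_subset) h1

private theorem hdist_nonneg' {n : ℕ} (X Y : E n) : 0 ≤ hdist X Y := Real.arccos_nonneg _

/-- the opposite direction -/
private noncomputable def ng {n : ℕ} (u : E n) (hu : ‖u‖ = 1) : Sph n :=
  ⟨-u, by rw [mem_sphere_zero_iff_norm, norm_neg, hu]⟩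

theorem main (_hA : S_SPA) (hB : S_SPB) (hC : S_SPC) (hV : S_CVX) : S_ISOA := by
  intro n hn M _ hgeod bd A F X hrig hreg hbA hbcl
  obtain ⟨c1, c2, c3, -, c5, c6, c7, -⟩ := hC n
  set D : Set (E n) := F '' closedBall 0 1 with hD
  have hDb : D ⊆ ball 0 1 := by
    rintro _ ⟨y, hy, rfl⟩
    exact mem_ball_zero_iff.mpr (hreg.lt y hy)
  have hDcomp : IsCompact D := (isCompact_closedBall _ _).image_of_continuousOn hreg.cont
  have hCcomp : IsCompact (gn '' D) := hDcomp.image_of_continuousOn (c7.mono hDb)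
  have hn1 : 1 ≤ n := by omega
  obtain ⟨v1, v2, v3, v4⟩ := hV n hn1 (gn '' D) hCcomp hreg.convex
  have hint : interior (gn '' D) = gn '' (F '' ball 0 1) := by
    rw [gn_interior hC D hDb, hreg.int]
  have gninj : ∀ x y : E n, ‖x‖ < 1 → ‖y‖ < 1 → gn x = gn y → x = y := by
    intro x y hx hy he
    rw [← c6 x hx, he, c6 y hy]
  have hFb : ∀ x : Sph n, (x : E n) ∈ closedBall (0 : E n) 1 := fun x =>
    sphere_subset_closedBall x.2
  have hFlt : ∀ x : Sph n, ‖F x‖ < 1 := fun x => hreg.lt _ (hFb x)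
  -- boundary points of the convex body
  have hbdC : ∀ x : Sph n, gn (F x) ∈ (gn '' D) \ interior (gn '' D) := by
    intro x
    refine ⟨⟨F x, ⟨x, hFb x, rfl⟩, rfl⟩, ?_⟩
    rw [hint]
    rintro ⟨_, ⟨y, hy, rfl⟩, he⟩
    have hy1 : y ∈ closedBall (0 : E n) 1 := ball_subset_closedBall hy
    have h1 : F y = F x := gninj _ _ (hreg.lt y hy1) (hFlt x) he
    have h2 : y = x := hreg.inj hy1 (hFb x) h1
    rw [h2, mem_ball_zero_iff] at hy
    have h3 : ‖(x : E n)‖ = 1 := mem_sphere_zero_iff_norm.mp x.2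
    linarith
  have hbdC' : ∀ b ∈ (gn '' D) \ interior (gn '' D), ∃ x : Sph n, b = gn (F x) := by
    rintro b ⟨⟨_, ⟨y, hy, rfl⟩, rfl⟩, hb⟩
    rw [hint] at hb
    have hy1 : ‖y‖ = 1 := by
      apply le_antisymm (mem_closedBall_zero_iff.mp hy)
      by_contra hcon
      push Not at hcon
      exact hb ⟨F y, ⟨y, mem_ball_zero_iff.mpr hcon, rfl⟩, rfl⟩
    exact ⟨⟨y, mem_sphere_zero_iff_norm.mpr hy1⟩, rfl⟩
  -- rays
  have hray : ∀ q ∈ A, ∀ u : E n, ‖u‖ = 1 → ∃ x : Sph n, ∃ t : ℝ, 0 ≤ t ∧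
      gn (F x) = gn (X q) + t • u ∧ dist q (bd x) = hdist (X q) (F x) := by
    intro q hq u hu
    obtain ⟨x, ⟨t, ht, he⟩, hd⟩ := hrig.ray q hq (ng u hu)
    refine ⟨x, t, ht, ?_, hd⟩
    have h1 : ((ng u hu : Sph n) : E n) = -u := rfl
    rw [h1, smul_neg] at he
    rw [← sub_eq_iff_eq_add']
    rw [← neg_sub, he, neg_neg]
  -- step 1
  have hqC : ∀ q ∈ A, gn (X q) ∈ gn '' D := by
    intro q hq
    apply v1
    intro u hu
    obtain ⟨x, t, ht, he, -⟩ := hray q hq u hu
    exact ⟨gn (F x), (hbdC x).1, t, ht, he⟩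
  have hqD : ∀ q ∈ A, X q ∈ D := by
    intro q hq
    obtain ⟨y, hy, he⟩ := hqC q hq
    have : y = X q := gninj _ _ (mem_ball_zero_iff.mp (hDb hy)) (hrig.lt q) he
    rw [← this]
    exact hy
  -- step 2
  have hqI : ∀ q ∈ A, q ∉ range bd → X q ∈ F '' ball 0 1 := by
    intro q hq hqr
    by_contra hcon
    have h1 : gn (X q) ∉ interior (gn '' D) := by
      rw [hint]
      rintro ⟨y, hy, he⟩
      have hy1 : ‖y‖ < 1 := by
        obtain ⟨w, hw, rfl⟩ := hy
        exact hreg.lt w (ball_subset_closedBall hw)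
      exact hcon (by rw [← gninj _ _ hy1 (hrig.lt q) he]; exact hy)
    obtain ⟨u, hu, hu2⟩ := v2 (gn (X q)) ⟨hqC q hq, h1⟩
    obtain ⟨x, t, ht, he, hd⟩ := hray q hq u hu
    have ht0 : t = 0 := by
      by_contra hne
      exact hu2 t (lt_of_le_of_ne ht (Ne.symm hne)) (he ▸ (hbdC x).1)
    rw [ht0, zero_smul, add_zero] at he
    have h2 : F x = X q := gninj _ _ (hFlt x) (hrig.lt q) he
    rw [h2, (c1 (X q) (X q) (hrig.lt q) (hrig.lt q)).mpr rfl] at hd
    exact hqr ⟨x, (dist_eq_zero.mp hd).symm⟩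
  -- step 3
  have hdist1 : ∀ q ∈ A, q ∉ range bd → ∀ x : Sph n, dist q (bd x) = hdist (X q) (F x) := by
    intro q hq hqr x
    have hqint : gn (X q) ∈ interior (gn '' D) := by
      rw [hint]
      exact ⟨X q, hqI q hq hqr, rfl⟩
    have hne : gn (F x) - gn (X q) ≠ 0 := by
      intro h0
      rw [sub_eq_zero] at h0
      exact (hbdC x).2 (h0 ▸ hqint)
    set t : ℝ := ‖gn (F x) - gn (X q)‖ with ht
    have ht0 : 0 < t := norm_pos_iff.mpr hne
    set u : E n := t⁻¹ • (gn (F x) - gn (X q)) with hu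
    have hu1 : ‖u‖ = 1 := by
      rw [hu, norm_smul, norm_inv, Real.norm_eq_abs, abs_of_pos ht0, ← ht]
      exact inv_mul_cancel₀ ht0.ne'
    have hxe : gn (F x) = gn (X q) + t • u := by
      rw [hu, smul_smul, mul_inv_cancel₀ ht0.ne', one_smul]
      abel
    obtain ⟨x', t', ht', he', hd'⟩ := hray q hq u hu1
    have h1 := v3 (gn (X q)) hqint (gn (F x)) (hbdC x) (gn (F x')) (hbdC x') u t t' hu1 ht0.le ht'
      hxe he'
    have h2 : F x = F x' := gninj _ _ (hFlt x) (hFlt x') h1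
    have h3 : (x : E n) = x' := hreg.inj (hFb x) (hFb x') h2
    have h4 : x = x' := Subtype.ext h3
    rw [h4]
    exact hd'
  have hdist2 : ∀ q ∈ A, ∀ x : Sph n, dist q (bd x) = hdist (X q) (F x) := by
    intro q hq x
    by_cases hqr : q ∈ range bd
    · obtain ⟨y, rfl⟩ := hqr
      have hlip : LipschitzWith 1 (fun q : M => hdist (X q) (F x)) := by
        refine LipschitzWith.of_le_add fun q q' => ?_
        have h1 := c3 (X q) (F x) (X q') (hrig.lt q) (hFlt x) (hrig.lt q')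
        have h2 := hrig.lip q q'
        linarith
      have hclosed : IsClosed {q : M | dist q (bd x) = hdist (X q) (F x)} :=
        isClosed_eq (continuous_id.dist continuous_const) hlip.continuous
      have hsub : A \ range bd ⊆ {q : M | dist q (bd x) = hdist (X q) (F x)} := fun q' hq' =>
        hdist1 q' hq'.1 hq'.2 x
      exact closure_minimal hsub hclosed (hbcl y)
    · exact hdist1 q hq hqr x
  refine ⟨fun q hq => ⟨hqD q hq, hqI q hq, hdist2 q hq⟩, ?_⟩
  -- step 4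
  intro q hq z hz hz0
  have hz1 : ‖z‖ < 1 := mem_ball_zero_iff.mp (hDb hz)
  by_cases hXz : X q = z
  · refine ⟨q, hq, hXz, ?_⟩
    rw [dist_self, hXz, (c1 z z hz1 hz1).mpr rfl]
  · have hne : gn (X q) ≠ gn z := fun h => hXz (gninj _ _ (hrig.lt q) hz1 h)
    obtain ⟨b, hb, hseg⟩ := v4 (gn (X q)) (hqC q hq) (gn z) ⟨z, hz, rfl⟩ hne
    obtain ⟨x, rfl⟩ := hbdC' b hb
    obtain ⟨hsum, huniq⟩ := hB n (X q) (F x) z (hrig.lt q) (hFlt x) hz1 hseg
    have hdx := hdist2 q hq x
    obtain ⟨m, hm1, hm2⟩ := hgeod q (bd x) (hdist (X q) z) (hdist_nonneg' _ _) (by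
      rw [hdx, ← hsum]
      linarith [hdist_nonneg' z (F x)])
    have h1 : hdist (X q) (X m) ≤ hdist (X q) z := (hrig.lip q m).trans hm1.le
    have h2 : hdist (X m) (F x) ≤ hdist z (F x) := by
      have h3 := hrig.lip m (bd x)
      rw [hrig.bdv] at h3
      refine h3.trans ?_
      rw [hm2, hdx, ← hsum]
      linarith
    have hXm : X m = z := huniq (X m) (hrig.lt m) h1 h2
    refine ⟨m, ?_, hXm, hm1⟩
    by_contra hmA
    exact hz0 (hXm ▸ hrig.out m hmA)

end Pool.Agent.H780.RG.ISOA
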