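import Pool.Agent.H780.RG.StmC

/-!
# Project RG (helper780), task ISOB: the isometry
-/

set_option autoImplicit false

open MeasureTheory Metric Set Filter Topology InnerProductGeometry

namespace Pool.Agent.H780.RG.ISOB

open Pool.Agent.H241R3.FV Pool.Agent.N526.CP Pool.Agent.H780.RG

theorem main (hC : S_SPC) : S_ISOB := by
  classical
  intro n hn M _ _ bd A F X hR hF hbd hXA hlift hinj
  obtain ⟨h0, hsymm, -, hcont, -, hig, -, higc⟩ := hC n
  set D : Set (E n) := F '' closedBall 0 1 with hD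
  have hz1 : ‖(0 : E n)‖ < 1 := by rw [norm_zero]; exact one_pos
  have h00 : hdist (0 : E n) 0 = 0 := (h0 0 0 hz1 hz1).2 rfl
  -- distances in `A`
  have hdA : ∀ q ∈ A, ∀ q' ∈ A, dist q q' = hdist (X q) (X q') := by
    intro q hq q' hq'
    by_cases h1 : X q' = 0
    · by_cases h2 : X q = 0
      · have h3 : q = q' := hinj hq hq' (h2.trans h1.symm)
        rw [h3, dist_self, h1, h00]
      · obtain ⟨m, hm, hmX, hd⟩ := hlift q' hq' (X q) (hXA q hq) h2
        have h3 : m = q := hinj hm hq hmX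
        rw [h3] at hd
        rw [dist_comm, hd, hsymm]
    · obtain ⟨m, hm, hmX, hd⟩ := hlift q hq (X q') (hXA q' hq') h1
      have h3 : m = q' := hinj hm hq' hmX
      rw [h3] at hd
      exact hd
  -- a point of the sphere
  obtain ⟨x0⟩ : Nonempty (Sph n) := by
    have : Nontrivial (E n) := by
      have : Nonempty (Fin n) := ⟨⟨0, by omega⟩⟩
      infer_instance
    exact (NormedSpace.sphere_nonempty.mpr zero_le_one).to_subtype
  have hx0 : ‖(x0 : E n)‖ = 1 := by simp
  have hq0 := hbd x0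
  -- points of `A` over the nonzero points of `D`
  have hsur : ∀ z ∈ D, z ≠ 0 → ∃ m ∈ A, X m = z := by
    intro z hz hz0
    obtain ⟨m, hm, hmX, -⟩ := hlift (bd x0) hq0 z hz hz0
    exact ⟨m, hm, hmX⟩
  -- the additional point
  obtain ⟨c, hc⟩ : ∃ c : M, (0 : E n) ∈ D → ∀ q ∈ A, dist c q = hdist 0 (X q) := by
    by_cases h0D : (0 : E n) ∈ D
    · obtain ⟨w, hwD, hw0⟩ : ∃ w ∈ D, w ≠ 0 := by
        by_cases h1 : F x0 = 0
        · refine ⟨F 0, mem_image_of_mem _ (mem_closedBall_self zero_le_one), ?_⟩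
          intro h2
          have h3 := hF.inj (mem_closedBall_self zero_le_one)
            (by rw [mem_closedBall_zero_iff, hx0]) (h2.trans h1.symm)
          rw [← h3, norm_zero] at hx0
          exact zero_ne_one hx0
        · exact ⟨F x0, mem_image_of_mem _ (by rw [mem_closedBall_zero_iff, hx0]), h1⟩
      have hw1 : ‖w‖ < 1 := by
        obtain ⟨y, hy, rfl⟩ := hwD
        exact hF.lt y hy
      have hgn0 : gn (0 : E n) = 0 := by rw [gn, smul_zero]
      have hig0 : ig (0 : E n) = 0 := by rw [ig, smul_zero]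
      have hgw : gn w ≠ 0 := by
        intro h1
        apply hw0
        have h2 := hig w hw1
        rw [h1, hig0] at h2
        exact h2.symm
      obtain ⟨z, hz⟩ : ∃ z : ℕ → E n, z = fun k : ℕ => ig (((k : ℝ) + 1)⁻¹ • gn w) := ⟨_, rfl⟩
      have hzlim : Tendsto z atTop (𝓝 0) := by
        have h1 : Tendsto (fun k : ℕ => ((k : ℝ) + 1)⁻¹ • gn w) atTop (𝓝 ((0 : ℝ) • gn w)) := by
          have h2 := tendsto_one_div_add_atTop_nhds_zero_nat (𝕜 := ℝ)
          simp only [one_div] at h2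
          exact h2.smul_const _
        rw [zero_smul] at h1
        have h2 := (higc.tendsto 0).comp h1
        rw [hig0] at h2
        rw [hz]
        exact h2
      have hzD : ∀ k, z k ∈ D ∧ z k ≠ 0 := by
        intro k
        have hk : (0 : ℝ) < (k : ℝ) + 1 := by positivity
        have h1 : ((k : ℝ) + 1)⁻¹ • gn w ∈ gn '' D := by
          have h2 := hF.convex (mem_image_of_mem gn h0D) (mem_image_of_mem gn hwD)
            (a := 1 - ((k : ℝ) + 1)⁻¹) (b := ((k : ℝ) + 1)⁻¹) (by
              rw [sub_nonneg]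
              apply inv_le_one_of_one_le₀
              have : (0 : ℝ) ≤ k := Nat.cast_nonneg k
              linarith) (by positivity) (by ring)
          rwa [hgn0, smul_zero, zero_add] at h2
        obtain ⟨u, huD, hu⟩ := h1
        have hu1 : ‖u‖ < 1 := by
          obtain ⟨y, hy, rfl⟩ := huD
          exact hF.lt y hy
        have h3 : z k = u := by
          rw [hz]
          change ig (((k : ℝ) + 1)⁻¹ • gn w) = u
          rw [← hu, hig u hu1]
        refine ⟨h3 ▸ huD, ?_⟩
        rw [h3]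
        rintro rfl
        rw [hgn0] at hu
        exact (smul_ne_zero (inv_ne_zero hk.ne') hgw) hu.symm
      choose q hqA hqX using fun k => hsur (z k) (hzD k).1 (hzD k).2
      have hcau : CauchySeq q := by
        rw [cauchySeq_iff_tendsto_dist_atTop_0]
        have h1 : Tendsto (fun p : ℕ × ℕ => (z p.1, z p.2)) atTop (𝓝 ((0 : E n), (0 : E n))) := by
          rw [← prod_atTop_atTop_eq]
          exact (hzlim.comp tendsto_fst).prodMk_nhds (hzlim.comp tendsto_snd)
        have h2 := (hcont.tendsto ((0 : E n), (0 : E n))).comp h1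
        simp only [h00] at h2
        refine h2.congr fun p => ?_
        rw [hdA _ (hqA p.1) _ (hqA p.2), hqX, hqX]
        rfl
      obtain ⟨c, hc⟩ := cauchySeq_tendsto_of_complete hcau
      refine ⟨c, fun _ q' hq' => ?_⟩
      have h1 : Tendsto (fun k => dist (q k) q') atTop (𝓝 (dist c q')) := hc.dist tendsto_const_nhds
      have h2 : Tendsto (fun k => hdist (z k) (X q')) atTop (𝓝 (hdist 0 (X q'))) := by
        have h3 := (hcont.tendsto ((0 : E n), X q')).comp
          (hzlim.prodMk_nhds (tendsto_const_nhds (x := X q')))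
        exact h3
      refine tendsto_nhds_unique h1 (h2.congr fun k => ?_)
      rw [hdA _ (hqA k) _ hq', hqX]
    · exact ⟨bd x0, fun h => absurd h h0D⟩
  -- the map
  obtain ⟨Φ, hΦ⟩ : ∃ Φ : E n → M, Φ = fun z => if h : ∃ q ∈ A, X q = z then h.choose else c :=
    ⟨_, rfl⟩
  have hΦ1 : ∀ q ∈ A, Φ (X q) = q := by
    intro q hq
    have h : ∃ q' ∈ A, X q' = X q := ⟨q, hq, rfl⟩
    rw [hΦ]
    change (if h : ∃ q' ∈ A, X q' = X q then h.choose else c) = q
    rw [dif_pos h]
    exact hinj h.choose_spec.1 hq h.choose_spec.2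
  have hΦ2 : ∀ z, (¬ ∃ q ∈ A, X q = z) → Φ z = c := by
    intro z h
    rw [hΦ]
    change (if h : ∃ q ∈ A, X q = z then h.choose else c) = c
    rw [dif_neg h]
  have hcase : ∀ z ∈ D, (∃ q ∈ A, X q = z) ∨ (z = 0 ∧ Φ z = c) := by
    intro z hz
    by_cases h : ∃ q ∈ A, X q = z
    · exact Or.inl h
    · refine Or.inr ⟨?_, hΦ2 z h⟩
      by_contra h1
      exact h (hsur z hz h1)
  refine ⟨Φ, ?_, ?_, ?_, ?_⟩
  · intro y hy z hz
    rcases hcase y hy with ⟨q, hq, rfl⟩ | ⟨rfl, hyc⟩
    · rcases hcase z hz with ⟨q', hq', rfl⟩ | ⟨rfl, hzc⟩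
      · rw [hΦ1 q hq, hΦ1 q' hq', hdA q hq q' hq']
      · rw [hΦ1 q hq, hzc, dist_comm, hc hz q hq, hsymm]
    · rcases hcase z hz with ⟨q', hq', rfl⟩ | ⟨rfl, hzc⟩
      · rw [hΦ1 q' hq', hyc, hc hy q' hq']
      · rw [dist_self, h00]
  · intro x
    rw [← hR.bdv x]
    exact hΦ1 _ (hbd x)
  · intro q hq
    exact ⟨X q, hXA q hq, hΦ1 q hq⟩
  · rintro _ ⟨z, ⟨hz, hz0⟩, rfl⟩
    obtain ⟨q, hq, rfl⟩ := hsur z hz hz0
    rw [hΦ1 q hq]
    exact hq

end Pool.Agent.H780.RG.ISOB
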