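import Pool.Agent.H780.RG.StmA
import Pool.Graph.R_pool_sql_team_seeded_63374d34.N787.CP_KEY2

/-!
# Project RG (helper780), task KEQ: the case of equality in the key matrix inequality (helper81)
-/

set_option autoImplicit false

open MeasureTheory Metric Set Filter Topology InnerProductGeometry Matrix

namespace Pool.Agent.H780.RG.KEQ

open Pool.Agent.H241R3.FV Pool.Agent.N526.CP Pool.Agent.N979.CP
open Pool.Agent.N787.CPKEY2 (trace_row det_le)

/-- a product of nonnegative numbers of mean at most one which is one -/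
lemma all_one {n : ℕ} (f : Fin n → ℝ) (hf : ∀ i, 0 ≤ f i) (hs : ∑ i, f i ≤ n)
    (hpr : 1 ≤ ∏ i, f i) : ∀ i, f i = 1 := by
  have hf' : ∀ i, 0 < f i := by
    intro i
    refine lt_of_le_of_ne (hf i) fun h => ?_
    have h1 : ∏ i, f i = 0 := Finset.prod_eq_zero (Finset.mem_univ i) h.symm
    rw [h1] at hpr
    linarith
  by_contra hcon
  push Not at hcon
  obtain ⟨i, hi⟩ := hcon
  have h1 : ∏ i, f i < ∏ i, Real.exp (f i - 1) := by
    refine Finset.prod_lt_prod (fun i _ => hf' i) (fun i _ => ?_) ⟨i, Finset.mem_univ i, ?_⟩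
    · have := Real.add_one_le_exp (f i - 1)
      linarith
    · have := Real.add_one_lt_exp (sub_ne_zero.2 hi)
      linarith
  have h2 : ∏ i, Real.exp (f i - 1) ≤ 1 := by
    rw [← Real.exp_sum, Real.exp_le_one_iff, Finset.sum_sub_distrib, Finset.sum_const,
      Finset.card_univ, Fintype.card_fin, nsmul_eq_mul, mul_one]
    linarith
  linarith

theorem main (hH : Pool.Agent.N979.CP.S_HAD) (hSE : S_SCAE) (hHE : S_HADE)
    (hS : Pool.Agent.N979.CP.S_SCA) : S_KEQ := by
  intro d hd B D p σ hp hp1 hBD hσ htr hdet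
  obtain ⟨K, hK⟩ : ∃ K, K = B + D := ⟨_, rfl⟩
  rw [← hK] at htr hdet ⊢
  obtain ⟨Q, hQ⟩ : ∃ Q : Fin (d + 1) → Fin (d + 1) → ℝ, Q = fun i => B i + (-(1 - p i)) • K i :=
    ⟨_, rfl⟩
  have hsum : ∑ i, (1 - p i) = (d : ℝ) := by
    rw [Finset.sum_sub_distrib, hp1, Finset.sum_const, Finset.card_univ, Fintype.card_fin,
      nsmul_eq_mul]
    push_cast
    ring
  have hF : (K.adjugate * B).trace - d * K.det = ∑ i, (K.updateRow i (Q i)).det := by
    rw [trace_row, ← hsum, Finset.sum_mul, ← Finset.sum_sub_distrib]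
    refine Finset.sum_congr rfl fun i _ => ?_
    rw [hQ, Matrix.det_updateRow_add, Matrix.det_updateRow_smul, Matrix.updateRow_eq_self]
    ring
  rw [hF] at htr
  have hp1' : ∀ i, p i ≤ 1 := fun i => by
    rw [← hp1]
    exact Finset.single_le_sum (fun j _ => (hp j).le) (Finset.mem_univ i)
  obtain ⟨k, hk⟩ : ∃ k : Fin (d + 1) → ℝ, k = fun i => √(∑ j, K i j ^ 2) := ⟨_, rfl⟩
  obtain ⟨r, hr⟩ : ∃ r : Fin (d + 1) → ℝ, r = fun i => √(∑ j, Q i j ^ 2) := ⟨_, rfl⟩
  have hke : ∀ i, k i = √(∑ j, K i j ^ 2) := fun i => by rw [hk]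
  have hre : ∀ i, r i = √(∑ j, Q i j ^ 2) := fun i => by rw [hr]
  have hk2 : ∀ i, k i ^ 2 = ∑ j, K i j ^ 2 := fun i => by
    rw [hke, Real.sq_sqrt (by positivity)]
  have hr2 : ∀ i, r i ^ 2 = ∑ j, Q i j ^ 2 := fun i => by
    rw [hre, Real.sq_sqrt (by positivity)]
  have hr0 : ∀ i, 0 ≤ r i := fun i => by rw [hre]; positivity
  have hk0 : ∀ i, 0 < k i := by
    intro i
    rw [hke]
    refine Real.sqrt_pos.2 (lt_of_le_of_ne (by positivity) fun h => hdet ?_)
    have h1 := (Finset.sum_eq_zero_iff_of_nonneg (fun j _ => sq_nonneg (K i j))).1 h.symm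
    exact Matrix.det_eq_zero_of_row_eq_zero i fun j => by
      have h2 := h1 j (Finset.mem_univ j)
      exact pow_eq_zero_iff two_ne_zero |>.1 h2
  have hd1 : ∀ i, |(K.updateRow i (Q i)).det| ≤ r i * ∏ l ∈ Finset.univ.erase i, k l := by
    intro i
    rw [hk, hr]
    exact det_le hH K (Q i) i
  obtain ⟨f, hf⟩ : ∃ f : Fin (d + 1) → ℝ, f = fun i => (1 - p i) * k i ^ 2 + r i ^ 2 / p i :=
    ⟨_, rfl⟩
  have hfe : ∀ i, f i = (1 - p i) * k i ^ 2 + r i ^ 2 / p i := fun i => by rw [hf]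
  have h3 : ∀ i, f i = ∑ j, B i j ^ 2 + (1 - p i) / p i * ∑ j, D i j ^ 2 := by
    intro i
    rw [hfe, hk2, hr2, Finset.mul_sum,
      Finset.sum_div, Finset.mul_sum, ← Finset.sum_add_distrib, ← Finset.sum_add_distrib]
    refine Finset.sum_congr rfl fun j _ => ?_
    have h4 := (hp i).ne'
    rw [hQ, hK]
    simp only [Pi.add_apply, Pi.smul_apply, Matrix.add_apply, smul_eq_mul]
    field_simp
    ring
  have hf0 : ∀ i, 0 ≤ f i := by
    intro i
    rw [hfe]
    have e1 : 0 ≤ 1 - p i := by linarith [hp1' i]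
    have e2 := hp i
    positivity
  -- the inequality of the means
  have hS1 : (∑ i, r i * ∏ j ∈ Finset.univ.erase i, k j) ^ 2 ≤ ∏ i, f i := by
    rw [hf]
    exact Pool.Agent.N787.CPKEY2.claim_pos hS p k r hp hp1 hk0
  have hsumabs : ∑ i, |(K.updateRow i (Q i)).det| ≤
      ∑ i, r i * ∏ l ∈ Finset.univ.erase i, k l := Finset.sum_le_sum fun i _ => hd1 i
  have hσa : |σ| = 1 := by
    have h := abs_eq_abs.2 (sq_eq_sq_iff_eq_or_eq_neg.1 (hσ.trans (one_pow 2).symm))
    rwa [abs_one] at h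
  have h1le : 1 ≤ ∑ i, r i * ∏ l ∈ Finset.univ.erase i, k l := by
    rw [← hσa, ← htr]
    exact (Finset.abs_sum_le_sum_abs _ _).trans hsumabs
  have h1sq : 1 ≤ (∑ i, r i * ∏ j ∈ Finset.univ.erase i, k j) ^ 2 := by
    nlinarith
  have hf1 : ∀ i, f i = 1 := by
    refine all_one f hf0 ?_ (h1sq.trans hS1)
    rw [Finset.sum_congr rfl fun i _ => h3 i]
    push_cast
    exact hBD
  have hprod : ∏ i, f i = 1 := Finset.prod_eq_one fun i _ => hf1 i
  have hSeq : (∑ i, r i * ∏ j ∈ Finset.univ.erase i, k j) ^ 2 = ∏ i, f i := by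
    rw [hprod] at hS1 ⊢
    linarith
  -- the equality case
  have e1 : ∑ i, r i * ∏ j ∈ Finset.univ.erase i, k j =
      (∏ j, k j) * ∑ i, p i * (r i / (p i * k i)) := by
    rw [Finset.mul_sum]
    refine Finset.sum_congr rfl fun i _ => ?_
    rw [← Finset.mul_prod_erase Finset.univ k (Finset.mem_univ i)]
    have h1 := (hp i).ne'
    have h2 := (hk0 i).ne'
    field_simp
  have e2 : ∏ i, f i = (∏ i, k i) ^ 2 * ∏ i, (1 + p i * ((r i / (p i * k i)) ^ 2 - 1)) := by
    rw [← Finset.prod_pow, ← Finset.prod_mul_distrib]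
    refine Finset.prod_congr rfl fun i _ => ?_
    rw [hfe]
    have h1 := (hp i).ne'
    have h2 := (hk0 i).ne'
    field_simp
    ring
  have hkp : 0 < (∏ i, k i) ^ 2 := pow_pos (Finset.prod_pos fun i _ => hk0 i) 2
  have hz := hSE (d + 1) (by omega) p (fun i => r i / (p i * k i)) hp hp1
    (fun i => div_nonneg (hr0 i) (mul_nonneg (hp i).le (hk0 i).le)) (by
      rw [e1, e2, mul_pow] at hSeq
      exact mul_left_cancel₀ hkp.ne' hSeq)
  have hrk : ∀ i, r i = p i * k i := by
    intro i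
    have h := hz i
    have h2 : p i * k i ≠ 0 := (mul_pos (hp i) (hk0 i)).ne'
    rwa [div_eq_one_iff_eq h2] at h
  have hk1 : ∀ i, k i = 1 := by
    intro i
    have h := hf1 i
    rw [hfe, hrk] at h
    have h4 := (hp i).ne'
    have h5 : (1 - p i) * k i ^ 2 + (p i * k i) ^ 2 / p i = k i ^ 2 := by
      field_simp
      ring
    rw [h5] at h
    have h6 := hk0 i
    nlinarith
  have hrp : ∀ i, r i = p i := fun i => by rw [hrk, hk1, mul_one]
  have hle : ∀ i, σ * (K.updateRow i (Q i)).det ≤ p i := by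
    intro i
    have h := hd1 i
    rw [hrp, Finset.prod_congr rfl fun l _ => hk1 l, Finset.prod_const_one, mul_one] at h
    refine (le_abs_self _).trans ?_
    rw [abs_mul, hσa, one_mul]
    exact h
  have hdeti : ∀ i, σ * (K.updateRow i (Q i)).det = p i := by
    have h1 : ∑ i, σ * (K.updateRow i (Q i)).det = ∑ i, p i := by
      rw [← Finset.mul_sum, htr, hp1, ← sq, hσ]
    have h2 := (Finset.sum_eq_sum_iff_of_le fun i _ => hle i).1 h1
    exact fun i => h2 i (Finset.mem_univ i)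
  -- orthogonality
  have hA : ∀ i, (K.updateRow i ((p i)⁻¹ • Q i)) * (K.updateRow i ((p i)⁻¹ • Q i))ᵀ = 1 := by
    intro i
    apply hHE
    · intro l
      by_cases hl : l = i
      · subst hl
        rw [Matrix.updateRow_self]
        simp only [Pi.smul_apply, smul_eq_mul, mul_pow]
        rw [← Finset.mul_sum, ← hr2, hrp, ← mul_pow, inv_mul_cancel₀ (hp l).ne', one_pow]
      · rw [Matrix.updateRow_ne hl, ← hk2, hk1, one_pow]
    · rw [Matrix.det_updateRow_smul]
      have h1 := hdeti i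
      have h2 : (K.updateRow i (Q i)).det ^ 2 = p i ^ 2 := by
        calc (K.updateRow i (Q i)).det ^ 2 = σ ^ 2 * (K.updateRow i (Q i)).det ^ 2 := by
              rw [hσ, one_mul]
          _ = (σ * (K.updateRow i (Q i)).det) ^ 2 := (mul_pow _ _ _).symm
          _ = p i ^ 2 := by rw [h1]
      rw [mul_pow, h2, ← mul_pow, inv_mul_cancel₀ (hp i).ne', one_pow]
  have hKK : K * Kᵀ = 1 := by
    ext j l
    rw [Matrix.mul_apply]
    simp only [Matrix.transpose_apply]
    by_cases hjl : j = l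
    · subst hjl
      rw [Matrix.one_apply_eq]
      have h := hk2 j
      rw [hk1, one_pow] at h
      rw [h]
      exact Finset.sum_congr rfl fun m _ => (sq _).symm
    · rw [Matrix.one_apply_ne hjl]
      obtain ⟨i, -, hi⟩ : ∃ i ∈ (Finset.univ : Finset (Fin (d + 1))),
          i ∉ ({j, l} : Finset (Fin (d + 1))) := by
        apply Finset.exists_mem_notMem_of_card_lt_card
        rw [Finset.card_univ, Fintype.card_fin]
        exact lt_of_le_of_lt Finset.card_le_two (by omega)
      rw [Finset.mem_insert, Finset.mem_singleton, not_or] at hi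
      have h := congrFun (congrFun (hA i) j) l
      rw [Matrix.mul_apply, Matrix.one_apply_ne hjl] at h
      simp only [Matrix.transpose_apply] at h
      rw [Matrix.updateRow_ne (Ne.symm hi.1), Matrix.updateRow_ne (Ne.symm hi.2)] at h
      exact h
  refine ⟨hKK, fun hdσ => ?_⟩
  have hKK' : Kᵀ * K = 1 := mul_eq_one_comm.1 hKK
  have hadj : K.adjugate = K.det • Kᵀ := by
    calc K.adjugate = Kᵀ * K * K.adjugate := by rw [hKK', Matrix.one_mul]
      _ = Kᵀ * (K * K.adjugate) := Matrix.mul_assoc _ _ _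
      _ = K.det • Kᵀ := by rw [Matrix.mul_adjugate, Matrix.mul_smul, Matrix.mul_one]
  have hinner : ∀ i, ∑ j, Q i j * K i j = p i := by
    intro i
    have h1 : (K.updateRow i (Q i)).det = ∑ j, Q i j * K.adjugate j i := by
      rw [Matrix.det_eq_sum_mul_adjugate_row _ i]
      refine Finset.sum_congr rfl fun j _ => ?_
      rw [Matrix.adjugate_apply, Matrix.adjugate_apply, Matrix.updateRow_idem,
        Matrix.updateRow_self]
    have h2 : (K.updateRow i (Q i)).det = σ * ∑ j, Q i j * K i j := by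
      rw [h1, hadj, hdσ, Finset.mul_sum]
      refine Finset.sum_congr rfl fun j _ => ?_
      rw [Matrix.smul_apply, Matrix.transpose_apply, smul_eq_mul]
      ring
    have h3 := hdeti i
    rw [h2, ← mul_assoc, ← sq, hσ, one_mul] at h3
    exact h3
  have hQK : ∀ i j, Q i j = p i * K i j := by
    intro i
    have h1 : ∑ j, (Q i j - p i * K i j) ^ 2 = 0 := by
      have h2 : ∀ j, (Q i j - p i * K i j) ^ 2 =
          Q i j ^ 2 - 2 * p i * (Q i j * K i j) + p i ^ 2 * K i j ^ 2 := fun j => by ring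
      rw [Finset.sum_congr rfl fun j _ => h2 j, Finset.sum_add_distrib, Finset.sum_sub_distrib,
        ← Finset.mul_sum, ← Finset.mul_sum, hinner, ← hr2, ← hk2, hrp, hk1]
      ring
    intro j
    have h2 := (Finset.sum_eq_zero_iff_of_nonneg
      (fun j _ => sq_nonneg (Q i j - p i * K i j))).1 h1 j (Finset.mem_univ j)
    exact sub_eq_zero.1 (pow_eq_zero_iff two_ne_zero |>.1 h2)
  ext i j
  have h1 := hQK i j
  have h2 : K i j = B i j + D i j := by rw [hK]; rfl
  rw [hQ] at h1
  simp only [Pi.add_apply, Pi.smul_apply, smul_eq_mul] at h1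
  rw [Matrix.zero_apply]
  linarith

end Pool.Agent.H780.RG.KEQ
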