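import Pool.Agent.H780.RG.StmC

/-!
# Project RG, part LC (helper30): locally Lipschitz functions whose derivative is zero almost
everywhere are locally constant (mean values over small balls have derivative zero).
-/

set_option autoImplicit false

open MeasureTheory Metric Set Filter Topology InnerProductGeometry

namespace Pool.Agent.H780.RG.LC

open Pool.Agent.H241R3.FV Pool.Agent.N526.CP Pool.Agent.H780.RG

section
variable {n : ℕ} {u : E n → ℝ} {U : Set (E n)} {p : E n} {r K : ℝ}

theorem cont (hL : ∀ y ∈ ball p r, ∀ z ∈ ball p r, |u y - u z| ≤ K * ‖y - z‖) {x : E n} {e : ℝ}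
    (hx : ∀ t ∈ ball (0 : E n) e, x + t ∈ ball p r) :
    ContinuousOn (fun t => u (x + t)) (ball (0 : E n) e) := by
  have h : LipschitzOnWith (Real.nnabs K) (fun t => u (x + t)) (ball (0 : E n) e) := by
    refine LipschitzOnWith.of_dist_le_mul fun s hs t ht => ?_
    rw [Real.dist_eq, Real.coe_nnabs, dist_eq_norm]
    refine (hL _ (hx s hs) _ (hx t ht)).trans ?_
    rw [add_sub_add_left_eq_sub]
    exact mul_le_mul_of_nonneg_right (le_abs_self K) (norm_nonneg _)
  exact h.continuousOn

theorem mem_add {x t : E n} {e : ℝ} (he : e ≤ r / 2) (hx : x ∈ ball p (r / 2))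
    (ht : t ∈ ball (0 : E n) e) : x + t ∈ ball p r := by
  rw [mem_ball, dist_eq_norm] at hx ⊢
  rw [mem_ball, dist_zero_right] at ht
  calc ‖x + t - p‖ = ‖(x - p) + t‖ := by congr 1; abel
    _ ≤ ‖x - p‖ + ‖t‖ := norm_add_le _ _
    _ < r := by linarith

theorem integ (hL : ∀ y ∈ ball p r, ∀ z ∈ ball p r, |u y - u z| ≤ K * ‖y - z‖) {x : E n} {e : ℝ}
    (he : e ≤ r / 2) (hx : x ∈ ball p (r / 2)) :
    IntegrableOn (fun t => u (x + t)) (ball (0 : E n) e) := by
  have hmem : ∀ t ∈ ball (0 : E n) e, x + t ∈ ball p r := fun t ht => mem_add he hx ht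
  have hx' : x ∈ ball p r := by
    have h0 := mem_ball.mp hx
    have : 0 ≤ dist x p := dist_nonneg
    exact mem_ball.mpr (by linarith)
  have : IsFiniteMeasure ((volume : Measure (E n)).restrict (ball (0 : E n) e)) :=
    ⟨by rw [Measure.restrict_apply_univ]; exact measure_ball_lt_top⟩
  refine Integrable.of_bound ((cont hL hmem).aestronglyMeasurable measurableSet_ball)
    (|u x| + |K| * e) ?_
  refine (ae_restrict_iff' measurableSet_ball).mpr (Eventually.of_forall fun t ht => ?_)
  have h1 := hL _ (hmem t ht) _ hx'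
  rw [add_sub_cancel_left] at h1
  have h2 : ‖t‖ < e := by simpa using ht
  have h3 : K * ‖t‖ ≤ |K| * e :=
    mul_le_mul (le_abs_self K) h2.le (norm_nonneg _) (abs_nonneg _)
  rw [Real.norm_eq_abs]
  have h4 := abs_sub_abs_le_abs_sub (u (x + t)) (u x)
  linarith

theorem der (hU : ∀ᵐ q ∂(volume : Measure (E n)), q ∈ U → HasFDerivAt u (0 : E n →L[ℝ] ℝ) q)
    (hb : ball p r ⊆ U)
    (hL : ∀ y ∈ ball p r, ∀ z ∈ ball p r, |u y - u z| ≤ K * ‖y - z‖) {x : E n} {e : ℝ}
    (he : e ≤ r / 2) (hx : x ∈ ball p (r / 2)) :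
    HasFDerivAt (fun x => ∫ t in ball (0 : E n) e, u (x + t)) (0 : E n →L[ℝ] ℝ) x := by
  have hU2 : ∀ᵐ t ∂(volume : Measure (E n)), x + t ∈ U →
      HasFDerivAt u (0 : E n →L[ℝ] ℝ) (x + t) :=
    (measurePreserving_add_left volume x).quasiMeasurePreserving.ae hU
  have h := hasFDerivAt_integral_of_dominated_loc_of_lip (𝕜 := ℝ)
    (μ := (volume : Measure (E n)).restrict (ball (0 : E n) e)) (F := fun x t => u (x + t))
    (F' := fun _ => (0 : E n →L[ℝ] ℝ)) (x₀ := x) (bound := fun _ => |K|) (s := ball p (r / 2))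
    (isOpen_ball.mem_nhds hx) ?_ (integ hL he hx) aestronglyMeasurable_const ?_ ?_ ?_
  · have h2 := h.2
    rw [integral_zero] at h2
    exact h2
  · filter_upwards [isOpen_ball.mem_nhds hx] with y hy
    exact (cont hL fun t ht => mem_add he hy ht).aestronglyMeasurable measurableSet_ball
  · refine (ae_restrict_iff' measurableSet_ball).mpr (Eventually.of_forall fun t ht => ?_)
    refine LipschitzOnWith.of_dist_le_mul fun y hy z hz => ?_
    rw [Real.dist_eq, Real.coe_nnabs, dist_eq_norm, abs_abs]
    refine (hL _ (mem_add he hy ht) _ (mem_add he hz ht)).trans ?_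
    rw [add_sub_add_right_eq_sub]
    exact mul_le_mul_of_nonneg_right (le_abs_self K) (norm_nonneg _)
  · exact integrableOn_const measure_ball_lt_top.ne
  · refine (ae_restrict_iff' measurableSet_ball).mpr ?_
    filter_upwards [hU2] with t ht hte
    have h1 := ht (hb (mem_add he hx hte))
    have h2 : HasFDerivAt (fun x : E n => x + t) (ContinuousLinearMap.id ℝ (E n)) x :=
      (hasFDerivAt_id x).add_const t
    have h3 := HasFDerivAt.comp x (f := fun x : E n => x + t) h1 h2
    rw [ContinuousLinearMap.zero_comp] at h3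
    exact h3

theorem const (hU : ∀ᵐ q ∂(volume : Measure (E n)), q ∈ U → HasFDerivAt u (0 : E n →L[ℝ] ℝ) q)
    (hb : ball p r ⊆ U) (hr : 0 < r)
    (hL : ∀ y ∈ ball p r, ∀ z ∈ ball p r, |u y - u z| ≤ K * ‖y - z‖) {y : E n}
    (hy : y ∈ ball p (r / 2)) : u y = u p := by
  have hp : p ∈ ball p (r / 2) := mem_ball_self (by linarith)
  have key : ∀ e : ℝ, 0 < e → e ≤ r / 2 → |u y - u p| ≤ 2 * |K| * e := by
    intro e he0 he
    have h1 : (∫ t in ball (0 : E n) e, u (y + t)) = ∫ t in ball (0 : E n) e, u (p + t) := by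
      refine isOpen_ball.is_const_of_fderiv_eq_zero (𝕜 := ℝ) (s := ball p (r / 2))
        (convex_ball _ _).isPreconnected
        (f := fun x => ∫ t in ball (0 : E n) e, u (x + t)) ?_ ?_ hy hp
      · intro x hx
        exact (der hU hb hL he hx).differentiableAt.differentiableWithinAt
      · intro x hx
        exact (der hU hb hL he hx).fderiv
    have hV : 0 < (volume : Measure (E n)).real (ball (0 : E n) e) :=
      ENNReal.toReal_pos (measure_ball_pos _ _ he0).ne' measure_ball_lt_top.ne
    have h2 : ∫ t in ball (0 : E n) e, ((u y - u (y + t)) - (u p - u (p + t))) =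
        (volume : Measure (E n)).real (ball (0 : E n) e) * (u y - u p) := by
      have hc : ∀ c : ℝ, IntegrableOn (fun _ : E n => c) (ball (0 : E n) e) := fun c =>
        integrableOn_const measure_ball_lt_top.ne
      have i1 : IntegrableOn (fun t => u y - u (y + t)) (ball (0 : E n) e) :=
        (hc (u y)).sub (integ hL he hy)
      have i2 : IntegrableOn (fun t => u p - u (p + t)) (ball (0 : E n) e) :=
        (hc (u p)).sub (integ hL he hp)
      have j1 : ∫ t in ball (0 : E n) e, (u y - u (y + t)) =
          (volume : Measure (E n)).real (ball (0 : E n) e) * u y -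
            ∫ t in ball (0 : E n) e, u (y + t) := by
        rw [integral_sub (hc (u y)) (integ hL he hy), setIntegral_const, smul_eq_mul]
      have j2 : ∫ t in ball (0 : E n) e, (u p - u (p + t)) =
          (volume : Measure (E n)).real (ball (0 : E n) e) * u p -
            ∫ t in ball (0 : E n) e, u (p + t) := by
        rw [integral_sub (hc (u p)) (integ hL he hp), setIntegral_const, smul_eq_mul]
      rw [integral_sub i1 i2, j1, j2, h1]
      ring
    have h3 : ‖∫ t in ball (0 : E n) e, ((u y - u (y + t)) - (u p - u (p + t)))‖ ≤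
        (2 * |K| * e) * (volume : Measure (E n)).real (ball (0 : E n) e) := by
      refine norm_setIntegral_le_of_norm_le_const measure_ball_lt_top fun t ht => ?_
      have hy' : y ∈ ball p r := ball_subset_ball (by linarith) hy
      have hp' : p ∈ ball p r := mem_ball_self hr
      have h4 := hL _ hy' _ (mem_add he hy ht)
      have h5 := hL _ hp' _ (mem_add he hp ht)
      have h6 : ‖t‖ < e := by simpa using ht
      rw [sub_add_cancel_left, norm_neg] at h4 h5
      have h7 : K * ‖t‖ ≤ |K| * e :=
        mul_le_mul (le_abs_self K) h6.le (norm_nonneg _) (abs_nonneg _)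
      rw [Real.norm_eq_abs]
      have h8 := abs_sub (u y - u (y + t)) (u p - u (p + t))
      linarith
    rw [h2, Real.norm_eq_abs, abs_mul, abs_of_pos hV, mul_comm] at h3
    exact le_of_mul_le_mul_right h3 hV
  have h0 : |u y - u p| ≤ 0 := by
    refine le_of_forall_pos_le_add fun δ hδ => ?_
    rw [zero_add]
    set e : ℝ := min (r / 2) (δ / (2 * |K| + 1)) with he
    have hK : 0 < 2 * |K| + 1 := by positivity
    have he0 : 0 < e := lt_min (by linarith) (by positivity)
    have h1 := key e he0 (min_le_left _ _)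
    have h2 : e ≤ δ / (2 * |K| + 1) := min_le_right _ _
    rw [le_div_iff₀ hK] at h2
    have h3 : 2 * |K| * e ≤ e * (2 * |K| + 1) := by nlinarith
    linarith
  have h1 := abs_eq_zero.mp (le_antisymm h0 (abs_nonneg _))
  linarith

end

theorem main : S_LC := by
  intro n U hU u hL hd p hp
  obtain ⟨r, hr, K, hK⟩ := hL p hp
  obtain ⟨r', hr', hb⟩ := Metric.isOpen_iff.mp hU p hp
  have hr0 : 0 < min r r' := lt_min hr hr'
  have h1 : ball p (min r r' / 2) ∈ 𝓝 p := ball_mem_nhds p (by linarith)
  filter_upwards [h1] with y hy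
  exact const hd ((ball_subset_ball (min_le_right _ _)).trans hb) hr0
    (fun a ha b hb => hK a (ball_subset_ball (min_le_left _ _) ha) b
      (ball_subset_ball (min_le_left _ _) hb)) hy



end Pool.Agent.H780.RG.LC
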