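import Pool.Agent.H780.RG.StmC

/-!
# NULT: null sets and charts (helper725)
-/

set_option autoImplicit false

open MeasureTheory Metric Set Filter Topology InnerProductGeometry

namespace Pool.Agent.H780.RG.NULT

open Pool.Agent.H241R3.FV Pool.Agent.N526.CP

section

variable {n : ℕ} {M : Type} [MetricSpace M] {ι : Type}

open Classical in
/-- the transition map from the chart `j` to the chart `i`, defined by choice -/
noncomputable def tr (C : ι → RChart n M) (i j : ι) (y : E n) : E n :=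
  if h : ∃ p, p ∈ (C i).U ∧ (C i).map p = (C j).map y then h.choose else y

theorem tr_spec (C : ι → RChart n M) (i j : ι) (y : E n)
    (h : ∃ p, p ∈ (C i).U ∧ (C i).map p = (C j).map y) :
    tr C i j y ∈ (C i).U ∧ (C i).map (tr C i j y) = (C j).map y := by
  unfold tr
  rw [dif_pos h]
  exact h.choose_spec

theorem tr_diff (C : ι → RChart n M) (hinj : ∀ i, InjOn (C i).map (C i).U) (hT : Trans C)
    (i j : ι) (y : E n) (hy : y ∈ (C j).U)
    (h : ∃ p, p ∈ (C i).U ∧ (C i).map p = (C j).map y) :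
    DifferentiableAt ℝ (tr C i j) y := by
  obtain ⟨h1, h2⟩ := tr_spec C i j y h
  obtain ⟨τ, T, e1, e2, e3⟩ := hT j i y hy (tr C i j y) h1 h2.symm
  have e4 : tr C i j =ᶠ[𝓝 y] τ := by
    filter_upwards [e2] with z hz
    obtain ⟨k1, k2⟩ := tr_spec C i j z ⟨τ z, hz.1, hz.2⟩
    exact hinj i k1 hz.1 (k2.trans hz.2.symm)
  exact (e3.congr_of_eventuallyEq e4).differentiableAt

end

theorem main : S_NULT := by
  intro n M _ ι _ C hinj hT hcov P hP i
  have hN : ∀ j, volume {p : E n | p ∈ (C j).D ∧ ¬ P ((C j).map p)} = 0 := by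
    intro j
    have h1 := hP j
    rw [ae_iff] at h1
    refine measure_mono_null (fun p hp => ?_) h1
    intro h2
    exact hp.2 (h2 hp.1)
  have hS : ∀ j, volume (tr C i j '' {p : E n | (p ∈ (C j).D ∧ ¬ P ((C j).map p)) ∧
      ∃ q, q ∈ (C i).U ∧ (C i).map q = (C j).map p}) = 0 := by
    intro j
    refine addHaar_image_eq_zero_of_differentiableOn_of_addHaar_eq_zero volume ?_ ?_
    · intro p hp
      exact (tr_diff C hinj hT i j p ((C j).D_sub hp.1.1) hp.2).differentiableWithinAt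
    · exact measure_mono_null (fun p hp => hp.1) (hN j)
  have hU := measure_iUnion_null hS
  rw [ae_iff]
  refine measure_mono_null (fun p hp => ?_) hU
  have hp1 : p ∈ (C i).U ∧ ¬ P ((C i).map p) := by
    have h3 : ¬ (p ∈ (C i).U → P ((C i).map p)) := hp
    exact ⟨by by_contra h4; exact h3 fun h5 => absurd h5 h4, fun h4 => h3 fun _ => h4⟩
  obtain ⟨j, p', h1, h2⟩ := hcov i p hp1.1
  refine mem_iUnion.2 ⟨j, p', ⟨⟨h1, ?_⟩, p, hp1.1, h2.symm⟩, ?_⟩
  · rw [h2]
    exact hp1.2
  · obtain ⟨k1, k2⟩ := tr_spec C i j p' ⟨p, hp1.1, h2.symm⟩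
    exact hinj i k1 hp1.1 (k2.trans h2)

end Pool.Agent.H780.RG.NULT
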