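import Pool.Agent.H780.RG.StmC

/-!
# Project RG (helper780): PATH
-/

set_option autoImplicit false

open MeasureTheory Metric Set Filter Topology InnerProductGeometry

namespace Pool.Agent.H780.RG.PATH

open Pool.Agent.H241R3.FV Pool.Agent.N526.CP Pool.Agent.H780.RG

theorem main : S_PATH := by
  intro M _ _ hG n bd r u hu h0 hloc q hq
  obtain ⟨x, hx⟩ := hq
  have hcl : IsClosed {m : M | dist q m + dist m (bd x) = dist q (bd x) ∧ u m = u q} := by
    refine IsClosed.inter (isClosed_eq ?_ continuous_const) (isClosed_eq hu continuous_const)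
    exact (continuous_const.dist continuous_id).add (continuous_id.dist continuous_const)
  have hcomp : IsCompact {m : M | dist q m + dist m (bd x) = dist q (bd x) ∧ u m = u q} := by
    refine (isCompact_closedBall q (dist q (bd x))).of_isClosed_subset hcl ?_
    intro m hm
    rw [mem_closedBall, dist_comm]
    have h1 : dist q m + dist m (bd x) = dist q (bd x) := hm.1
    have h2 : 0 ≤ dist m (bd x) := dist_nonneg
    linarith
  obtain ⟨m, hm, hmin⟩ := hcomp.exists_isMinOn ⟨q, by rw [dist_self, zero_add], rfl⟩
    (f := fun m => dist m (bd x)) (continuous_id.dist continuous_const).continuousOn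
  obtain ⟨hm1, hm2⟩ := hm
  by_cases hr : m ∈ range bd
  · obtain ⟨y, rfl⟩ := hr
    rw [← hm2, h0]
  · exfalso
    have hpos : 0 < dist m (bd x) := by
      rw [dist_pos]
      intro h
      exact hr ⟨x, h.symm⟩
    have h2 : 0 ≤ dist q m := dist_nonneg
    have h3 := hloc m ⟨x, by linarith⟩ hr
    obtain ⟨ε, hε, hball⟩ := Metric.eventually_nhds_iff.1 h3
    obtain ⟨m', h4, h5⟩ := hG m (bd x) (min (ε / 2) (dist m (bd x)))
      (le_min (by linarith) hpos.le) (min_le_right _ _)
    have ht : 0 < min (ε / 2) (dist m (bd x)) := lt_min (by linarith) hpos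
    have h6 : u m' = u m := by
      apply hball
      rw [dist_comm, h4]
      exact (min_le_left _ _).trans_lt (by linarith)
    have h7 : dist q m' + dist m' (bd x) = dist q (bd x) := by
      have h8 := dist_triangle q m m'
      have h9 := dist_triangle q m' (bd x)
      linarith
    have h10 : dist m (bd x) ≤ dist m' (bd x) := hmin ⟨h7, h6.trans hm2⟩
    linarith

end Pool.Agent.H780.RG.PATH
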