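import Pool.Agent.H780.RG.StmA

/-!
# Project RG (helper780): the case of equality in the scalar inequality
-/

set_option autoImplicit false

open MeasureTheory Metric Set Filter Topology InnerProductGeometry Matrix

namespace Pool.Agent.H780.RG.SCAE

open Pool.Agent.H241R3.FV Pool.Agent.N526.CP Pool.Agent.N979.CP Pool.Agent.H780.RG

lemma L1 {ι : Type} [DecidableEq ι] (s : Finset ι) (u : ι → ℝ) (hu : ∀ i ∈ s, 0 ≤ u i) :
    1 + ∑ i ∈ s, u i ≤ ∏ i ∈ s, (1 + u i) := by
  induction s using Finset.induction_on with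
  | empty => simp
  | insert a s ha ih =>
    rw [Finset.sum_insert ha, Finset.prod_insert ha]
    have h1 := ih fun i hi => hu i (Finset.mem_insert_of_mem hi)
    have h2 := hu a (Finset.mem_insert_self a s)
    have h3 : 0 ≤ ∑ i ∈ s, u i := Finset.sum_nonneg fun i hi => hu i (Finset.mem_insert_of_mem hi)
    have h4 := mul_le_mul_of_nonneg_left h1 (by linarith : 0 ≤ 1 + u a)
    have h5 := mul_nonneg h2 h3
    nlinarith

lemma L1s {ι : Type} [DecidableEq ι] (s : Finset ι) (u : ι → ℝ) (hu : ∀ i ∈ s, 0 ≤ u i)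
    {i j : ι} (hi : i ∈ s) (hj : j ∈ s) (hij : i ≠ j) (hui : 0 < u i) (huj : 0 < u j) :
    1 + ∑ i ∈ s, u i < ∏ i ∈ s, (1 + u i) := by
  have hj' : j ∈ s.erase i := Finset.mem_erase.2 ⟨hij.symm, hj⟩
  rw [← Finset.add_sum_erase s u hi, ← Finset.add_sum_erase (s.erase i) u hj',
    ← Finset.mul_prod_erase s (fun i => 1 + u i) hi,
    ← Finset.mul_prod_erase (s.erase i) (fun i => 1 + u i) hj']
  have hu' : ∀ k ∈ (s.erase i).erase j, 0 ≤ u k := fun k hk =>
    hu k (Finset.mem_of_mem_erase (Finset.mem_of_mem_erase hk))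
  have h1 := L1 ((s.erase i).erase j) u hu'
  have h3 : 0 ≤ ∑ k ∈ (s.erase i).erase j, u k := Finset.sum_nonneg hu'
  generalize ∑ k ∈ (s.erase i).erase j, u k = R at *
  generalize ∏ k ∈ (s.erase i).erase j, (1 + u k) = Q at *
  have h4 : (1 + u i) * ((1 + u j) * (1 + R)) ≤ (1 + u i) * ((1 + u j) * Q) :=
    mul_le_mul_of_nonneg_left (mul_le_mul_of_nonneg_left h1 (by linarith)) (by linarith)
  have h5 := mul_pos hui huj
  have h6 := mul_nonneg hui.le h3
  have h7 := mul_nonneg huj.le h3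
  have h8 := mul_nonneg h5.le h3
  nlinarith

lemma L2 {ι : Type} [DecidableEq ι] (s : Finset ι) (w : ι → ℝ) (hw : ∀ i ∈ s, 0 ≤ w i)
    (hw1 : ∀ i ∈ s, w i ≤ 1) : 1 - ∑ i ∈ s, w i ≤ ∏ i ∈ s, (1 - w i) := by
  induction s using Finset.induction_on with
  | empty => simp
  | insert a s ha ih =>
    rw [Finset.sum_insert ha, Finset.prod_insert ha]
    have h1 := ih (fun i hi => hw i (Finset.mem_insert_of_mem hi))
      fun i hi => hw1 i (Finset.mem_insert_of_mem hi)
    have h2 := hw a (Finset.mem_insert_self a s)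
    have h2' := hw1 a (Finset.mem_insert_self a s)
    have h3 : 0 ≤ ∑ i ∈ s, w i := Finset.sum_nonneg fun i hi => hw i (Finset.mem_insert_of_mem hi)
    have h4 := mul_le_mul_of_nonneg_left h1 (by linarith : 0 ≤ 1 - w a)
    have h5 := mul_nonneg h2 h3
    nlinarith

lemma L2s {ι : Type} [DecidableEq ι] (s : Finset ι) (w : ι → ℝ) (hw : ∀ i ∈ s, 0 ≤ w i)
    (hw1 : ∀ i ∈ s, w i ≤ 1) {i j : ι} (hi : i ∈ s) (hj : j ∈ s) (hij : i ≠ j) (hwi : 0 < w i)
    (hwj : 0 < w j) : 1 - ∑ i ∈ s, w i < ∏ i ∈ s, (1 - w i) := by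
  have hj' : j ∈ s.erase i := Finset.mem_erase.2 ⟨hij.symm, hj⟩
  rw [← Finset.add_sum_erase s w hi, ← Finset.add_sum_erase (s.erase i) w hj',
    ← Finset.mul_prod_erase s (fun i => 1 - w i) hi,
    ← Finset.mul_prod_erase (s.erase i) (fun i => 1 - w i) hj']
  have hw' : ∀ k ∈ (s.erase i).erase j, 0 ≤ w k := fun k hk =>
    hw k (Finset.mem_of_mem_erase (Finset.mem_of_mem_erase hk))
  have hw1' : ∀ k ∈ (s.erase i).erase j, w k ≤ 1 := fun k hk =>
    hw1 k (Finset.mem_of_mem_erase (Finset.mem_of_mem_erase hk))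
  have h1 := L2 ((s.erase i).erase j) w hw' hw1'
  have h3 : 0 ≤ ∑ k ∈ (s.erase i).erase j, w k := Finset.sum_nonneg hw'
  have hi1 := hw1 i hi
  have hj1 := hw1 j hj
  generalize ∑ k ∈ (s.erase i).erase j, w k = R at *
  generalize ∏ k ∈ (s.erase i).erase j, (1 - w k) = Q at *
  have h4 : (1 - w i) * ((1 - w j) * (1 - R)) ≤ (1 - w i) * ((1 - w j) * Q) :=
    mul_le_mul_of_nonneg_left (mul_le_mul_of_nonneg_left h1 (by linarith)) (by linarith)
  have h5 := mul_pos hwi hwj
  have h6 : (1 - w i) * (1 - w j) ≤ 1 := by nlinarith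
  have h7 := mul_le_mul_of_nonneg_right h6 h3
  nlinarith

theorem main : S_SCAE := by
  intro n hn p z hp hsum hz heq
  obtain ⟨a, ha⟩ : ∃ a : Fin n → ℝ, a = fun i => max 1 (z i) := ⟨_, rfl⟩
  obtain ⟨b, hb⟩ : ∃ b : Fin n → ℝ, b = fun i => min 1 (z i) := ⟨_, rfl⟩
  have hab : ∀ i, a i * b i = z i := fun i => by
    rw [ha, hb]
    simp only
    rw [max_mul_min, one_mul]
  have ha1 : ∀ i, 1 ≤ a i := fun i => by rw [ha]; exact le_max_left _ _
  have hb1 : ∀ i, b i ≤ 1 := fun i => by rw [hb]; exact min_le_left _ _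
  have hb0 : ∀ i, 0 ≤ b i := fun i => by rw [hb]; exact le_min zero_le_one (hz i)
  have hor : ∀ i, a i = 1 ∨ b i = 1 := fun i => by
    rw [ha, hb]
    simp only
    rcases le_total 1 (z i) with h | h
    · right; exact min_eq_left h
    · left; exact max_eq_left h
  -- all weights are less than one
  have hp1 : ∀ i, p i < 1 := by
    intro i
    obtain ⟨j, hj⟩ : ∃ j : Fin n, j ≠ i := by
      have : Nontrivial (Fin n) := Fin.nontrivial_iff_two_le.2 (by omega)
      exact exists_ne i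
    have h1 : p i + p j ≤ ∑ k, p k := by
      rw [← Finset.sum_pair hj.symm]
      exact Finset.sum_le_sum_of_subset_of_nonneg (Finset.subset_univ _) fun k _ _ => (hp k).le
    have := hp j
    linarith
  -- the product
  have hu : ∀ i ∈ (Finset.univ : Finset (Fin n)), 0 ≤ p i * (a i ^ 2 - 1) := fun i _ =>
    mul_nonneg (hp i).le (by nlinarith [ha1 i])
  have hw : ∀ i ∈ (Finset.univ : Finset (Fin n)), 0 ≤ p i * (1 - b i ^ 2) := fun i _ =>
    mul_nonneg (hp i).le (by nlinarith [hb1 i, hb0 i])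
  have hwp : ∀ i, p i * (1 - b i ^ 2) ≤ p i := fun i => by nlinarith [hp i, sq_nonneg (b i)]
  have hw1 : ∀ i ∈ (Finset.univ : Finset (Fin n)), p i * (1 - b i ^ 2) ≤ 1 := fun i _ =>
    (hwp i).trans (hp1 i).le
  have hprod : ∏ i, (1 + p i * (z i ^ 2 - 1)) =
      (∏ i, (1 + p i * (a i ^ 2 - 1))) * ∏ i, (1 - p i * (1 - b i ^ 2)) := by
    rw [← Finset.prod_mul_distrib]
    refine Finset.prod_congr rfl fun i _ => ?_
    rw [← hab i]
    rcases hor i with h | h
    · rw [h]; ring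
    · rw [h]; ring
  have hJpos : 0 < ∏ i, (1 - p i * (1 - b i ^ 2)) := Finset.prod_pos fun i _ => by
    have := hwp i
    have := hp1 i
    linarith
  -- the sums
  obtain ⟨A, hA⟩ : ∃ A, A = ∑ i, p i * a i ^ 2 := ⟨_, rfl⟩
  obtain ⟨B, hB⟩ : ∃ B, B = ∑ i, p i * b i ^ 2 := ⟨_, rfl⟩
  obtain ⟨Cc, hC⟩ : ∃ Cc, Cc = ∑ i, p i * z i := ⟨_, rfl⟩
  have hsu : 1 + ∑ i, p i * (a i ^ 2 - 1) = A := by
    rw [hA, Finset.sum_congr rfl fun i _ => (by ring : p i * (a i ^ 2 - 1) = p i * a i ^ 2 - p i),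
      Finset.sum_sub_distrib, hsum]
    ring
  have hsw : 1 - ∑ i, p i * (1 - b i ^ 2) = B := by
    rw [hB, Finset.sum_congr rfl fun i _ => (by ring : p i * (1 - b i ^ 2) = p i - p i * b i ^ 2),
      Finset.sum_sub_distrib, hsum]
    ring
  have hA1 : 1 ≤ A := by
    rw [← hsu]
    have := Finset.sum_nonneg hu
    linarith
  have hA0 : 0 < A := by linarith
  have hquad : ∑ i, p i * (b i - Cc / A * a i) ^ 2 = B - Cc ^ 2 / A := by
    have h1 : ∀ i, p i * (b i - Cc / A * a i) ^ 2 =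
        p i * b i ^ 2 - 2 * (Cc / A) * (p i * z i) + (Cc / A) ^ 2 * (p i * a i ^ 2) := by
      intro i
      rw [← hab i]
      ring
    rw [Finset.sum_congr rfl fun i _ => h1 i, Finset.sum_add_distrib, Finset.sum_sub_distrib,
      ← Finset.mul_sum, ← Finset.mul_sum, ← hA, ← hB, ← hC]
    field_simp
    ring
  have hqn : 0 ≤ B - Cc ^ 2 / A := by
    rw [← hquad]
    exact Finset.sum_nonneg fun i _ => mul_nonneg (hp i).le (sq_nonneg _)
  have hCAB : Cc ^ 2 ≤ A * B := by
    have h1 : Cc ^ 2 / A ≤ B := by linarith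
    rw [div_le_iff₀ hA0] at h1
    linarith
  have hPI := L1 Finset.univ (fun i => p i * (a i ^ 2 - 1)) hu
  have hPJ := L2 Finset.univ (fun i => p i * (1 - b i ^ 2)) hw hw1
  rw [hsu] at hPI
  rw [hsw] at hPJ
  rw [← hC, hprod] at heq
  have hAPJ : A * B ≤ A * ∏ i, (1 - p i * (1 - b i ^ 2)) := mul_le_mul_of_nonneg_left hPJ hA0.le
  have hPIPJ := mul_le_mul_of_nonneg_right hPI hJpos.le
  by_cases hone : ∃ j, z j = 1
  · obtain ⟨j, hj⟩ := hone
    have h1 : Cc ^ 2 = A * B := le_antisymm hCAB (by linarith)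
    have h2 : ∑ i, p i * (b i - Cc / A * a i) ^ 2 = 0 := by
      rw [hquad, h1]
      field_simp
      ring
    rw [Finset.sum_eq_zero_iff_of_nonneg fun i _ => mul_nonneg (hp i).le (sq_nonneg _)] at h2
    have h3 : ∀ i, b i = Cc / A * a i := by
      intro i
      have h4 := h2 i (Finset.mem_univ i)
      rcases mul_eq_zero.1 h4 with h5 | h5
      · exact absurd h5 (hp i).ne'
      · have h6 := pow_eq_zero_iff (two_ne_zero) |>.1 h5
        linarith
    have haj : a j = 1 := by rw [ha]; simp [hj]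
    have hbj : b j = 1 := by rw [hb]; simp [hj]
    have ht : Cc / A = 1 := by
      have := h3 j
      rw [haj, hbj, mul_one] at this
      exact this.symm
    intro i
    have h4 := h3 i
    rw [ht, one_mul] at h4
    have h5 : a i = 1 := le_antisymm (h4 ▸ hb1 i) (ha1 i)
    rw [← hab i, h4, h5, mul_one]
  · push Not at hone
    exfalso
    have hcls : ∀ i, 0 < p i * (a i ^ 2 - 1) ∨ 0 < p i * (1 - b i ^ 2) := by
      intro i
      rcases lt_or_gt_of_ne (hone i) with h | h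
      · right
        have : b i = z i := by rw [hb]; exact min_eq_right h.le
        rw [this]
        exact mul_pos (hp i) (by nlinarith [hz i])
      · left
        have : a i = z i := by rw [ha]; exact max_eq_right h.le
        rw [this]
        exact mul_pos (hp i) (by nlinarith)
    have hI : ∀ i j : Fin n, i ≠ j → 0 < p i * (a i ^ 2 - 1) → 0 < p j * (a j ^ 2 - 1) → False := by
      intro i j hij h1 h2
      have h3 := L1s Finset.univ (fun i => p i * (a i ^ 2 - 1)) hu (Finset.mem_univ i)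
        (Finset.mem_univ j) hij h1 h2
      rw [hsu] at h3
      have h4 := mul_lt_mul_of_pos_right h3 hJpos
      linarith
    have hJ : ∀ i j : Fin n, i ≠ j → 0 < p i * (1 - b i ^ 2) → 0 < p j * (1 - b j ^ 2) → False := by
      intro i j hij h1 h2
      have h3 := L2s Finset.univ (fun i => p i * (1 - b i ^ 2)) hw hw1 (Finset.mem_univ i)
        (Finset.mem_univ j) hij h1 h2
      rw [hsw] at h3
      have h4 := mul_lt_mul_of_pos_left h3 hA0
      linarith
    have e01 : (⟨0, by omega⟩ : Fin n) ≠ ⟨1, by omega⟩ := by simp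
    have e02 : (⟨0, by omega⟩ : Fin n) ≠ ⟨2, by omega⟩ := by simp
    have e12 : (⟨1, by omega⟩ : Fin n) ≠ ⟨2, by omega⟩ := by simp
    rcases hcls ⟨0, by omega⟩ with h0 | h0 <;> rcases hcls ⟨1, by omega⟩ with h1 | h1 <;>
      rcases hcls ⟨2, by omega⟩ with h2 | h2
    · exact hI _ _ e01 h0 h1
    · exact hI _ _ e01 h0 h1
    · exact hI _ _ e02 h0 h2
    · exact hJ _ _ e12 h1 h2
    · exact hI _ _ e12 h1 h2
    · exact hJ _ _ e02 h0 h2
    · exact hJ _ _ e01 h0 h1
    · exact hJ _ _ e01 h0 h1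

end Pool.Agent.H780.RG.SCAE
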