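import Pool.Agent.H780.RG.StmB

/-!
# Project RG (helper780), SPA: equality in `|arcsin ⟨X, θ⟩ - arcsin ⟨Y, θ⟩| ≤ hdist X Y` (by helper261)
-/

set_option autoImplicit false

open MeasureTheory Metric Set Filter Topology InnerProductGeometry

namespace Pool.Agent.H780.RG.SPA

open Pool.Agent.H241R3.FV Pool.Agent.N526.CP

theorem spa0 {V : Type*} [NormedAddCommGroup V] [InnerProductSpace ℝ V] (X Y θ : V)
    (hθ : ‖θ‖ = 1) (hX : ‖X‖ < 1) (hY : ‖Y‖ < 1) :
    (∃ t : ℝ, 0 ≤ t ∧ (√(1 - ‖X‖ ^ 2))⁻¹ • X - (√(1 - ‖Y‖ ^ 2))⁻¹ • Y = t • θ) ↔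
      Real.arcsin (inner ℝ X θ) - Real.arcsin (inner ℝ Y θ) =
        Real.arccos (√(1 - ‖X‖ ^ 2) * √(1 - ‖Y‖ ^ 2) + inner ℝ X Y) := by
  have hX2 : 0 < 1 - ‖X‖ ^ 2 := by nlinarith [norm_nonneg X]
  have hY2 : 0 < 1 - ‖Y‖ ^ 2 := by nlinarith [norm_nonneg Y]
  set c := √(1 - ‖X‖ ^ 2) with hcdef
  set d := √(1 - ‖Y‖ ^ 2) with hddef
  have hc : 0 < c := Real.sqrt_pos.2 hX2
  have hd : 0 < d := Real.sqrt_pos.2 hY2
  have hc2 : c ^ 2 = 1 - ‖X‖ ^ 2 := Real.sq_sqrt hX2.le
  have hd2 : d ^ 2 = 1 - ‖Y‖ ^ 2 := Real.sq_sqrt hY2.le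
  set p : ℝ := inner ℝ X θ with hp
  set q : ℝ := inner ℝ Y θ with hq
  have hpa : |p| < 1 := by
    refine lt_of_le_of_lt (abs_real_inner_le_norm X θ) ?_
    rw [hθ, mul_one]; exact hX
  have hqa : |q| < 1 := by
    refine lt_of_le_of_lt (abs_real_inner_le_norm Y θ) ?_
    rw [hθ, mul_one]; exact hY
  obtain ⟨hp1, hp2⟩ := abs_lt.1 hpa
  obtain ⟨hq1, hq2⟩ := abs_lt.1 hqa
  set X' : V := X - p • θ with hX'
  set Y' : V := Y - q • θ with hY'
  have hθθ : inner ℝ θ θ = (1 : ℝ) := by rw [real_inner_self_eq_norm_sq, hθ]; norm_num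
  have hθX : inner ℝ θ X = p := real_inner_comm _ _
  have hθY : inner ℝ θ Y = q := real_inner_comm _ _
  have nX : inner ℝ X' X' = ‖X‖ ^ 2 - p ^ 2 := by
    rw [hX']
    simp only [inner_sub_left, inner_sub_right, real_inner_smul_left, real_inner_smul_right,
      real_inner_self_eq_norm_sq X, hθθ, hθX, ← hp]
    ring
  have nY : inner ℝ Y' Y' = ‖Y‖ ^ 2 - q ^ 2 := by
    rw [hY']
    simp only [inner_sub_left, inner_sub_right, real_inner_smul_left, real_inner_smul_right,
      real_inner_self_eq_norm_sq Y, hθθ, hθY, ← hq]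
    ring
  have nXY : inner ℝ X' Y' = inner ℝ X Y - p * q := by
    rw [hX', hY']
    simp only [inner_sub_left, inner_sub_right, real_inner_smul_left, real_inner_smul_right,
      hθθ, hθY, ← hp]
    ring
  set r : ℝ := inner ℝ X' Y' with hr
  set A : ℝ := inner ℝ X' X' with hA
  set B : ℝ := inner ℝ Y' Y' with hB
  have hA0 : 0 ≤ A := real_inner_self_nonneg
  have hB0 : 0 ≤ B := real_inner_self_nonneg
  have hCS : r ^ 2 ≤ A * B := by
    have := real_inner_mul_inner_self_le X' Y'
    rw [← hA, ← hB, ← hr] at this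
    nlinarith
  have hu2 : 0 < 1 - p ^ 2 := by nlinarith
  have hw2 : 0 < 1 - q ^ 2 := by nlinarith
  set u := √(1 - p ^ 2) with hudef
  set w := √(1 - q ^ 2) with hwdef
  have hu : 0 < u := Real.sqrt_pos.2 hu2
  have hw : 0 < w := Real.sqrt_pos.2 hw2
  have husq : u ^ 2 = c ^ 2 + A := by rw [hudef, Real.sq_sqrt hu2.le, hc2, nX]; ring
  have hwsq : w ^ 2 = d ^ 2 + B := by rw [hwdef, Real.sq_sqrt hw2.le, hd2, nY]; ring
  have hcos : Real.cos (Real.arcsin p - Real.arcsin q) = u * w + p * q := by
    rw [Real.cos_sub, Real.cos_arcsin, Real.cos_arcsin, Real.sin_arcsin hp1.le hp2.le,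
      Real.sin_arcsin hq1.le hq2.le]
  have hsin : Real.sin (Real.arcsin p - Real.arcsin q) = p * w - u * q := by
    rw [Real.sin_sub, Real.cos_arcsin, Real.cos_arcsin, Real.sin_arcsin hp1.le hp2.le,
      Real.sin_arcsin hq1.le hq2.le]
  have hab1 : Real.arcsin p - Real.arcsin q < Real.pi := by
    have h1 := Real.arcsin_lt_pi_div_two.2 hp2
    have h2 := Real.neg_pi_div_two_lt_arcsin.2 hq1
    linarith
  have hab2 : -Real.pi < Real.arcsin p - Real.arcsin q := by
    have h1 := Real.arcsin_lt_pi_div_two.2 hq2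
    have h2 := Real.neg_pi_div_two_lt_arcsin.2 hp1
    linarith
  have hdiff : inner ℝ (c • Y' - d • X') (c • Y' - d • X') = c ^ 2 * B + d ^ 2 * A - 2 * (c * d) * r := by
    simp only [inner_sub_left, inner_sub_right, real_inner_smul_left, real_inner_smul_right]
    rw [real_inner_comm X' Y', ← hr, ← hA, ← hB]
    ring
  have hkey : (u * w) ^ 2 - (c * d + r) ^ 2 =
      inner ℝ (c • Y' - d • X') (c • Y' - d • X') + (A * B - r ^ 2) := by
    rw [hdiff, mul_pow, husq, hwsq]; ring
  have harg : c * d + inner ℝ X Y = c * d + r + p * q := by rw [nXY]; ring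
  rw [harg]
  constructor
  · rintro ⟨t, ht, h⟩
    have h1 : d • X - c • Y = (c * d * t) • θ := by
      have h2 := congrArg (fun z => (c * d) • z) h
      simp only [smul_sub, smul_smul] at h2
      rw [show c * d * c⁻¹ = d by field_simp, show c * d * d⁻¹ = c by field_simp] at h2
      exact h2
    have h3 : d * p - c * q = c * d * t := by
      have h4 := congrArg (fun z => inner ℝ z θ) h1
      simp only [inner_sub_left, real_inner_smul_left, hθθ, ← hp, ← hq, mul_one] at h4
      exact h4
    have h5 : c • Y' = d • X' := by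
      have h6 : d • X - c • Y - (d * p - c * q) • θ = 0 := by rw [h3, h1, sub_self]
      rw [hX', hY', smul_sub, smul_sub, smul_smul, smul_smul]
      rw [sub_smul] at h6
      have h7 : d • X - (d * p) • θ - (c • Y - (c * q) • θ) = 0 := by
        rw [← h6]; abel
      exact (sub_eq_zero.1 h7).symm
    have h8 : c * r = d * A := by
      have h9 := congrArg (fun z => inner ℝ X' z) h5
      simp only [real_inner_smul_right] at h9
      exact h9
    have h10 : c * B = d * r := by
      have h9 := congrArg (fun z => inner ℝ z Y') h5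
      simp only [real_inner_smul_left] at h9
      exact h9
    have hr0 : 0 ≤ r := by
      have : 0 ≤ c * r := by rw [h8]; positivity
      exact (mul_nonneg_iff_of_pos_left hc).1 this
    have h11 : (u * w) ^ 2 = (c * d + r) ^ 2 := by
      have h12 : A * B - r ^ 2 = 0 := by
        have : c * d * (A * B - r ^ 2) = 0 := by
          have e1 : c * d * (A * B) = (d * A) * (c * B) := by ring
          rw [mul_sub, e1, h10, ← h8]; ring
        rcases mul_eq_zero.1 this with h | h
        · exact absurd h (by positivity)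
        · exact h
      have h13 : c • Y' - d • X' = 0 := sub_eq_zero.2 h5
      rw [h13, inner_zero_left, h12] at hkey
      linarith
    have h14 : u * w = c * d + r := by
      have := (sq_eq_sq₀ (by positivity : (0:ℝ) ≤ u * w) (by positivity : (0:ℝ) ≤ c * d + r)).1 h11
      exact this
    have h15 : c * w = d * u := by
      have h16 : (c * w) ^ 2 = (d * u) ^ 2 := by
        rw [mul_pow, mul_pow, husq, hwsq]
        have e : c ^ 2 * B = d ^ 2 * A := by
          calc c ^ 2 * B = c * (c * B) := by ring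
            _ = d * (c * r) := by rw [h10]; ring
            _ = d ^ 2 * A := by rw [h8]; ring
        rw [mul_add, mul_add, e]; ring
      exact (sq_eq_sq₀ (by positivity) (by positivity)).1 h16
    have h17 : 0 ≤ Real.sin (Real.arcsin p - Real.arcsin q) := by
      rw [hsin]
      have h18 : c * (p * w - u * q) = u * (c * d * t) := by
        rw [← h3]
        calc c * (p * w - u * q) = p * (c * w) - c * u * q := by ring
          _ = u * (d * p - c * q) := by rw [h15]; ring
      have h19 : 0 ≤ c * (p * w - u * q) := by rw [h18]; positivity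
      exact (mul_nonneg_iff_of_pos_left hc).1 h19
    have h20 : 0 ≤ Real.arcsin p - Real.arcsin q := by
      by_contra hneg
      have := Real.sin_neg_of_neg_of_neg_pi_lt (lt_of_not_ge hneg) hab2
      linarith
    rw [← h14, ← hcos, Real.arccos_cos h20 hab1.le]
  · intro h
    have h0 : 0 ≤ Real.arcsin p - Real.arcsin q := by rw [h]; exact Real.arccos_nonneg _
    have hsin0 : 0 ≤ Real.sin (Real.arcsin p - Real.arcsin q) :=
      Real.sin_nonneg_of_nonneg_of_le_pi h0 hab1.le
    -- the argument lies in `[-1, 1]`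
    have hrle : c * d + r ≤ u * w := by
      have h1 : (c * d + r) ^ 2 ≤ (u * w) ^ 2 := by
        have : 0 ≤ inner ℝ (c • Y' - d • X') (c • Y' - d • X') := real_inner_self_nonneg
        linarith
      exact abs_le_of_sq_le_sq' h1 (by positivity) |>.2
    have hle1 : c * d + r + p * q ≤ 1 := by
      have := Real.cos_le_one (Real.arcsin p - Real.arcsin q)
      rw [hcos] at this
      linarith
    have hge1 : -1 ≤ c * d + r + p * q := by
      rw [← harg]
      have h1 := abs_le.1 (abs_real_inner_le_norm X Y)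
      have h2 : ‖X‖ * ‖Y‖ ≤ 1 := by nlinarith [norm_nonneg X, norm_nonneg Y]
      have h3 : 0 < c * d := by positivity
      linarith [h1.1]
    have hcos2 := congrArg Real.cos h
    rw [Real.cos_arccos hge1 hle1, hcos] at hcos2
    have h14 : u * w = c * d + r := by linarith
    rw [h14, sub_self] at hkey
    have hn0 : 0 ≤ inner ℝ (c • Y' - d • X') (c • Y' - d • X') := real_inner_self_nonneg
    have hn1 : inner ℝ (c • Y' - d • X') (c • Y' - d • X') = (0 : ℝ) := by linarith
    have h5 : c • Y' = d • X' := sub_eq_zero.1 (inner_self_eq_zero.1 hn1)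
    have h8 : c * r = d * A := by
      have h9 := congrArg (fun z => inner ℝ X' z) h5
      simp only [real_inner_smul_right] at h9
      exact h9
    have h10 : c * B = d * r := by
      have h9 := congrArg (fun z => inner ℝ z Y') h5
      simp only [real_inner_smul_left] at h9
      exact h9
    have h15 : c * w = d * u := by
      have h16 : (c * w) ^ 2 = (d * u) ^ 2 := by
        rw [mul_pow, mul_pow, husq, hwsq]
        have e : c ^ 2 * B = d ^ 2 * A := by
          calc c ^ 2 * B = c * (c * B) := by ring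
            _ = d * (c * r) := by rw [h10]; ring
            _ = d ^ 2 * A := by rw [h8]; ring
        rw [mul_add, mul_add, e]; ring
      exact (sq_eq_sq₀ (by positivity) (by positivity)).1 h16
    have h19 : 0 ≤ d * p - c * q := by
      have h18 : c * (p * w - u * q) = u * (d * p - c * q) := by
        calc c * (p * w - u * q) = p * (c * w) - c * u * q := by ring
          _ = u * (d * p - c * q) := by rw [h15]; ring
      have h20 : 0 ≤ u * (d * p - c * q) := by
        rw [← h18, ← hsin]; positivity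
      exact (mul_nonneg_iff_of_pos_left hu).1 h20
    refine ⟨c⁻¹ * p - d⁻¹ * q, ?_, ?_⟩
    · have : c⁻¹ * p - d⁻¹ * q = (c * d)⁻¹ * (d * p - c * q) := by field_simp
      rw [this]; positivity
    · have e1 : d⁻¹ • Y' = c⁻¹ • X' := by
        have := congrArg (fun z => (c⁻¹ * d⁻¹) • z) h5
        simp only [smul_smul] at this
        rw [show c⁻¹ * d⁻¹ * c = d⁻¹ by field_simp, show c⁻¹ * d⁻¹ * d = c⁻¹ by field_simp] at this
        exact this
      rw [hX', hY', smul_sub, smul_sub, smul_smul, smul_smul] at e1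
      rw [sub_smul]
      have e2 : c⁻¹ • X - (c⁻¹ * p) • θ - (d⁻¹ • Y - (d⁻¹ * q) • θ) = 0 := by rw [e1, sub_self]
      have e3 : c⁻¹ • X - d⁻¹ • Y - ((c⁻¹ * p) • θ - (d⁻¹ * q) • θ) = 0 := by rw [← e2]; abel
      exact sub_eq_zero.1 e3

theorem main : S_SPA := by
  intro n X Y θ hX hY
  have hθ : ‖(θ : E n)‖ = 1 := by simp
  have h := spa0 X Y (θ : E n) hθ hX hY
  unfold gn hdist
  exact h

end Pool.Agent.H780.RG.SPA
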