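import Pool.Agent.H780.RG.StmB

/-!
# Project RG (helper780): points between two points of the sphere (`S_SPB`), by helper790
-/

set_option autoImplicit false

open MeasureTheory Metric Set Filter Topology InnerProductGeometry

namespace Pool.Agent.H780.RG.SPB

open Pool.Agent.H241R3.FV Pool.Agent.N526.CP
open scoped NNReal

/-- the point of the hemisphere over `X` -/
noncomputable def P {n : ℕ} (X : E n) : WithLp 2 (E n × ℝ) := WithLp.toLp 2 (X, √(1 - ‖X‖ ^ 2))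

lemma inner_P {n : ℕ} (X Y : E n) : inner ℝ (P X) (P Y) = √(1 - ‖X‖ ^ 2) * √(1 - ‖Y‖ ^ 2) + inner ℝ X Y := by
  simp only [P, WithLp.prod_inner_apply]
  simp
  ring

lemma norm_P {n : ℕ} {X : E n} (hX : ‖X‖ < 1) : ‖P X‖ = 1 := by
  have h1 : ‖P X‖ ^ 2 = 1 := by
    rw [← real_inner_self_eq_norm_sq, inner_P, real_inner_self_eq_norm_sq,
      Real.mul_self_sqrt (by nlinarith [norm_nonneg X])]
    ring
  have h2 := norm_nonneg (P X)
  nlinarith

lemma hdist_eq {n : ℕ} {X Y : E n} (hX : ‖X‖ < 1) (hY : ‖Y‖ < 1) : hdist X Y = angle (P X) (P Y) := by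
  unfold angle hdist
  rw [norm_P hX, norm_P hY, inner_P]
  simp

lemma P_inj {n : ℕ} {X Y : E n} (h : P X = P Y) : X = Y := congrArg (fun z => (WithLp.ofLp z).1) h

lemma sqrt_pos' {n : ℕ} {X : E n} (hX : ‖X‖ < 1) : 0 < √(1 - ‖X‖ ^ 2) :=
  Real.sqrt_pos.2 (by nlinarith [norm_nonneg X])

lemma lt_pi {n : ℕ} {X Y : E n} (hX : ‖X‖ < 1) (hY : ‖Y‖ < 1) : hdist X Y < Real.pi := by
  have h1 : -1 < √(1 - ‖X‖ ^ 2) * √(1 - ‖Y‖ ^ 2) + inner ℝ X Y := by
    have h2 := mul_pos (sqrt_pos' hX) (sqrt_pos' hY)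
    have h3 := neg_le_of_abs_le (abs_real_inner_le_norm X Y)
    have h4 : ‖X‖ * ‖Y‖ ≤ 1 := mul_le_one₀ hX.le (norm_nonneg Y) hY.le
    linarith
  unfold hdist
  refine lt_of_le_of_ne (Real.arccos_le_pi _) fun h => ?_
  rw [Real.arccos_eq_pi] at h
  linarith

lemma mem_cone {n : ℕ} {X Y Z : E n} (hX : ‖X‖ < 1) (hY : ‖Y‖ < 1) (hZ : ‖Z‖ < 1)
    (h : gn Z ∈ segment ℝ (gn X) (gn Y)) : P Z ∈ Submodule.span ℝ≥0 {P X, P Y} := by
  obtain ⟨a, b, ha, hb, hab, he⟩ := h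
  have hsX := sqrt_pos' hX
  have hsY := sqrt_pos' hY
  have hsZ := sqrt_pos' hZ
  rw [Submodule.mem_span_pair]
  refine ⟨Real.toNNReal (√(1 - ‖Z‖ ^ 2) * a * (√(1 - ‖X‖ ^ 2))⁻¹),
    Real.toNNReal (√(1 - ‖Z‖ ^ 2) * b * (√(1 - ‖Y‖ ^ 2))⁻¹), ?_⟩
  rw [NNReal.smul_def, NNReal.smul_def, Real.coe_toNNReal _ (by positivity),
    Real.coe_toNNReal _ (by positivity)]
  apply (WithLp.equiv 2 (E n × ℝ)).injective
  apply Prod.ext
  · change (√(1 - ‖Z‖ ^ 2) * a * (√(1 - ‖X‖ ^ 2))⁻¹) • X + (√(1 - ‖Z‖ ^ 2) * b * (√(1 - ‖Y‖ ^ 2))⁻¹) • Y = Z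
    have h1 : √(1 - ‖Z‖ ^ 2) • (a • gn X + b • gn Y) = Z := by
      rw [he, gn, smul_smul, mul_inv_cancel₀ hsZ.ne', one_smul]
    refine Eq.trans ?_ h1
    unfold gn
    rw [smul_add, smul_smul, smul_smul, smul_smul, smul_smul]
  · change (√(1 - ‖Z‖ ^ 2) * a * (√(1 - ‖X‖ ^ 2))⁻¹) * √(1 - ‖X‖ ^ 2) +
      (√(1 - ‖Z‖ ^ 2) * b * (√(1 - ‖Y‖ ^ 2))⁻¹) * √(1 - ‖Y‖ ^ 2) = √(1 - ‖Z‖ ^ 2)
    rw [inv_mul_cancel_right₀ hsX.ne', inv_mul_cancel_right₀ hsY.ne', ← mul_add, hab, mul_one]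

/-- equality in the triangle inequality for unit vectors -/
lemma expr {V : Type} [NormedAddCommGroup V] [InnerProductSpace ℝ V] {u v w : V} (hu : ‖u‖ = 1) (hv : ‖v‖ = 1)
    (hw : ‖w‖ = 1) (h : angle u w + angle w v = angle u v) :
    Real.sin (angle u v) • w = Real.sin (angle w v) • u + Real.sin (angle u w) • v := by
  obtain ⟨a, ha⟩ : ∃ a, a = angle u w := ⟨_, rfl⟩
  obtain ⟨b, hb⟩ : ∃ b, b = angle w v := ⟨_, rfl⟩
  have i1 : inner ℝ w u = Real.cos a := by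
    rw [ha, real_inner_comm, ← InnerProductGeometry.inner_eq_cos_angle_of_norm_eq_one hu hw]
  have i2 : inner ℝ w v = Real.cos b := by
    rw [hb, ← InnerProductGeometry.inner_eq_cos_angle_of_norm_eq_one hw hv]
  have i3 : inner ℝ u v = Real.cos (a + b) := by
    rw [ha, hb, h, ← InnerProductGeometry.inner_eq_cos_angle_of_norm_eq_one hu hv]
  have u1 : inner ℝ u u = (1 : ℝ) := by rw [real_inner_self_eq_norm_sq, hu, one_pow]
  have v1 : inner ℝ v v = (1 : ℝ) := by rw [real_inner_self_eq_norm_sq, hv, one_pow]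
  have w1 : inner ℝ w w = (1 : ℝ) := by rw [real_inner_self_eq_norm_sq, hw, one_pow]
  have j1 : inner ℝ u w = Real.cos a := by rw [real_inner_comm]; exact i1
  have j2 : inner ℝ v w = Real.cos b := by rw [real_inner_comm]; exact i2
  have j3 : inner ℝ v u = Real.cos (a + b) := by rw [real_inner_comm]; exact i3
  rw [← h, ← ha, ← hb, ← sub_eq_zero, ← norm_eq_zero, ← sq_eq_zero_iff, ← real_inner_self_eq_norm_sq]
  simp only [inner_sub_left, inner_sub_right, inner_add_left, inner_add_right, real_inner_smul_left,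
    real_inner_smul_right, u1, v1, w1, i1, i2, i3, j1, j2, j3]
  rw [Real.sin_add, Real.cos_add]
  have e1 : Real.cos a ^ 2 = 1 - Real.sin a ^ 2 := by have := Real.sin_sq_add_cos_sq a; linarith
  have e2 : Real.cos b ^ 2 = 1 - Real.sin b ^ 2 := by have := Real.sin_sq_add_cos_sq b; linarith
  ring_nf
  rw [e1, e2]
  ring

theorem main (hC : S_SPC) : S_SPB := by
  intro n X Y Z hX hY hZ hseg
  obtain ⟨c1, c2, c3, -⟩ := hC n
  have hz : P Z ≠ 0 := by
    intro h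
    have := norm_P hZ
    rw [h, norm_zero] at this
    exact one_ne_zero this.symm
  have hadd : hdist X Z + hdist Z Y = hdist X Y := by
    rw [hdist_eq hX hZ, hdist_eq hZ hY, hdist_eq hX hY]
    exact (angle_eq_angle_add_add_angle_add_of_mem_span hz (mem_cone hX hY hZ hseg)).symm
  refine ⟨hadd, fun W hW h1 h2 => ?_⟩
  have h3 := c3 X Y W hX hY hW
  have h4 : hdist X W = hdist X Z := by linarith
  have h5 : hdist W Y = hdist Z Y := by linarith
  have h6 : hdist X W + hdist W Y = hdist X Y := by linarith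
  rw [hdist_eq hX hW, hdist_eq hW hY, hdist_eq hX hY] at h6
  have h7 := expr (norm_P hX) (norm_P hY) (norm_P hW) h6
  have h8 := hadd
  rw [hdist_eq hX hZ, hdist_eq hZ hY, hdist_eq hX hY] at h8
  have h9 := expr (norm_P hX) (norm_P hY) (norm_P hZ) h8
  rw [hdist_eq hX hW, hdist_eq hX hZ] at h4
  rw [hdist_eq hW hY, hdist_eq hZ hY] at h5
  rw [h4, h5, ← h9] at h7
  have h10 : 0 ≤ hdist X Y := Real.arccos_nonneg _
  rcases h10.eq_or_lt with h11 | h11
  · have p1 : 0 ≤ hdist X Z := Real.arccos_nonneg _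
    have p2 : 0 ≤ hdist Z Y := Real.arccos_nonneg _
    have p3 : hdist X Z = 0 := by linarith
    have p4 : hdist X W = 0 := le_antisymm (by linarith) (Real.arccos_nonneg _)
    rw [← (c1 X Z hX hZ).1 p3, ← (c1 X W hX hW).1 p4]
  · have p1 : 0 < Real.sin (hdist X Y) := Real.sin_pos_of_pos_of_lt_pi h11 (lt_pi hX hY)
    rw [hdist_eq hX hY] at p1
    exact P_inj (smul_right_injective _ p1.ne' h7)

end Pool.Agent.H780.RG.SPB
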