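import Pool.Agent.H780.RG.StmB

/-!
# Project RG, task SPC: `hdist` is a metric, `gn` is a homeomorphism
-/

set_option autoImplicit false

open MeasureTheory Metric Set Filter Topology InnerProductGeometry

namespace Pool.Agent.H780.RG.SPC

open Pool.Agent.H241R3.FV Pool.Agent.N526.CP Pool.Agent.H780.RG

variable {n : ℕ}

/-- the point of the sphere -/
noncomputable def P (X : E n) : WithLp 2 (E n × ℝ) := WithLp.toLp 2 (X, √(1 - ‖X‖ ^ 2))

theorem hin (X Y : E n) : inner ℝ (P X) (P Y) =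
    √(1 - ‖X‖ ^ 2) * √(1 - ‖Y‖ ^ 2) + inner ℝ X Y := by
  unfold P
  rw [WithLp.prod_inner_apply]
  simp only
  rw [show inner ℝ (√(1 - ‖X‖ ^ 2)) (√(1 - ‖Y‖ ^ 2)) = √(1 - ‖Y‖ ^ 2) * √(1 - ‖X‖ ^ 2) from rfl]
  ring

theorem hP {X : E n} (hX : ‖X‖ ≤ 1) : ‖P X‖ = 1 := by
  have h0 : 0 ≤ 1 - ‖X‖ ^ 2 := by nlinarith [norm_nonneg X]
  have h1 : ‖P X‖ ^ 2 = 1 := by
    rw [← real_inner_self_eq_norm_sq, hin, Real.mul_self_sqrt h0, real_inner_self_eq_norm_sq]
    ring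
  have h2 := norm_nonneg (P X)
  nlinarith

theorem hdist_eq {X Y : E n} (hX : ‖X‖ ≤ 1) (hY : ‖Y‖ ≤ 1) : angle (P X) (P Y) = hdist X Y := by
  unfold angle hdist
  rw [hP hX, hP hY, hin]
  norm_num

theorem main : S_SPC := by
  intro n
  refine ⟨fun X Y hX hY => ?_, fun X Y => ?_, fun X Y Z hX hY hZ => ?_, ?_, fun Y => ?_,
    fun X hX => ?_, ?_, ?_⟩
  · constructor
    · intro h
      rw [← hdist_eq hX.le hY.le, angle_eq_zero_iff] at h
      obtain ⟨-, r, hr, h2⟩ := h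
      have h3 : ‖P Y‖ = r * ‖P X‖ := by rw [h2, norm_smul, Real.norm_of_nonneg hr.le]
      rw [hP hX.le, hP hY.le] at h3
      have h4 : P Y = P X := by
        rw [h2, show r = 1 by linarith, one_smul]
      have h5 := congrArg (fun p : WithLp 2 (E n × ℝ) => p.fst) h4
      exact h5.symm
    · rintro rfl
      rw [← hdist_eq hX.le hX.le]
      apply angle_self
      intro h0
      have := hP hX.le
      rw [h0, norm_zero] at this
      exact zero_ne_one this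
  · unfold hdist
    rw [real_inner_comm, mul_comm]
  · rw [← hdist_eq hX.le hY.le, ← hdist_eq hX.le hZ.le, ← hdist_eq hZ.le hY.le]
    exact angle_le_angle_add_angle _ _ _
  · unfold hdist
    fun_prop
  · have h0 : 0 < 1 + ‖Y‖ ^ 2 := by positivity
    have h1 : ‖ig Y‖ ^ 2 = ‖Y‖ ^ 2 / (1 + ‖Y‖ ^ 2) := by
      unfold ig
      rw [norm_smul, norm_inv, Real.norm_of_nonneg (Real.sqrt_nonneg _), mul_pow, inv_pow,
        Real.sq_sqrt h0.le]
      ring
    have h2 : ‖ig Y‖ ^ 2 < 1 := by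
      rw [h1, div_lt_one h0]
      linarith
    have h3 : ‖ig Y‖ < 1 := by
      have := norm_nonneg (ig Y)
      nlinarith
    refine ⟨h3, ?_⟩
    have h4 : 1 - ‖ig Y‖ ^ 2 = (1 + ‖Y‖ ^ 2)⁻¹ := by
      rw [h1]
      field_simp
      ring
    unfold gn
    rw [h4, Real.sqrt_inv, inv_inv]
    unfold ig
    rw [smul_smul, mul_inv_cancel₀ (Real.sqrt_pos.2 h0).ne', one_smul]
  · have h0 : 0 < 1 - ‖X‖ ^ 2 := by nlinarith [norm_nonneg X]
    have h1 : ‖gn X‖ ^ 2 = ‖X‖ ^ 2 / (1 - ‖X‖ ^ 2) := by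
      unfold gn
      rw [norm_smul, norm_inv, Real.norm_of_nonneg (Real.sqrt_nonneg _), mul_pow, inv_pow,
        Real.sq_sqrt h0.le]
      ring
    have h4 : 1 + ‖gn X‖ ^ 2 = (1 - ‖X‖ ^ 2)⁻¹ := by
      rw [h1]
      field_simp
      ring
    unfold ig
    rw [h4, Real.sqrt_inv, inv_inv]
    unfold gn
    rw [smul_smul, mul_inv_cancel₀ (Real.sqrt_pos.2 h0).ne', one_smul]
  · have h1 : ContinuousOn (fun X : E n => √(1 - ‖X‖ ^ 2)) (ball 0 1) := by fun_prop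
    have h2 : ∀ X ∈ ball (0 : E n) 1, √(1 - ‖X‖ ^ 2) ≠ 0 := by
      intro X hX
      have hX' : ‖X‖ < 1 := by simpa using hX
      exact (Real.sqrt_pos.2 (by nlinarith [norm_nonneg X])).ne'
    exact (h1.inv₀ h2).smul continuousOn_id
  · have h1 : Continuous (fun X : E n => √(1 + ‖X‖ ^ 2)) := by fun_prop
    have h2 : ∀ X : E n, √(1 + ‖X‖ ^ 2) ≠ 0 := fun X => (Real.sqrt_pos.2 (by positivity)).ne'
    exact (h1.inv₀ h2).smul continuous_id

end Pool.Agent.H780.RG.SPC
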