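import Pool.Agent.H780.RG.StmC
import Pool.Graph.R_seed8.H241R3.FV.TLoc

/-!
# Project RG (helper780): UNIV (helper441)
-/

set_option autoImplicit false

open MeasureTheory Metric Set Filter Topology InnerProductGeometry

namespace Pool.Agent.H780.RG.UNIV

open Pool.Agent.H241R3.FV Pool.Agent.N526.CP Pool.Agent.H780.RG

/-- a proper metric space with intermediate points is connected -/
lemma clopen_eq_univ {M : Type} [MetricSpace M] [ProperSpace M] (hG : Geod M) (S : Set M)
    (hc : IsClosed S) (ho : IsOpen S) (hne : S.Nonempty) : S = univ := by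
  obtain ⟨q, hq⟩ := hne
  refine eq_univ_of_forall fun q' => ?_
  by_contra hq'
  set T : Set M := S ∩ {m | dist q m + dist m q' = dist q q'} with hT
  have hTc : IsClosed T := hc.inter (isClosed_eq (by fun_prop) (by fun_prop))
  have hTb : T ⊆ closedBall q (dist q q') := by
    intro m hm
    have h1 : dist q m + dist m q' = dist q q' := hm.2
    have h2 : 0 ≤ dist m q' := dist_nonneg
    rw [mem_closedBall, dist_comm]
    linarith
  have hTk : IsCompact T := (isCompact_closedBall q (dist q q')).of_isClosed_subset hTc hTb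
  have hTn : T.Nonempty := ⟨q, hq, by simp⟩
  obtain ⟨m, hm, hmax⟩ := hTk.exists_isMaxOn hTn (f := fun m => dist q m) (by fun_prop)
  have hm1 : dist q m + dist m q' = dist q q' := hm.2
  have hne : m ≠ q' := fun h => hq' (h ▸ hm.1)
  have hpos : 0 < dist m q' := dist_pos.2 hne
  obtain ⟨ε, hε, hball⟩ := Metric.isOpen_iff.1 ho m hm.1
  set s : ℝ := min (ε / 2) (dist m q') with hs
  have hs0 : 0 < s := lt_min (by linarith) hpos
  have hs1 : s ≤ ε / 2 := min_le_left _ _
  have hs2 : s ≤ dist m q' := min_le_right _ _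
  obtain ⟨m', h1, h2⟩ := hG m q' s hs0.le hs2
  have h3 : m' ∈ S := hball (by rw [mem_ball, dist_comm, h1]; linarith)
  have h4 : dist q m' ≤ dist q m + dist m m' := dist_triangle _ _ _
  have h5 : dist q q' ≤ dist q m' + dist m' q' := dist_triangle _ _ _
  have h6 : dist q m' = dist q m + s := by linarith
  have h7 : m' ∈ T := ⟨h3, by
    change dist q m' + dist m' q' = dist q q'
    linarith⟩
  have h8 : dist q m' ≤ dist q m := hmax h7
  linarith

/-- the punctured ball is connected -/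
lemma punct {n : ℕ} (hn : 2 ≤ n) (p : E n) (e : ℝ) : IsPreconnected (ball p e \ {p}) := by
  have hr : 1 < Module.rank ℝ (E n) := by
    rw [← Module.finrank_eq_rank, finrank_euclideanSpace_fin]
    exact_mod_cast hn
  have h1 : IsPreconnected (Ioo (0 : ℝ) e ×ˢ sphere (0 : E n) 1) :=
    isPreconnected_Ioo.prod (isPreconnected_sphere hr 0 1)
  have h2 := h1.image (fun z : ℝ × E n => p + z.1 • z.2) (by fun_prop)
  have h3 : (fun z : ℝ × E n => p + z.1 • z.2) '' (Ioo (0 : ℝ) e ×ˢ sphere (0 : E n) 1) =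
      ball p e \ {p} := by
    ext y
    constructor
    · rintro ⟨⟨t, u⟩, ⟨⟨ht0, ht1⟩, hu⟩, rfl⟩
      have hu1 : ‖u‖ = 1 := by simpa using hu
      have ht0' : 0 < t := ht0
      have ht1' : t < e := ht1
      refine ⟨?_, ?_⟩
      · rw [mem_ball, dist_eq_norm]
        simp only [add_sub_cancel_left, norm_smul, hu1, mul_one, Real.norm_eq_abs,
          abs_of_pos ht0']
        exact ht1'
      · intro h
        have h' : p + t • u = p := h
        have h'' : t • u = 0 := by simpa using h'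
        rcases smul_eq_zero.1 h'' with h | h
        · exact ht0'.ne' h
        · rw [h] at hu1
          simp at hu1
    · rintro ⟨hy, hyp⟩
      have hyp' : y ≠ p := hyp
      have hn0 : 0 < ‖y - p‖ := norm_pos_iff.2 (sub_ne_zero.2 hyp')
      refine ⟨(‖y - p‖, ‖y - p‖⁻¹ • (y - p)), ⟨⟨hn0, ?_⟩, ?_⟩, ?_⟩
      · have := mem_ball.1 hy
        rwa [dist_eq_norm] at this
      · simp only [mem_sphere, dist_zero_right, norm_smul, norm_inv, norm_norm]
        exact inv_mul_cancel₀ hn0.ne'
      · simp only [smul_smul, mul_inv_cancel₀ hn0.ne', one_smul]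
        abel
  rw [← h3]
  exact h2

lemma chart_cont {n : ℕ} {M : Type} [MetricSpace M] (C : RChart n M) : ContinuousOn C.map C.U := by
  intro p hp
  refine ContinuousAt.continuousWithinAt ?_
  obtain ⟨r, hr, hU, hr2⟩ := Pool.Agent.H241R3.FV.TLoc.taskLoc n M C p hp 1 one_pos
  have hg : Continuous fun y : E n => gnorm (C.G p) (y - p) + 1 * ‖y - p‖ := by
    unfold gnorm
    fun_prop
  have hg0 : gnorm (C.G p) (p - p) + 1 * ‖p - p‖ = 0 := by
    unfold gnorm
    simp
  have ht : Tendsto (fun y : E n => gnorm (C.G p) (y - p) + 1 * ‖y - p‖) (𝓝 p) (𝓝 0) := by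
    have := hg.tendsto p
    rwa [hg0] at this
  refine tendsto_iff_dist_tendsto_zero.2 ?_
  refine squeeze_zero' (Eventually.of_forall fun y => dist_nonneg) ?_ ht
  filter_upwards [ball_mem_nhds p hr] with y hy
  exact hr2 y hy p (mem_ball_self hr)

theorem main : S_UNIV := by
  intro n hn M _ _ hG ι C hinj hopen A K hA hAn hAK hK hKA hcl hman
  have hKc : IsClosed K := hK.isClosed
  refine clopen_eq_univ hG K hKc ?_ (hAn.mono hAK)
  rw [isOpen_iff_mem_nhds]
  intro c hc
  by_cases hcA : c ∈ A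
  · exact mem_of_superset (hA.mem_nhds hcA) hAK
  obtain ⟨i, p, hp, hpc⟩ := hman c hcA
  obtain ⟨e, he, hball⟩ := Metric.isOpen_iff.1 (C i).isOpen_U p hp
  have hW : IsOpen ((C i).map '' ball p e) := hopen i _ hball isOpen_ball
  have hcW : c ∈ (C i).map '' ball p e := ⟨p, mem_ball_self he, hpc⟩
  have hpre : IsPreconnected ((C i).map '' (ball p e \ {p})) :=
    (punct hn p e).image _ ((chart_cont (C i)).mono (sdiff_subset.trans hball))
  have hKeq : ∀ q ∈ K, q ∉ A → q = c := fun q hq hqA => hKA ⟨hq, hqA⟩ ⟨hc, hcA⟩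
  have hnc : c ∉ (C i).map '' (ball p e \ {p}) := by
    rintro ⟨y, ⟨hy, hyp⟩, hyc⟩
    exact hyp (hinj i (hball hy) hp (hyc.trans hpc.symm))
  have hcov : (C i).map '' (ball p e \ {p}) ⊆ A ∪ Kᶜ := by
    intro q hq
    by_cases hqA : q ∈ A
    · exact Or.inl hqA
    · right
      intro hqK
      exact hnc (hKeq q hqK hqA ▸ hq)
  have hmeet : ((C i).map '' (ball p e \ {p}) ∩ A).Nonempty := by
    obtain ⟨q, hqW, hqA⟩ := mem_closure_iff.1 (hcl hc) _ hW hcW
    obtain ⟨y, hy, hyq⟩ := hqW
    refine ⟨q, ⟨y, ⟨hy, ?_⟩, hyq⟩, hqA⟩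
    intro hyp
    have hyp' : y = p := hyp
    rw [hyp', hpc] at hyq
    exact hcA (hyq ▸ hqA)
  have hdis : Disjoint A Kᶜ := disjoint_compl_right.mono_left hAK
  have hsub : (C i).map '' (ball p e \ {p}) ⊆ A :=
    hpre.subset_left_of_subset_union hA hKc.isOpen_compl hdis hcov hmeet
  refine mem_of_superset (hW.mem_nhds hcW) ?_
  rintro q ⟨y, hy, rfl⟩
  by_cases hyp : y = p
  · rw [hyp, hpc]
    exact hc
  · exact hAK (hsub ⟨y, ⟨hy, hyp⟩, rfl⟩)

end Pool.Agent.H780.RG.UNIV
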