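import Pool.Agent.H780.RG.Inj
import Pool.Agent.H780.RG.Exti
import Pool.Agent.H780.RG.SCAE
import Pool.Agent.H780.RG.HADE
import Pool.Agent.H780.RG.KEQ
import Pool.Agent.H780.RG.ABSE
import Pool.Agent.H780.RG.COME
import Pool.Agent.H780.RG.COMBE
import Pool.Agent.H780.RG.SPA
import Pool.Agent.H780.RG.SPB
import Pool.Agent.H780.RG.SPC
import Pool.Agent.H780.RG.CVX
import Pool.Agent.H780.RG.PATH
import Pool.Agent.H780.RG.LC
import Pool.Agent.H780.RG.NULT
import Pool.Agent.H780.RG.AREA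
import Pool.Agent.H780.RG.ISOA
import Pool.Agent.H780.RG.ISOB
import Pool.Agent.H780.RG.UNIV

/-!
# Rigidity of convex regions: assembly
-/

set_option autoImplicit false

open MeasureTheory Metric Set Filter Topology InnerProductGeometry Matrix

namespace Pool.Agent.H780.RG.Fin

open Pool.Agent.H241R3.FV Pool.Agent.N526.CP Pool.Agent.N979.CP Pool.Agent.H780.NV
open Pool.Agent.H780.RG.EQV Pool.Agent.H780.RG.IDENT

theorem combe : S_COMBE := COMBE.main (COME.main (ABSE.main (KEQ.main Pool.Agent.N7.CP_HAD.main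
  SCAE.main (HADE.main Pool.Agent.N7.CP_HAD.main) Pool.Agent.N56.CP_SCA.main))
  Pool.Agent.N979.CP.Fin.detv Pool.Agent.N979.CP.Fin.gram Pool.Agent.N979.CP.Fin.lz
  Pool.Agent.N979.CP.Fin.eig2 Pool.Agent.N979.CP.Fin.sph)

theorem isoa : S_ISOA := ISOA.main SPA.main (SPB.main SPC.main) SPC.main CVX.main

theorem isob : S_ISOB := ISOB.main SPC.main

/-- the rigidity theorem, `n = d + 1 ≥ 3` -/
theorem rigid {d : ℕ} (hd : 2 ≤ d) (hRIGI : S_RIGI) {s : ℝ} (hGood : Good2 d s) {M : Type}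
    [MetricSpace M] [ProperSpace M] (hgeo : Geod M)
    {bd : Sph (d + 1) → M} {r : Sph (d + 1) → ℝ} (S : NFill (d + 1) M bd (near bd r))
    {B : ℝ} (hr : ∀ x, r x ≤ B)
    (F : E (d + 1) → E (d + 1)) (L : NNReal) (hFL : LipschitzOnWith L F (closedBall 0 1))
    (hFs : ∀ y ∈ closedBall (0 : E (d + 1)) 1, ‖F y‖ ≤ s)
    (hbd : ∀ x y : Sph (d + 1), hdist (F x) (F y) ≤ dist (bd x) (bd y))
    (hFh : ∀ x : Sph (d + 1), Real.arcsin ‖F x‖ ≤ r x) (hF : CReg F)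
    (hdet : ∀ᵐ y ∂(volume.restrict (ball (0 : E (d + 1)) 1)), 0 ≤ (fderiv ℝ F y).det)
    (hV : S.vol ≤ ENNReal.ofReal (∫ x in F '' ball 0 1, (√(1 - ‖x‖ ^ 2))⁻¹)) :
    ∃ Φ : E (d + 1) → M, (∀ y ∈ F '' closedBall 0 1, ∀ z ∈ F '' closedBall 0 1,
        dist (Φ y) (Φ z) = hdist y z) ∧ (∀ x : Sph (d + 1), Φ (F x) = bd x) ∧
      near bd r ⊆ Φ '' (F '' closedBall 0 1) ∧
      Φ '' (F '' closedBall 0 1 \ {0}) ⊆ near bd r := by
  have hd1 : 1 ≤ d := by omega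
  have hs0 : 0 < s := hGood.1
  have hs1 : s < 1 := hGood.2.1
  have hbc := bd_cont S
  have hh : Hgt (near bd r) (hgt bd r) := isHgt hr (isCompact_range hbc).isBounded
  have hFx : ∀ x : Sph (d + 1), ‖F x‖ ≤ s := fun x => hFs x (sphere_subset_closedBall x.2)
  have hFh' : ∀ x : Sph (d + 1), Real.arcsin ‖F x‖ ≤ hgt bd r (bd x) := fun x => by
    have := le_hgt (bd := bd) hr (bd x) x
    rw [dist_self, sub_zero] at this
    exact (hFh x).trans this
  obtain ⟨g, hg, hINF⟩ := EXTI.fam_exists' hd1 bd hbc hs0 hs1 F hFL.continuousOn hFx hbd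
    (hgt bd r) hh.nonneg hh.lip hFh'
  -- the volume
  have e : ∫ y in ball (0 : E (d + 1)) 1, (fderiv ℝ F y).det * (√(1 - ‖F y‖ ^ 2))⁻¹ =
      ∫ x in F '' ball 0 1, (√(1 - ‖x‖ ^ 2))⁻¹ :=
    INJF2.t d F L hFL (hF.inj.mono ball_subset_closedBall) hdet
  have hV0 : 0 ≤ ∫ y in ball (0 : E (d + 1)) 1, (fderiv ℝ F y).det * (√(1 - ‖F y‖ ^ 2))⁻¹ := by
    refine integral_nonneg_of_ae ?_
    filter_upwards [hdet] with y hy
    exact mul_nonneg hy (by positivity)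
  have hV1 := hV
  rw [← e] at hV1
  obtain ⟨i1, i2⟩ := ident hd combe PATH.main LC.main NULT.main hGood hgeo S hr F L hFL hFs hg
    hV0 hV1
  obtain ⟨x1, x2, x3⟩ := xf_facts hd1 hs0 hs1 hg hFx
  have hrig : Rig bd {q | 0 < hgt bd r q} F (Xf g) :=
    hRIGI (d + 1) (by omega) M bd (hgt bd r) F g (Xf g) s hs1 x1 hbc hFL.continuousOn
      hg.lip hg.le hINF i2 x3
  have hA : {q | 0 < hgt bd r q} = near bd r := by
    ext q
    exact hh.pos q
  rw [hA] at hrig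
  have hbA : ∀ x, bd x ∈ near bd r := S.bd_mem
  obtain ⟨j1, j2⟩ := isoa (d + 1) (by omega) M hgeo bd (near bd r) F (Xf g) hrig hF hbA
    (INJ.bd_closure S)
  have hlipX : LipschitzWith (Real.toNNReal (d + 1)) (Xf g) := by
    refine LipschitzWith.of_dist_le_mul fun q q' => ?_
    rw [dist_eq_norm, Real.coe_toNNReal _ (by positivity)]
    exact x2 q q'
  have hinj : InjOn (Xf g) (near bd r) :=
    INJ.inj NULT.main (AREA.main UDER.t) isOpen_near S (Xf g) s _ hs1 x1 hlipX i1 F hrig hF hV j2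
  exact isob (d + 1) (by omega) M bd (near bd r) F (Xf g) hrig hF hbA
    (fun q hq => (j1 q hq).1) j2 hinj

end Pool.Agent.H780.RG.Fin
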