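import Pool.Agent.H780.RG.StmC
import Pool.Graph.R_pool_sql_team_seeded_63374d34.N526.CP.EXTF

/-!
# RIGI: the family of functions gives the properties `Rig` (helper630)
-/

set_option autoImplicit false

open MeasureTheory Metric Set Filter Topology InnerProductGeometry

namespace Pool.Agent.H780.RG.RIGI

open Pool.Agent.H241R3.FV Pool.Agent.N526.CP Pool.Agent.H780.RG
open Pool.Agent.N526.CP.EXTF (arcsin_le)

lemma unit_of {n : ℕ} {v : E n} (hv : v ≠ 0) : ‖v‖⁻¹ • v ∈ sphere (0 : E n) 1 := by
  rw [mem_sphere_zero_iff_norm, norm_smul, norm_inv, norm_norm, inv_mul_cancel₀ (norm_ne_zero_iff.2 hv)]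

/-- the sphere has no isolated points -/
lemma perfect {n : ℕ} (hn : 2 ≤ n) (θ : Sph n) : θ ∈ closure ({θ}ᶜ : Set (Sph n)) := by
  have hr : 1 < Module.rank ℝ (E n) := by
    have h1 : Module.rank ℝ (E n) = (n : Cardinal) := by
      rw [← Module.finrank_eq_rank]
      simp
    rw [h1]
    exact_mod_cast hn
  have hc : IsConnected (sphere (0 : E n) 1) := isConnected_sphere hr 0 zero_le_one
  have : ConnectedSpace (Sph n) := isConnected_iff_connectedSpace.1 hc
  have : Nontrivial (Sph n) := by
    refine ⟨θ, ⟨-(θ : E n), by simp⟩, fun h => ?_⟩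
    have h1 : (θ : E n) = -(θ : E n) := congrArg Subtype.val h
    have h2 : (θ : E n) = 0 := by
      have h3 : (2 : ℝ) • (θ : E n) = 0 := by
        rw [two_smul]
        nth_rewrite 2 [h1]
        simp
      exact (smul_eq_zero.1 h3).resolve_left (by norm_num)
    have h4 := norm_sph θ
    rw [h2, norm_zero] at h4
    exact zero_ne_one h4
  have : (𝓝[≠] θ).NeBot := inferInstance
  exact mem_closure_iff_nhdsWithin_neBot.2 this

lemma cont_aux {α β : Type} [TopologicalSpace α] [TopologicalSpace β] (f : β → β → ℝ)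
    (hf : Continuous fun z : β × β => f z.1 z.2) (a : β) (u : α → β) (hu : Continuous u) :
    Continuous fun z => f a (u z) := hf.comp (continuous_const.prodMk hu)

lemma closed_aux {α β : Type} [TopologicalSpace α] [CompactSpace α] (A B : α × α → β) (C D : α × α → ℝ)
    [TopologicalSpace β] [T2Space β] (hA : Continuous A) (hB : Continuous B) (hC : Continuous C)
    (hD : Continuous D) : IsClosed (Prod.fst '' {z : α × α | A z = B z ∧ C z = D z}) :=
  isClosedMap_fst_of_compactSpace _ ((isClosed_eq hA hB).inter (isClosed_eq hC hD))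

theorem main (hA : S_SPA) (hC : S_SPC) : S_RIGI := by
  intro n hn M _ bd h F g X s hs1 hXs hbd hF hgl hgh hgx hgX hXbd
  obtain ⟨c1, c2, c3, c4, c5, c6, c7, c8⟩ := hC n
  have hlt : ∀ q, ‖X q‖ < 1 := fun q => (hXs q).trans_lt hs1
  have hFlt : ∀ x : Sph n, ‖F x‖ < 1 := fun x => by
    rw [← hXbd]
    exact hlt _
  have hlip : ∀ q q', hdist (X q) (X q') ≤ dist q q' := by
    intro q q'
    by_cases heq : X q = X q'
    · rw [heq, (c1 _ _ (hlt q') (hlt q')).2 rfl]
      exact dist_nonneg
    · have hne : gn (X q) - gn (X q') ≠ 0 := by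
        intro h0
        apply heq
        have h1 : gn (X q) = gn (X q') := sub_eq_zero.1 h0
        rw [← c6 _ (hlt q), ← c6 _ (hlt q'), h1]
      let θ : Sph n := ⟨_, unit_of hne⟩
      have h1 := (hA n (X q) (X q') θ (hlt q) (hlt q')).1
        ⟨‖gn (X q) - gn (X q')‖, norm_nonneg _, by
          show gn (X q) - gn (X q') = ‖gn (X q) - gn (X q')‖ • (‖gn (X q) - gn (X q')‖⁻¹ • (gn (X q) - gn (X q')))
          rw [smul_smul, mul_inv_cancel₀ (norm_ne_zero_iff.2 hne), one_smul]⟩
      rw [← hgX, ← hgX] at h1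
      rw [← h1]
      exact (le_abs_self _).trans (hgl θ q q')
  refine ⟨hlt, hlip, hXbd, ?_, ?_⟩
  · intro q hq
    have hq' : h q ≤ 0 := not_lt.1 hq
    by_contra hne
    let θ : Sph n := ⟨_, unit_of hne⟩
    have h1 : g θ q = 0 := by
      have := (hgh θ q).trans hq'
      exact abs_eq_zero.1 (le_antisymm this (abs_nonneg _))
    rw [hgX] at h1
    have h2 : inner ℝ (X q) (θ : E n) = ‖X q‖ := by
      show inner ℝ (X q) (‖X q‖⁻¹ • X q) = ‖X q‖
      rw [real_inner_smul_right, real_inner_self_eq_norm_sq]
      have := norm_ne_zero_iff.2 hne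
      field_simp
    rw [h2, Real.arcsin_eq_zero_iff] at h1
    exact hne (norm_eq_zero.1 h1)
  · intro q hq θ
    have hq' : 0 < h q := hq
    -- the first case
    have key : ∀ θ : Sph n, g θ q < h q → ∃ x : Sph n,
        (∃ t : ℝ, 0 ≤ t ∧ gn (X q) - gn (F x) = t • (θ : E n)) ∧ dist q (bd x) = hdist (X q) (F x) := by
      intro θ hlt'
      obtain ⟨x, hx⟩ := hgx θ q hlt'
      rw [hgX] at hx
      have h1 := arcsin_le (hlt q).le (hFlt x).le θ
      have h2 := hlip q (bd x)
      rw [hXbd] at h2
      refine ⟨x, (hA n (X q) (F x) θ (hlt q) (hFlt x)).2 (by linarith), by linarith⟩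
    by_cases hcase : g θ q < h q
    · exact key θ hcase
    · have hge : h q ≤ g θ q := not_lt.1 hcase
      have hX0 : X q ≠ 0 := by
        intro h0
        rw [hgX, h0, inner_zero_left, Real.arcsin_zero] at hge
        linarith
      have hn0 : 0 < ‖X q‖ := norm_pos_iff.2 hX0
      -- all other directions are in the first case
      have hother : ∀ θ' : Sph n, θ' ≠ θ → g θ' q < h q := by
        intro θ' hne
        have hmem : ∀ θ : Sph n, inner ℝ (X q) (θ : E n) ∈ Icc (-1 : ℝ) 1 := by
          intro θ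
          have h1 := abs_real_inner_le_norm (X q) (θ : E n)
          rw [norm_sph, mul_one] at h1
          have h2 := abs_le.1 (h1.trans (hlt q).le)
          exact ⟨h2.1, h2.2⟩
        by_contra hcon
        have hcon' : h q ≤ g θ' q := not_lt.1 hcon
        -- both are maxima
        have hmax : ∀ θ₁ : Sph n, h q ≤ g θ₁ q → X q = ‖X q‖ • (θ₁ : E n) := by
          intro θ₁ h1
          let θ₀ : Sph n := ⟨_, unit_of hX0⟩
          have h2 : g θ₀ q ≤ g θ₁ q := (le_abs_self _).trans ((hgh θ₀ q).trans h1)
          rw [hgX, hgX, Real.strictMonoOn_arcsin.le_iff_le (hmem θ₀) (hmem θ₁)] at h2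
          have h3 : inner ℝ (X q) (θ₀ : E n) = ‖X q‖ := by
            show inner ℝ (X q) (‖X q‖⁻¹ • X q) = ‖X q‖
            rw [real_inner_smul_right, real_inner_self_eq_norm_sq]
            field_simp
          rw [h3] at h2
          have h4 : inner ℝ (X q) (θ₁ : E n) ≤ ‖X q‖ * ‖(θ₁ : E n)‖ := real_inner_le_norm _ _
          have h5 : inner ℝ (X q) (θ₁ : E n) = ‖X q‖ * ‖(θ₁ : E n)‖ := by
            refine le_antisymm h4 ?_
            rw [norm_sph, mul_one]
            exact h2
          have h6 := (inner_eq_norm_mul_iff_real (x := X q) (y := (θ₁ : E n))).1 h5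
          rw [norm_sph, one_smul] at h6
          exact h6
        have e1 := hmax θ hge
        have e2 := hmax θ' hcon'
        rw [e1] at e2
        apply hne
        apply Subtype.ext
        have e3 : ‖X q‖ • (θ : E n) = ‖X q‖ • (θ' : E n) := by
          have e4 : ‖‖X q‖ • (θ : E n)‖ = ‖X q‖ := by rw [norm_smul, norm_norm, norm_sph, mul_one]
          rw [e4] at e2
          exact e2
        exact (smul_right_injective _ hn0.ne' e3).symm
      -- the set of good directions is closed
      have hFc : Continuous fun x : Sph n => F x :=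
        hF.comp_continuous continuous_subtype_val fun x => by
          rw [mem_closedBall_zero_iff, norm_sph]
      have hgF : Continuous fun x : Sph n => gn (F x) :=
        c7.comp_continuous hFc fun x => by
          rw [mem_ball_zero_iff]
          exact hFlt x
      have k1 : Continuous fun z : Sph n × Sph n => gn (X q) - gn (F z.2) :=
        continuous_const.sub (hgF.comp continuous_snd)
      have k2 : Continuous fun z : Sph n × Sph n => ‖gn (X q) - gn (F z.2)‖ • (z.1 : E n) :=
        k1.norm.smul (continuous_subtype_val.comp continuous_fst)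
      have k3 : Continuous fun z : Sph n × Sph n => dist q (bd z.2) :=
        continuous_const.dist (hbd.comp continuous_snd)
      have k4 : Continuous fun z : Sph n × Sph n => hdist (X q) (F z.2) :=
        cont_aux hdist c4 (X q) (fun z : Sph n × Sph n => F z.2) (hFc.comp continuous_snd)
      have hcl := closed_aux _ _ _ _ k1 k2 k3 k4
      have hsub : ({θ}ᶜ : Set (Sph n)) ⊆ Prod.fst '' {z : Sph n × Sph n |
          gn (X q) - gn (F z.2) = ‖gn (X q) - gn (F z.2)‖ • (z.1 : E n) ∧
          dist q (bd z.2) = hdist (X q) (F z.2)} := by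
        intro θ' hne
        obtain ⟨x, ⟨t, ht, hx1⟩, hx2⟩ := key θ' (hother θ' hne)
        refine ⟨(θ', x), ⟨?_, hx2⟩, rfl⟩
        show gn (X q) - gn (F x) = ‖gn (X q) - gn (F x)‖ • (θ' : E n)
        have h1 : ‖gn (X q) - gn (F x)‖ = t := by
          rw [hx1, norm_smul, norm_sph, mul_one, Real.norm_eq_abs, abs_of_nonneg ht]
        rw [h1]
        exact hx1
      obtain ⟨z, ⟨hz1, hz2⟩, hz3⟩ := (closure_minimal hsub hcl) (perfect hn θ)
      refine ⟨z.2, ⟨‖gn (X q) - gn (F z.2)‖, norm_nonneg _, ?_⟩, hz2⟩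
      rw [← hz3]
      exact hz1

end Pool.Agent.H780.RG.RIGI
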