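import Pool.Agent.H780.RG.StmC
import Pool.Graph.R_seed8.H241R3.FV.TLoc

/-!
# Project RG (helper780): the area inequality
-/

set_option autoImplicit false

open MeasureTheory Metric Set Filter Topology InnerProductGeometry

namespace Pool.Agent.H780.RG.AREA

open Pool.Agent.H241R3.FV Pool.Agent.N526.CP

/-- Images of null sets. -/
theorem null_image {n : ℕ} (f : E n → E n) (N : Set (E n)) (hN : volume N = 0)
    (hf : ∀ p ∈ N, ∃ V ∈ 𝓝 p, ∃ K : NNReal, LipschitzOnWith K f V) :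
    volume (f '' N) = 0 := by
  choose! V hV K hK using hf
  obtain ⟨t, htN, htc, hcov⟩ := TopologicalSpace.countable_cover_nhdsWithin
    (f := V) (s := N) (fun x hx => mem_nhdsWithin_of_mem_nhds (hV x hx))
  have h1 : f '' N ⊆ ⋃ x ∈ t, f '' (N ∩ V x) := by
    rintro _ ⟨y, hy, rfl⟩
    obtain ⟨x, hx, hyx⟩ := mem_iUnion₂.1 (hcov hy)
    exact mem_iUnion₂.2 ⟨x, hx, y, ⟨hy, hyx⟩, rfl⟩
  refine measure_mono_null h1 ?_
  rw [measure_biUnion_null_iff htc]
  intro x hx
  have h2 : LipschitzOnWith (K x) f (N ∩ V x) := (hK x (htN hx)).mono inter_subset_right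
  have h3 : (Measure.hausdorffMeasure (Module.finrank ℝ (E n) : ℝ) : Measure (E n)) (N ∩ V x) = 0 :=
    (Measure.absolutelyContinuous_isAddHaarMeasure
      (Measure.hausdorffMeasure (Module.finrank ℝ (E n) : ℝ) : Measure (E n)) volume)
      (measure_mono_null inter_subset_left hN)
  have h4 := h2.hausdorffMeasure_image_le (d := (Module.finrank ℝ (E n) : ℝ)) (Nat.cast_nonneg _)
  rw [h3, mul_zero] at h4
  have h5 := nonpos_iff_eq_zero.1 h4
  exact (Measure.absolutelyContinuous_isAddHaarMeasure volume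
    (Measure.hausdorffMeasure (Module.finrank ℝ (E n) : ℝ) : Measure (E n))) h5

/-- The area formula with a weight, for maps which need not be injective. -/
theorem weighted {n : ℕ} (f : E n → E n) (f' : E n → E n →L[ℝ] E n) (s : Set (E n))
    (hs : MeasurableSet s) (hf' : ∀ x ∈ s, HasFDerivWithinAt f (f' x) s x)
    (w : E n → ENNReal) (hw : Measurable w) :
    ∫⁻ y in f '' s, w y ≤ ∫⁻ x in s, ENNReal.ofReal |(f' x).det| * w (f x) := by
  have hc : ContinuousOn f s := fun x hx => (hf' x hx).continuousWithinAt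
  have hfa : AEMeasurable f (volume.restrict s) := hc.aemeasurable hs
  have hda : AEMeasurable (fun x => ENNReal.ofReal |(f' x).det|) (volume.restrict s) :=
    aemeasurable_ofReal_abs_det_fderivWithin volume hs hf'
  have hac : (volume.restrict s).withDensity (fun x => ENNReal.ofReal |(f' x).det|) ≪
      volume.restrict s := withDensity_absolutelyContinuous _ _
  have hfa' : AEMeasurable f
      ((volume.restrict s).withDensity (fun x => ENNReal.ofReal |(f' x).det|)) :=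
    hfa.mono_ac hac
  have hle : (volume.restrict (f '' s) : Measure (E n)) ≤
      Measure.map f ((volume.restrict s).withDensity (fun x => ENNReal.ofReal |(f' x).det|)) := by
    rw [Measure.le_iff]
    intro B hB
    have e1 : B ∩ f '' s = f '' (s ∩ f ⁻¹' B) := by
      ext y
      constructor
      · rintro ⟨hy, x, hx, rfl⟩
        exact ⟨x, ⟨hx, hy⟩, rfl⟩
      · rintro ⟨x, ⟨hx, hy⟩, rfl⟩
        exact ⟨hy, x, hx, rfl⟩
    have hm : MeasurableSet (s ∩ f ⁻¹' B) := by
      have e2 : s ∩ f ⁻¹' B = (Subtype.val : s → E n) '' ((s.domRestrict f) ⁻¹' B) := by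
        ext x
        constructor
        · rintro ⟨hx, hy⟩
          exact ⟨⟨x, hx⟩, hy, rfl⟩
        · rintro ⟨⟨z, hz⟩, hy, rfl⟩
          exact ⟨hz, hy⟩
      rw [e2]
      exact hs.subtype_image (hc.domRestrict.measurable hB)
    rw [Measure.restrict_apply hB, Measure.map_apply_of_aemeasurable hfa' hB, e1,
      withDensity_apply' _ (f ⁻¹' B), Measure.restrict_restrict' hs, inter_comm (f ⁻¹' B) s]
    exact addHaar_image_le_lintegral_abs_det_fderiv volume hm
      (fun x hx => (hf' x hx.1).mono inter_subset_left)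
  calc ∫⁻ y in f '' s, w y ≤ ∫⁻ y, w y ∂(Measure.map f
        ((volume.restrict s).withDensity (fun x => ENNReal.ofReal |(f' x).det|))) :=
        lintegral_mono' hle le_rfl
    _ = ∫⁻ x, w (f x) ∂((volume.restrict s).withDensity
        (fun x => ENNReal.ofReal |(f' x).det|)) := lintegral_map' hw.aemeasurable hfa'
    _ = ∫⁻ x in s, ENNReal.ofReal |(f' x).det| * w (f x) := by
        exact lintegral_withDensity_eq_lintegral_mul₀ hda (hw.comp_aemeasurable hfa)

/-- The charts are locally Lipschitz. -/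
theorem loc_lip {n : ℕ} {M : Type} [MetricSpace M] (C : RChart n M) (X : M → E n) (K : NNReal)
    (hK : LipschitzWith K X) (p : E n) (hp : p ∈ C.U) :
    ∃ V ∈ 𝓝 p, ∃ K' : NNReal, LipschitzOnWith K' (X ∘ C.map) V := by
  obtain ⟨r, hr, hrU, h⟩ := TLoc.taskLoc n M C p hp 1 one_pos
  refine ⟨ball p r, ball_mem_nhds p hr,
    K * Real.toNNReal (√(∑ i, ∑ j, |C.G p i j|) + 1), ?_⟩
  apply LipschitzOnWith.of_dist_le_mul
  intro y hy z hz
  have h1 := h y hy z hz
  have h2 := gnorm_le (C.G p) (y - z)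
  have h3 : dist (C.map y) (C.map z) ≤ (√(∑ i, ∑ j, |C.G p i j|) + 1) * dist y z := by
    rw [dist_eq_norm y z]
    linarith
  have h4 := hK.dist_le_mul (C.map y) (C.map z)
  have h5 : ((K * Real.toNNReal (√(∑ i, ∑ j, |C.G p i j|) + 1) : NNReal) : ℝ) =
      K * (√(∑ i, ∑ j, |C.G p i j|) + 1) := by
    rw [NNReal.coe_mul, Real.coe_toNNReal _ (by positivity)]
  rw [h5]
  calc dist ((X ∘ C.map) y) ((X ∘ C.map) z) ≤ K * dist (C.map y) (C.map z) := h4
    _ ≤ K * ((√(∑ i, ∑ j, |C.G p i j|) + 1) * dist y z) :=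
        mul_le_mul_of_nonneg_left h3 K.coe_nonneg
    _ = _ := by ring

theorem main (_hU : Pool.Agent.N526.CP.S_UDER) : S_AREA := by
  intro d M _ ι _ C Z X s K hs hX hK hC T hT hTm A hA hAT hAZ
  have hw : Measurable (fun x : E (d + 1) => ENNReal.ofReal (√(1 - ‖x‖ ^ 2))⁻¹) := by
    apply ENNReal.measurable_ofReal.comp
    exact (Real.continuous_sqrt.measurable.comp
      ((continuous_const.sub (continuous_norm.pow 2)).measurable)).inv
  have h1 : ENNReal.ofReal (∫ x in A, (√(1 - ‖x‖ ^ 2))⁻¹) ≤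
      ∫⁻ x in A, ENNReal.ofReal (√(1 - ‖x‖ ^ 2))⁻¹ := by
    rw [integral_eq_lintegral_of_nonneg_ae (Eventually.of_forall (fun x => by
      show 0 ≤ (√(1 - ‖x‖ ^ 2))⁻¹
      positivity))
      (by
        apply Measurable.aestronglyMeasurable
        exact (Real.continuous_sqrt.measurable.comp
          ((continuous_const.sub (continuous_norm.pow 2)).measurable)).inv)]
    exact ENNReal.ofReal_toReal_le
  have h2 : A ⊆ ⋃ i, (X ∘ (C i).map) '' {p | p ∈ (C i).D ∧ (C i).map p ∈ T} := by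
    intro x hx
    obtain ⟨q, hq, rfl⟩ := hAT hx
    have hqZ : q ∉ Z := fun h => Set.disjoint_left.1 hAZ hx (mem_image_of_mem X h)
    obtain ⟨i, p, hp, rfl⟩ := hT q hq hqZ
    exact mem_iUnion.2 ⟨i, p, ⟨hp, hq⟩, rfl⟩
  have h3 : ∫⁻ x in A, ENNReal.ofReal (√(1 - ‖x‖ ^ 2))⁻¹ ≤
      ∑ i, ∫⁻ x in (X ∘ (C i).map) '' {p | p ∈ (C i).D ∧ (C i).map p ∈ T},
        ENNReal.ofReal (√(1 - ‖x‖ ^ 2))⁻¹ := by
    refine (lintegral_mono_set h2).trans ((lintegral_iUnion_le _ _).trans ?_)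
    rw [tsum_fintype]
  refine h1.trans (h3.trans (Finset.sum_le_sum fun i _ => ?_))
  obtain ⟨S, hS⟩ : ∃ S : Set (E (d + 1)), S = {p | p ∈ (C i).D ∧ (C i).map p ∈ T} := ⟨_, rfl⟩
  rw [← hS]
  have hSm : MeasurableSet S := by rw [hS]; exact hTm i
  have hSD : ∀ p ∈ S, p ∈ (C i).D := fun p hp => by rw [hS] at hp; exact hp.1
  obtain ⟨B, hB, hBm, hB0⟩ := exists_measurable_superset_of_null (hC i)
  have h5 : (X ∘ (C i).map) '' S ⊆ (X ∘ (C i).map) '' (S \ B) ∪ (X ∘ (C i).map) '' (S ∩ B) := by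
    rw [← image_union]
    exact image_mono (fun p hp => by
      by_cases h : p ∈ B
      · exact Or.inr ⟨hp, h⟩
      · exact Or.inl ⟨hp, h⟩)
  have h6 : volume ((X ∘ (C i).map) '' (S ∩ B)) = 0 :=
    null_image _ _ (measure_mono_null inter_subset_right hB0)
      (fun p hp => loc_lip (C i) X K hK p ((C i).D_sub (hSD p hp.1)))
  have h7 : ∫⁻ x in (X ∘ (C i).map) '' S, ENNReal.ofReal (√(1 - ‖x‖ ^ 2))⁻¹ ≤
      ∫⁻ x in (X ∘ (C i).map) '' (S \ B), ENNReal.ofReal (√(1 - ‖x‖ ^ 2))⁻¹ := by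
    refine (lintegral_mono_set h5).trans ((lintegral_union_le _ _ _).trans ?_)
    rw [setLIntegral_measure_zero _ _ h6, add_zero]
  have h8 : ∀ p, ∃ L : E (d + 1) →L[ℝ] E (d + 1), p ∈ S \ B →
      HasFDerivAt (X ∘ (C i).map) L p ∧
        |L.det| * (√(1 - ‖X ((C i).map p)‖ ^ 2))⁻¹ ≤ √((C i).G p).det := by
    intro p
    by_cases hp : p ∈ S \ B
    · have h9 : p ∈ (C i).D → ∃ L : E (d + 1) →L[ℝ] E (d + 1),
          HasFDerivAt (X ∘ (C i).map) L p ∧
            |L.det| * (√(1 - ‖X ((C i).map p)‖ ^ 2))⁻¹ ≤ √((C i).G p).det := by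
        by_contra hcon
        exact hp.2 (hB hcon)
      obtain ⟨L, hL⟩ := h9 (hSD p hp.1)
      exact ⟨L, fun _ => hL⟩
    · exact ⟨0, fun h => absurd h hp⟩
  choose L hL using h8
  have h9 := weighted (X ∘ (C i).map) L (S \ B) (hSm.diff hBm)
    (fun x hx => (hL x hx).1.hasFDerivWithinAt) _ hw
  refine h7.trans (h9.trans ?_)
  refine (setLIntegral_mono' (hSm.diff hBm) (fun x hx => ?_)).trans
    (lintegral_mono_set (sdiff_subset : S \ B ⊆ S))
  rw [← ENNReal.ofReal_mul (abs_nonneg _)]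
  exact ENNReal.ofReal_le_ofReal (hL x hx).2

end Pool.Agent.H780.RG.AREA
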