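import Pool.Agent.H780.RG.Ptwe

/-!
# The case of equality of the volumes
-/

set_option autoImplicit false

open MeasureTheory Metric Set Filter Topology InnerProductGeometry Matrix

namespace Pool.Agent.H780.RG.EQV

open Pool.Agent.H241R3.FV Pool.Agent.N526.CP Pool.Agent.N979.CP Pool.Agent.H780.NV
open Pool.Agent.N526.CP.LIP (asin_lip ip_le ip_sub)

/-- functions with equal sums of integrals -/
theorem eq_of_sum {ι α : Type} [Fintype ι] [MeasurableSpace α] (μ : Measure α) (D : ι → Set α)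
    (f g : ι → α → ℝ) (hf : ∀ i, IntegrableOn (f i) (D i) μ) (hg : ∀ i, IntegrableOn (g i) (D i) μ)
    (hle : ∀ i, ∀ᵐ p ∂(μ.restrict (D i)), f i p ≤ g i p)
    (hsum : ∑ i, ∫ p in D i, g i p ∂μ ≤ ∑ i, ∫ p in D i, f i p ∂μ) :
    ∀ i, ∀ᵐ p ∂(μ.restrict (D i)), f i p = g i p := by
  have h1 : ∀ i, ∫ p in D i, f i p ∂μ ≤ ∫ p in D i, g i p ∂μ := fun i =>
    integral_mono_ae (hf i) (hg i) (hle i)
  have h2 : ∀ i, ∫ p in D i, f i p ∂μ = ∫ p in D i, g i p ∂μ := by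
    have h3 : ∑ i, ∫ p in D i, f i p ∂μ = ∑ i, ∫ p in D i, g i p ∂μ :=
      le_antisymm (Finset.sum_le_sum fun i _ => h1 i) hsum
    intro i
    exact (Finset.sum_eq_sum_iff_of_le fun i _ => h1 i).1 h3 i (Finset.mem_univ i)
  intro i
  exact (integral_eq_iff_of_ae_le (hf i) (hg i) (hle i)).1 (h2 i)

/-- the volume as a sum of integrals -/
theorem vol_int {n : ℕ} {M : Type} [MetricSpace M] {bd : Sph n → M} {N : Set M}
    (S : NFill n M bd N) (hvol : S.vol < ⊤) :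
    (∀ i, IntegrableOn (fun p => √((S.chart i).G p).det) (S.chart i).D) ∧
    ∑ i, ∫ p in (S.chart i).D, √((S.chart i).G p).det = S.vol.toReal := by
  have hvi : ∀ i, ∫⁻ p in (S.chart i).D, ENNReal.ofReal √((S.chart i).G p).det < ⊤ := by
    intro i
    refine lt_of_le_of_lt ?_ hvol
    exact Finset.single_le_sum
      (f := fun i => ∫⁻ p in (S.chart i).D, ENNReal.ofReal √((S.chart i).G p).det)
      (fun _ _ => bot_le) (Finset.mem_univ i)
  have hm : ∀ i, AEStronglyMeasurable (fun p => √((S.chart i).G p).det)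
      (volume.restrict (S.chart i).D) := by
    intro i
    have h1 : ContinuousOn (fun p => √((S.chart i).G p).det) (S.chart i).U := by
      have h2 : Continuous fun A : Matrix (Fin n) (Fin n) ℝ => √A.det :=
        Real.continuous_sqrt.comp (Continuous.matrix_det continuous_id)
      exact h2.comp_continuousOn (S.chart i).cont_G
    exact (h1.aestronglyMeasurable (S.chart i).isOpen_U.measurableSet).mono_measure
      (Measure.restrict_mono (S.chart i).D_sub le_rfl)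
  refine ⟨fun i => ⟨hm i, ?_⟩, ?_⟩
  · rw [hasFiniteIntegral_iff_ofReal (Eventually.of_forall fun p => Real.sqrt_nonneg _)]
    exact hvi i
  · unfold NFill.vol
    rw [ENNReal.toReal_sum fun i _ => (hvi i).ne]
    refine Finset.sum_congr rfl fun i _ => ?_
    exact integral_eq_lintegral_of_nonneg_ae (Eventually.of_forall fun p => Real.sqrt_nonneg _)
      (hm i)

/-- the function which is to vanish -/
noncomputable def uf {d : ℕ} {M : Type} (g : Sph (d + 1) → M → ℝ) (θ : Sph (d + 1)) (q : M) : ℝ :=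
  g θ q - Real.arcsin (ip (Xf g q) θ)

theorem xf_facts {d : ℕ} (hd : 1 ≤ d) {M : Type} [MetricSpace M] {bd : Sph (d + 1) → M}
    {h : M → ℝ} {s : ℝ} {F : E (d + 1) → E (d + 1)}
    {g : Sph (d + 1) → M → ℝ} (hs0 : 0 < s)
    (hs1 : s < 1) (hg : FamB bd h s F g) (hF : ∀ x : Sph (d + 1), ‖F x‖ ≤ s) :
    (∀ q, ‖Xf g q‖ ≤ s) ∧ (∀ q q', ‖Xf g q - Xf g q'‖ ≤ (d + 1) * dist q q') ∧
    (∀ x : Sph (d + 1), Xf g (bd x) = F x) := by
  obtain ⟨hP, -, -⟩ := Pool.Agent.N979.CP.Fin.sph d hd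
  obtain ⟨i1, i2, i3⟩ := Pool.Agent.N979.CP.Fin.inv d hd
  refine ⟨fun q => (i2 s hs0 hs1 _ (hg.range q)).1, ?_, ?_⟩
  · intro q q'
    refine (i3 s hs0 hs1 _ _ (hg.range q) (hg.range q')).trans ?_
    exact mul_le_mul_of_nonneg_left (int_lip hg q q') (by positivity)
  · intro x
    have h1 : ∫ θ : Sph (d + 1), g θ (bd x) • (θ : E (d + 1)) ∂(sg (d + 1)) =
        Zf (F (x : E (d + 1))) := by
      unfold Zf
      congr 1
      funext θ
      rw [hg.bdv]
      rfl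
    unfold Xf
    rw [h1]
    exact i1 _ (lt_of_le_of_lt (hF x) hs1)

theorem uf_lip {d : ℕ} (hd : 1 ≤ d) {M : Type} [MetricSpace M] {bd : Sph (d + 1) → M}
    {h : M → ℝ} {s : ℝ} {F : E (d + 1) → E (d + 1)}
    {g : Sph (d + 1) → M → ℝ} (hs0 : 0 < s)
    (hs1 : s < 1) (hg : FamB bd h s F g) (hF : ∀ x : Sph (d + 1), ‖F x‖ ≤ s) :
    (∃ K : ℝ, 0 ≤ K ∧ ∀ θ q q', |uf g θ q - uf g θ q'| ≤ K * dist q q') ∧
    (∀ q, Continuous fun θ => uf g θ q) ∧ (∀ θ (x : Sph (d + 1)), uf g θ (bd x) = 0) := by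
  obtain ⟨x1, x2, x3⟩ := xf_facts hd hs0 hs1 hg hF
  have hsq : 0 < 1 - s ^ 2 := by nlinarith
  refine ⟨⟨1 + (√(1 - s ^ 2))⁻¹ * (d + 1), by positivity, fun θ q q' => ?_⟩, fun q => ?_,
    fun θ x => ?_⟩
  · unfold uf
    have e : g θ q - Real.arcsin (ip (Xf g q) θ) - (g θ q' - Real.arcsin (ip (Xf g q') θ)) =
        (g θ q - g θ q') - (Real.arcsin (ip (Xf g q) θ) - Real.arcsin (ip (Xf g q') θ)) := by
      ring
    rw [e]
    have h2 := asin_lip hs0 hs1 ((ip_le (Xf g q) θ).trans (x1 q)) ((ip_le (Xf g q') θ).trans (x1 q'))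
    rw [ip_sub] at h2
    have h3 := (ip_le (Xf g q - Xf g q') θ).trans (x2 q q')
    have h4 : (√(1 - s ^ 2))⁻¹ * |ip (Xf g q - Xf g q') θ| ≤
        (√(1 - s ^ 2))⁻¹ * ((d + 1) * dist q q') :=
      mul_le_mul_of_nonneg_left h3 (by positivity)
    have h5 := abs_sub (g θ q - g θ q') (Real.arcsin (ip (Xf g q) θ) - Real.arcsin (ip (Xf g q') θ))
    have h6 := hg.lip θ q q'
    nlinarith
  · have h1 : Continuous (fun θ : Sph (d + 1) => g θ q) :=
      (cont_g hg).comp (Continuous.prodMk continuous_id continuous_const)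
    have h2 : Continuous fun θ : Sph (d + 1) => ip (Xf g q) θ := by
      unfold ip
      exact continuous_const.inner continuous_subtype_val
    exact h1.sub (Real.continuous_arcsin.comp h2)
  · unfold uf
    rw [x3, hg.bdv]
    unfold ip
    ring

/-- in a chart -/
theorem chart_loc {n : ℕ} {M : Type} [MetricSpace M] (C : RChart n M) (p : E n) (hp : p ∈ C.U) :
    ∃ r : ℝ, 0 < r ∧ ball p r ⊆ C.U ∧ ∃ K' : ℝ, ∀ y ∈ ball p r, ∀ z ∈ ball p r,
      dist (C.map y) (C.map z) ≤ K' * ‖y - z‖ := by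
  obtain ⟨r, hr, K', hb, h⟩ := LOC.chart_lip C hp
  refine ⟨r, hr, hb, K', fun y hy z hz => ?_⟩
  rw [← dist_eq_norm]
  exact h.dist_le_mul y hy z hz

/-- Rademacher's theorem for locally Lipschitz functions -/
theorem rad {n : ℕ} {U : Set (E n)} (u : E n → ℝ)
    (h : ∀ p ∈ U, ∃ r : ℝ, 0 < r ∧ ∃ K : ℝ, ∀ y ∈ ball p r, ∀ z ∈ ball p r,
      |u y - u z| ≤ K * ‖y - z‖) :
    ∀ᵐ p ∂(volume : Measure (E n)), p ∈ U → DifferentiableAt ℝ u p := by
  choose! r hr K hK using h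
  obtain ⟨T, hTU, hTc, hTcov⟩ : ∃ T ⊆ U, T.Countable ∧ U ⊆ ⋃ p ∈ T, ball p (r p) :=
    TopologicalSpace.countable_cover_nhdsWithin fun p hp =>
      mem_nhdsWithin_of_mem_nhds (ball_mem_nhds p (hr p hp))
  have h1 : ∀ᵐ y ∂(volume : Measure (E n)), ∀ p ∈ T, y ∈ ball p (r p) →
      DifferentiableAt ℝ u y := by
    refine (ae_ball_iff hTc).2 fun p hp => ?_
    have h4 : LipschitzOnWith (K p).toNNReal u (ball p (r p)) := by
      refine LipschitzOnWith.of_dist_le_mul fun y hy z hz => ?_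
      rw [dist_eq_norm, dist_eq_norm, Real.norm_eq_abs]
      refine (hK p (hTU hp) y hy z hz).trans ?_
      gcongr
      exact Real.le_coe_toNNReal _
    filter_upwards [h4.ae_differentiableWithinAt_of_mem (μ := (volume : Measure (E n)))]
      with y hy hy'
    exact (hy hy').differentiableAt (isOpen_ball.mem_nhds hy')
  filter_upwards [h1] with y hy hyU
  obtain ⟨p, hp, hyp⟩ := mem_iUnion₂.1 (hTcov hyU)
  exact hy p hp hyp

/-- the case of equality, Fubini -/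
theorem swap {d : ℕ} (hd : 1 ≤ d) {M : Type} [MetricSpace M] (C : RChart (d + 1) M)
    (u : Sph (d + 1) → M → ℝ) {K : ℝ} (hK : 0 ≤ K)
    (hu : ∀ θ q q', |u θ q - u θ q'| ≤ K * dist q q') (hc : ∀ q, Continuous fun θ => u θ q)
    (h : ∀ᵐ p ∂(volume : Measure (E (d + 1))), p ∈ C.D → ∀ᵐ θ ∂(sg (d + 1)),
      HasFDerivAt (fun y => u θ (C.map y)) (0 : E (d + 1) →L[ℝ] ℝ) p) :
    ∀ᵐ θ ∂(sg (d + 1)), ∀ᵐ p ∂(volume : Measure (E (d + 1))), p ∈ C.D →
      HasFDerivAt (fun y => u θ (C.map y)) (0 : E (d + 1) →L[ℝ] ℝ) p := by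
  obtain ⟨hprob, -, -⟩ := Pool.Agent.N979.CP.Fin.sph d hd
  have hlip : ∀ p ∈ C.U, ∃ r : ℝ, 0 < r ∧ ∃ K' : ℝ, ∀ θ, ∀ y ∈ ball p r, ∀ z ∈ ball p r,
      ‖u θ (C.map y) - u θ (C.map z)‖ ≤ K' * ‖y - z‖ := by
    intro p hp
    obtain ⟨r, hr, -, K', hK'⟩ := chart_loc C p hp
    refine ⟨r, hr, K * K', fun θ y hy z hz => ?_⟩
    rw [Real.norm_eq_abs, mul_assoc]
    exact (hu θ _ _).trans (mul_le_mul_of_nonneg_left (hK' y hy z hz) hK)
  obtain ⟨-, hsm⟩ := RAP.t (d + 1) ℝ C.U C.isOpen_U (fun θ p => u θ (C.map p)) hlip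
    (fun p _ => hc _) inferInstance
  obtain ⟨Φ, hΦ⟩ : ∃ Φ : E (d + 1) × Sph (d + 1) → (E (d + 1) →L[ℝ] ℝ), Φ = fun z =>
    open Classical in if z.1 ∈ C.U then fderiv ℝ (fun p => u z.2 (C.map p)) z.1 else 0 := ⟨_, rfl⟩
  have hΦm : Measurable Φ := by
    rw [hΦ]
    exact hsm.measurable
  have hset : MeasurableSet {z : E (d + 1) × Sph (d + 1) | z.1 ∈ C.D → Φ z = 0} := by
    have e : {z : E (d + 1) × Sph (d + 1) | z.1 ∈ C.D → Φ z = 0} =
        (Prod.fst ⁻¹' C.D)ᶜ ∪ Φ ⁻¹' {0} := by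
      ext z
      simp only [mem_ofPred_eq, mem_union, mem_compl_iff, mem_preimage, mem_singleton_iff]
      tauto
    rw [e]
    exact (measurable_fst C.meas_D).compl.union (hΦm (measurableSet_singleton 0))
  have h1 : ∀ᵐ p ∂(volume : Measure (E (d + 1))), ∀ᵐ θ ∂(sg (d + 1)), p ∈ C.D → Φ (p, θ) = 0 := by
    filter_upwards [h] with p hp
    by_cases hpD : p ∈ C.D
    · filter_upwards [hp hpD] with θ hθ _
      rw [hΦ]
      change (open Classical in if p ∈ C.U then fderiv ℝ (fun y => u θ (C.map y)) p else 0) = 0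
      rw [if_pos (C.D_sub hpD), hθ.fderiv]
    · exact Eventually.of_forall fun θ hpD' => absurd hpD' hpD
  have h2 := (Measure.ae_ae_comm (μ := (volume : Measure (E (d + 1)))) (ν := sg (d + 1))
    (p := fun p θ => p ∈ C.D → Φ (p, θ) = 0) hset).1 h1
  filter_upwards [h2] with θ hθ
  have h3 := rad (U := C.U) (fun y => u θ (C.map y)) fun p hp => by
    obtain ⟨r, hr, K', h⟩ := hlip p hp
    exact ⟨r, hr, K', fun y hy z hz => by
      have := h θ y hy z hz
      rwa [Real.norm_eq_abs] at this⟩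
  filter_upwards [hθ, h3] with p hp1 hp2 hpD
  have h4 := hp1 hpD
  have h5 := (hp2 (C.D_sub hpD)).hasFDerivAt
  have h6 : fderiv ℝ (fun y => u θ (C.map y)) p = 0 := by
    rw [hΦ] at h4
    change (open Classical in if p ∈ C.U then fderiv ℝ (fun y => u θ (C.map y)) p else 0) = 0 at h4
    rwa [if_pos (C.D_sub hpD)] at h4
  rw [h6] at h5
  exact h5

/-- the case of equality of the volumes -/
theorem eqv {d : ℕ} (hd : 2 ≤ d) (hE : S_COMBE) {s : ℝ} (hGood : Good2 d s) {M : Type}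
    [MetricSpace M]
    {bd : Sph (d + 1) → M} {N : Set M} (S : NFill (d + 1) M bd N) {h : M → ℝ} (hh : Hgt N h)
    (F : E (d + 1) → E (d + 1)) (L : NNReal) (hFL : LipschitzOnWith L F (closedBall 0 1))
    (hFs : ∀ y ∈ closedBall (0 : E (d + 1)) 1, ‖F y‖ ≤ s)
    {g : Sph (d + 1) → M → ℝ} (hg : FamB bd h s F g)
    (hV0 : 0 ≤ ∫ y in ball (0 : E (d + 1)) 1, (fderiv ℝ F y).det * (√(1 - ‖F y‖ ^ 2))⁻¹)
    (hV : S.vol ≤ ENNReal.ofReal
      (∫ y in ball (0 : E (d + 1)) 1, (fderiv ℝ F y).det * (√(1 - ‖F y‖ ^ 2))⁻¹)) :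
    (∀ i, ∀ᵐ p ∂(volume : Measure (E (d + 1))), p ∈ (S.chart i).D →
      ∃ L : E (d + 1) →L[ℝ] E (d + 1), HasFDerivAt (Xf g ∘ (S.chart i).map) L p ∧
        |L.det| * (√(1 - ‖Xf g ((S.chart i).map p)‖ ^ 2))⁻¹ ≤ √((S.chart i).G p).det) ∧
    ∀ i, ∀ᵐ p ∂(volume : Measure (E (d + 1))), p ∈ (S.chart i).D → ∀ᵐ θ ∂(sg (d + 1)),
      HasFDerivAt (fun y => uf g θ ((S.chart i).map y)) (0 : E (d + 1) →L[ℝ] ℝ) p := by
  have hd1 : 1 ≤ d := by omega
  have hvol' : S.vol < ⊤ := hV.trans_lt ENNReal.ofReal_lt_top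
  have hs0 : 0 < s := hGood.1
  have hs1 : s < 1 := hGood.2.1
  obtain ⟨K, hK1, hK2, hK3, hK4, hK5, hK6, hK7⟩ := lip hd1 hh.nonneg hs0 hs1 hg hFL hFs
  obtain ⟨hprob, -, -⟩ := Pool.Agent.N979.CP.Fin.sph d hd1
  have := hprob
  -- Stokes
  have hst1 : ∀ θ, jn S (Psi g θ) =
      ∫ y in ball (0 : E (d + 1)) 1, (fderiv ℝ (PsiF F θ) y).det := fun θ =>
    Sto.t (by omega) S hvol' hh (hK1 θ) (hK3 θ) (fun x => hK5 θ x)
  have hst2 : jn S (Hf ∘ Xf g) =
      ∫ y in ball (0 : E (d + 1)) 1, (fderiv ℝ (Hf ∘ F) y).det :=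
    Sto.t (by omega) S hvol' hh hK2 hK4 (fun x => hK6 x)
  -- Fubini
  obtain ⟨hF2, hF3⟩ := fub S hvol' K (Psi g) (fun θ => (hK1 θ).lip) hK7
  obtain ⟨hG2, -⟩ := fub S hvol' K (fun _ => Hf ∘ Xf g) (fun _ => hK2.lip)
    (hK2.lip.continuous.comp continuous_snd)
  have hG4 : ∀ i, IntegrableOn (fun p => (fderiv ℝ (Hf ∘ Xf g ∘ (S.chart i).map) p).det)
      (S.chart i).D := by
    intro i
    have h := hG2 i
    simp only [integral_const, probReal_univ, one_smul] at h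
    exact h
  have hcap := CAPVF.t Pool.Agent.N979.CP.Fin.sph Pool.Agent.N979.CP.Fin.gram UDER.t
    Pool.Agent.N979.CP.Fin.detv d hd1 s hs0 hs1 F L hFL hFs
  obtain ⟨V, hVdef⟩ : ∃ V, V = ∫ y in ball (0 : E (d + 1)) 1,
    (fderiv ℝ F y).det * (√(1 - ‖F y‖ ^ 2))⁻¹ := ⟨_, rfl⟩
  rw [← hVdef] at hV0 hV hcap
  have h1 : V = ∑ i, ∫ p in (S.chart i).D,
      ((d + 1) * ∫ θ, (fderiv ℝ (Psi g θ ∘ (S.chart i).map) p).det ∂(sg (d + 1)) -
        d * (fderiv ℝ (Hf ∘ Xf g ∘ (S.chart i).map) p).det) := by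
    rw [← hcap, ← hst2]
    simp only [← hst1]
    rw [hF3]
    unfold jn
    rw [Finset.mul_sum, Finset.mul_sum, ← Finset.sum_sub_distrib]
    refine Finset.sum_congr rfl fun i _ => ?_
    rw [integral_sub ((hF2 i).const_mul _) ((hG4 i).const_mul _), integral_const_mul,
      integral_const_mul]
    rfl
  -- the second integral is also the volume
  have h2 : V = ∑ i, ∫ p in (S.chart i).D, (fderiv ℝ (Hf ∘ Xf g ∘ (S.chart i).map) p).det := by
    have e2 : ∫ y in ball (0 : E (d + 1)) 1, (fderiv ℝ (Hf ∘ F) y).det = V := by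
      rw [hVdef]
      apply integral_congr_ae
      have hLb : LipschitzOnWith L F (ball (0 : E (d + 1)) 1) := hFL.mono ball_subset_closedBall
      have h3 := hLb.ae_differentiableWithinAt (μ := (volume : Measure (E (d + 1))))
        measurableSet_ball
      filter_upwards [h3, ae_restrict_mem measurableSet_ball] with y h4 hy
      exact CAPVF.det_hfF UDER.t hd1 ((hFs y (ball_subset_closedBall hy)).trans_lt hs1)
        (h4.differentiableAt (isOpen_ball.mem_nhds hy))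
    rw [← e2, ← hst2]
    rfl
  obtain ⟨v1, v2⟩ := vol_int S hvol'
  have hVr : S.vol.toReal ≤ V := by
    rw [← ENNReal.toReal_ofReal hV0]
    exact ENNReal.toReal_mono ENNReal.ofReal_ne_top hV
  have k1 := eq_of_sum volume (fun i => (S.chart i).D)
    (fun i p => (d + 1) * ∫ θ, (fderiv ℝ (Psi g θ ∘ (S.chart i).map) p).det ∂(sg (d + 1)) -
        d * (fderiv ℝ (Hf ∘ Xf g ∘ (S.chart i).map) p).det)
    (fun i p => √((S.chart i).G p).det)
    (fun i => ((hF2 i).const_mul _).sub ((hG4 i).const_mul _)) v1 (fun i => by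
      have h3 := ae_restrict_of_ae (s := (S.chart i).D) (ptw hd1 (S.chart i) hGood hg)
      filter_upwards [h3, ae_restrict_mem (S.chart i).meas_D] with p hp hpD
      exact hp ((S.chart i).D_sub hpD)) (by
      rw [v2, ← h1]
      exact hVr)
  have k2 : ∀ i, ∀ᵐ p ∂(volume.restrict (S.chart i).D), _ := fun i => by
    have h3 := ae_restrict_of_ae (s := (S.chart i).D) (PTWE.ptwe hd hE (S.chart i) hGood hg)
    filter_upwards [h3, k1 i, ae_restrict_mem (S.chart i).meas_D] with p hp hq hpD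
    exact hp ((S.chart i).D_sub hpD) hq
  have k3 := eq_of_sum volume (fun i => (S.chart i).D)
    (fun i p => (fderiv ℝ (Hf ∘ Xf g ∘ (S.chart i).map) p).det)
    (fun i p => √((S.chart i).G p).det) hG4 v1 (fun i => by
      filter_upwards [k2 i] with p hp
      exact hp.2.1) (by
      rw [v2, ← h2]
      exact hVr)
  refine ⟨fun i => ?_, fun i => ?_⟩
  · rw [← ae_restrict_iff' (S.chart i).meas_D]
    filter_upwards [k2 i] with p hp
    exact hp.1
  · rw [← ae_restrict_iff' (S.chart i).meas_D]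
    filter_upwards [k2 i, k3 i] with p hp hq
    exact hp.2.2 hq

end Pool.Agent.H780.RG.EQV
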