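import Pool.Agent.H780.RG.StmB

/-!
# Project RG (helper780): rigidity of convex regions of the round sphere

Part C: the filling.
-/

set_option autoImplicit false

open MeasureTheory Metric Set Filter Topology InnerProductGeometry

namespace Pool.Agent.H780.RG

open Pool.Agent.H241R3.FV Pool.Agent.N526.CP

/-- Any two points are joined by a shortest path (in the form: there are points at all intermediate
distances). -/
def Geod (M : Type) [MetricSpace M] : Prop :=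
  ∀ (q q' : M) (t : ℝ), 0 ≤ t → t ≤ dist q q' → ∃ m, dist q m = t ∧ dist m q' = dist q q' - t

/-- PATH -/
def S_PATH : Prop := ∀ (M : Type) [MetricSpace M] [ProperSpace M], Geod M → ∀ (n : ℕ)
  (bd : Sph n → M) (r : Sph n → ℝ) (u : M → ℝ), Continuous u → (∀ x, u (bd x) = 0) →
  (∀ q : M, (∃ x, dist q (bd x) < r x) → q ∉ range bd → ∀ᶠ y in 𝓝 q, u y = u q) →
  ∀ q : M, (∃ x, dist q (bd x) < r x) → u q = 0

/-- LC: locally Lipschitz functions with derivative zero almost everywhere -/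
def S_LC : Prop := ∀ (n : ℕ) (U : Set (E n)), IsOpen U → ∀ u : E n → ℝ,
  (∀ p ∈ U, ∃ r : ℝ, 0 < r ∧ ∃ K : ℝ, ∀ y ∈ ball p r, ∀ z ∈ ball p r, |u y - u z| ≤ K * ‖y - z‖) →
  (∀ᵐ p ∂(volume : Measure (E n)), p ∈ U → HasFDerivAt u (0 : E n →L[ℝ] ℝ) p) →
  ∀ p ∈ U, ∀ᶠ y in 𝓝 p, u y = u p

/-- the transition maps are differentiable -/
def Trans {n : ℕ} {M : Type} [MetricSpace M] {ι : Type} (C : ι → RChart n M) : Prop :=
  ∀ i j, ∀ p ∈ (C i).U, ∀ p' ∈ (C j).U, (C i).map p = (C j).map p' →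
    ∃ (τ : E n → E n) (T : E n →L[ℝ] E n), τ p = p' ∧
      (∀ᶠ y in 𝓝 p, τ y ∈ (C j).U ∧ (C j).map (τ y) = (C i).map y) ∧ HasFDerivAt τ T p

/-- NULT: from the parts `D` of the charts to the charts -/
def S_NULT : Prop := ∀ (n : ℕ) (M : Type) [MetricSpace M] (ι : Type) [Finite ι]
  (C : ι → RChart n M), (∀ i, InjOn (C i).map (C i).U) → Trans C →
  (∀ i, ∀ p ∈ (C i).U, ∃ j, ∃ p' ∈ (C j).D, (C j).map p' = (C i).map p) →
  ∀ P : M → Prop,
  (∀ i, ∀ᵐ p ∂(volume : Measure (E n)), p ∈ (C i).D → P ((C i).map p)) →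
  ∀ i, ∀ᵐ p ∂(volume : Measure (E n)), p ∈ (C i).U → P ((C i).map p)

/-- AREA: the area inequality; `A` is a set in the hemisphere, `Z` is the boundary of `M` -/
def S_AREA : Prop := ∀ (d : ℕ) (M : Type) [MetricSpace M] (ι : Type) [Fintype ι]
  (C : ι → RChart (d + 1) M) (Z : Set M) (X : M → E (d + 1)) (s : ℝ) (K : NNReal), s < 1 →
  (∀ q, ‖X q‖ ≤ s) → LipschitzWith K X →
  (∀ i, ∀ᵐ p ∂(volume : Measure (E (d + 1))), p ∈ (C i).D →
    ∃ L : E (d + 1) →L[ℝ] E (d + 1), HasFDerivAt (X ∘ (C i).map) L p ∧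
      |L.det| * (√(1 - ‖X ((C i).map p)‖ ^ 2))⁻¹ ≤ √((C i).G p).det) →
  ∀ T : Set M, (∀ q ∈ T, q ∉ Z → ∃ i, ∃ p ∈ (C i).D, (C i).map p = q) →
  (∀ i, MeasurableSet {p | p ∈ (C i).D ∧ (C i).map p ∈ T}) →
  ∀ A : Set (E (d + 1)), MeasurableSet A → A ⊆ X '' T → Disjoint A (X '' Z) →
    ENNReal.ofReal (∫ x in A, (√(1 - ‖x‖ ^ 2))⁻¹) ≤
      ∑ i, ∫⁻ p in {p | p ∈ (C i).D ∧ (C i).map p ∈ T}, ENNReal.ofReal √((C i).G p).det

/-- The properties of the map `X` in the case of equality. -/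
structure Rig {n : ℕ} {M : Type} [MetricSpace M] (bd : Sph n → M) (A : Set M) (F : E n → E n)
    (X : M → E n) : Prop where
  lt : ∀ q, ‖X q‖ < 1
  lip : ∀ q q', hdist (X q) (X q') ≤ dist q q'
  bdv : ∀ x : Sph n, X (bd x) = F x
  out : ∀ q, q ∉ A → X q = 0
  ray : ∀ q ∈ A, ∀ θ : Sph n, ∃ x : Sph n,
    (∃ t : ℝ, 0 ≤ t ∧ gn (X q) - gn (F x) = t • (θ : E n)) ∧ dist q (bd x) = hdist (X q) (F x)

/-- RIGI: the family of functions gives the properties `Rig` -/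
def S_RIGI : Prop := ∀ (n : ℕ), 2 ≤ n → ∀ (M : Type) [MetricSpace M] (bd : Sph n → M) (h : M → ℝ)
  (F : E n → E n) (g : Sph n → M → ℝ) (X : M → E n) (s : ℝ), s < 1 → (∀ q, ‖X q‖ ≤ s) →
  Continuous bd → ContinuousOn F (closedBall 0 1) →
  (∀ θ q q', |g θ q - g θ q'| ≤ dist q q') → (∀ θ q, |g θ q| ≤ h q) →
  (∀ θ q, g θ q < h q →
    ∃ x : Sph n, Real.arcsin (inner ℝ (F x) (θ : E n)) + dist q (bd x) ≤ g θ q) →
  (∀ θ q, g θ q = Real.arcsin (inner ℝ (X q) (θ : E n))) →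
  (∀ x : Sph n, X (bd x) = F x) → Rig bd {q | 0 < h q} F X

/-- `F` is an injective map of the closed unit ball onto a closed region in the hemisphere, which is
(geodesically) convex: its central projection is convex. -/
structure CReg {n : ℕ} (F : E n → E n) : Prop where
  cont : ContinuousOn F (closedBall 0 1)
  lt : ∀ y ∈ closedBall (0 : E n) 1, ‖F y‖ < 1
  inj : InjOn F (closedBall 0 1)
  int : F '' ball 0 1 = interior (F '' closedBall 0 1)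
  convex : Convex ℝ (gn '' (F '' closedBall 0 1))

/-- ISOA: boundary distances and lifting of points -/
def S_ISOA : Prop := ∀ (n : ℕ), 2 ≤ n → ∀ (M : Type) [MetricSpace M], Geod M →
  ∀ (bd : Sph n → M) (A : Set M) (F : E n → E n) (X : M → E n), Rig bd A F X → CReg F →
  (∀ x, bd x ∈ A) → (∀ x, bd x ∈ closure (A \ range bd)) →
  (∀ q ∈ A, X q ∈ F '' closedBall 0 1 ∧ (q ∉ range bd → X q ∈ F '' ball 0 1) ∧
    ∀ x : Sph n, dist q (bd x) = hdist (X q) (F x)) ∧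
  ∀ q ∈ A, ∀ z ∈ F '' closedBall 0 1, z ≠ 0 → ∃ m ∈ A, X m = z ∧ dist q m = hdist (X q) z

/-- ISOB: the isometry, if `X` is injective on `A` -/
def S_ISOB : Prop := ∀ (n : ℕ), 2 ≤ n → ∀ (M : Type) [MetricSpace M] [ProperSpace M],
  ∀ (bd : Sph n → M) (A : Set M) (F : E n → E n) (X : M → E n), Rig bd A F X → CReg F →
  (∀ x, bd x ∈ A) → (∀ q ∈ A, X q ∈ F '' closedBall 0 1) →
  (∀ q ∈ A, ∀ z ∈ F '' closedBall 0 1, z ≠ 0 → ∃ m ∈ A, X m = z ∧ dist q m = hdist (X q) z) →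
  InjOn X A →
  ∃ Φ : E n → M, (∀ y ∈ F '' closedBall 0 1, ∀ z ∈ F '' closedBall 0 1,
      dist (Φ y) (Φ z) = hdist y z) ∧ (∀ x : Sph n, Φ (F x) = bd x) ∧
    A ⊆ Φ '' (F '' closedBall 0 1) ∧ Φ '' (F '' closedBall 0 1 \ {0}) ⊆ A

/-- UNIV: if the whole of `M` is a manifold -/
def S_UNIV : Prop := ∀ (n : ℕ), 2 ≤ n → ∀ (M : Type) [MetricSpace M] [ProperSpace M], Geod M →
  ∀ (ι : Type) (C : ι → RChart n M), (∀ i, InjOn (C i).map (C i).U) →
  (∀ i, ∀ V ⊆ (C i).U, IsOpen V → IsOpen ((C i).map '' V)) →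
  ∀ A K : Set M, IsOpen A → A.Nonempty → A ⊆ K → IsCompact K → (K \ A).Subsingleton →
  K ⊆ closure A → (∀ q, q ∉ A → ∃ i, ∃ p ∈ (C i).U, (C i).map p = q) → K = univ

end Pool.Agent.H780.RG
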