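import Pool.Agent.H780.RG.Eqv
import Pool.Agent.H780.RG.StmC
import Pool.Agent.H780.NV.Res

/-!
# The functions of the family in the case of equality
-/

set_option autoImplicit false

open MeasureTheory Metric Set Filter Topology InnerProductGeometry Matrix

namespace Pool.Agent.H780.RG.IDENT

open Pool.Agent.H241R3.FV Pool.Agent.N526.CP Pool.Agent.N979.CP Pool.Agent.H780.NV
open Pool.Agent.H780.RG.EQV

section

variable {n : ℕ} {M : Type} [MetricSpace M] {bd : Sph n → M} {N : Set M}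

theorem trans_of (S : NFill n M bd N) : Trans S.chart := by
  intro i j p hp p' hp' h
  obtain ⟨τ, T, h1, h2, h3, -, -⟩ := S.trans i j p hp p' hp' h
  exact ⟨τ, T, h1, h2, h3⟩

theorem cover_of (S : NFill n M bd N) (i : S.ι) (p : E n) (hp : p ∈ (S.chart i).U) :
    ∃ j, ∃ p' ∈ (S.chart j).D, (S.chart j).map p' = (S.chart i).map p := by
  rcases S.cover _ (S.sub i p hp) with ⟨x, hx⟩ | h
  · exact absurd hx.symm (S.off_bd i p hp x)
  · exact h

/-- change of charts for a zero derivative -/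
theorem zero_der (S : NFill n M bd N) (u : M → ℝ) {i j : S.ι} {p p' : E n}
    (hp : p ∈ (S.chart i).U) (hp' : p' ∈ (S.chart j).U)
    (h : (S.chart j).map p' = (S.chart i).map p)
    (hu : HasFDerivAt (fun y => u ((S.chart i).map y)) (0 : E n →L[ℝ] ℝ) p) :
    HasFDerivAt (fun y => u ((S.chart j).map y)) (0 : E n →L[ℝ] ℝ) p' := by
  obtain ⟨τ, T, h1, h2, h3⟩ := trans_of S j i p' hp' p hp h
  rw [← h1] at hu
  have h4 := hu.comp p' h3
  rw [ContinuousLinearMap.zero_comp] at h4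
  refine h4.congr_of_eventuallyEq ?_
  filter_upwards [h2] with y hy
  simp only [Function.comp_apply]
  rw [hy.2]

theorem loc_const (hLC : S_LC) (hNULT : S_NULT) (S : NFill n M bd N) (u : M → ℝ) {K : ℝ}
    (hK : 0 ≤ K) (hu : ∀ q q', |u q - u q'| ≤ K * dist q q')
    (h : ∀ i, ∀ᵐ p ∂(volume : Measure (E n)), p ∈ (S.chart i).D →
      HasFDerivAt (fun y => u ((S.chart i).map y)) (0 : E n →L[ℝ] ℝ) p) :
    ∀ q ∈ N, q ∉ range bd → ∀ᶠ y in 𝓝 q, u y = u q := by
  have h1 : ∀ i, ∀ᵐ p ∂(volume : Measure (E n)), p ∈ (S.chart i).U →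
      ∀ j, ∀ p' ∈ (S.chart j).U, (S.chart j).map p' = (S.chart i).map p →
        HasFDerivAt (fun y => u ((S.chart j).map y)) (0 : E n →L[ℝ] ℝ) p' := by
    refine hNULT n M S.ι S.chart S.inj (trans_of S) (cover_of S)
      (fun q => ∀ j, ∀ p' ∈ (S.chart j).U, (S.chart j).map p' = q →
        HasFDerivAt (fun y => u ((S.chart j).map y)) (0 : E n →L[ℝ] ℝ) p') fun i => ?_
    filter_upwards [h i] with p hp hpD j p' hp' hpp
    exact zero_der S u ((S.chart i).D_sub hpD) hp' hpp (hp hpD)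
  have h2 : ∀ i, ∀ p ∈ (S.chart i).U, ∀ᶠ y in 𝓝 p,
      u ((S.chart i).map y) = u ((S.chart i).map p) := by
    intro i
    refine hLC n (S.chart i).U (S.chart i).isOpen_U (fun y => u ((S.chart i).map y)) ?_ ?_
    · intro p hp
      obtain ⟨r, hr, -, K', hK'⟩ := chart_loc (S.chart i) p hp
      refine ⟨r, hr, K * K', fun y hy z hz => ?_⟩
      rw [mul_assoc]
      exact (hu _ _).trans (mul_le_mul_of_nonneg_left (hK' y hy z hz) hK)
    · filter_upwards [h1 i] with p hp hpU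
      exact hp hpU i p hpU rfl
  intro q hq hqb
  rcases S.cover q hq with ⟨x, hx⟩ | ⟨i, p, hp, rfl⟩
  · exact absurd ⟨x, hx⟩ hqb
  have hpU := (S.chart i).D_sub hp
  obtain ⟨V, hV, hVo, hpV⟩ := _root_.mem_nhds_iff.1 ((h2 i p hpU).and
    ((S.chart i).isOpen_U.mem_nhds hpU))
  have h3 : IsOpen ((S.chart i).map '' V) := S.open_map i V (fun y hy => (hV hy).2) hVo
  filter_upwards [h3.mem_nhds (mem_image_of_mem _ hpV)] with z hz
  obtain ⟨y, hy, rfl⟩ := hz
  exact (hV hy).1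

end

theorem all_of_ae {d : ℕ} {A : Set (Sph (d + 1))} (hA : IsClosed A)
    (h : ∀ᵐ θ ∂(sg (d + 1)), θ ∈ A) (θ : Sph (d + 1)) : θ ∈ A := by
  have h1 : sg (d + 1) Aᶜ = 0 := h
  unfold sg at h1
  rw [Measure.smul_apply, smul_eq_mul, mul_eq_zero] at h1
  have h2 : sig (d + 1) Aᶜ = 0 := by
    rcases h1 with h1 | h1
    · rw [ENNReal.inv_eq_zero] at h1
      exact absurd h1 (measure_ne_top _ _)
    · exact h1
  have h3 : (Aᶜ : Set (Sph (d + 1))) = ∅ := by
    have : (sig (d + 1)).IsOpenPosMeasure := by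
      unfold sig
      infer_instance
    exact (hA.isOpen_compl.measure_eq_zero_iff (μ := sig (d + 1))).1 h2
  by_contra hc
  exact (h3 ▸ (hc : θ ∈ Aᶜ) : θ ∈ (∅ : Set (Sph (d + 1))))

/-- the functions of the family in the case of equality -/
theorem ident {d : ℕ} (hd : 2 ≤ d) (hE : S_COMBE) (hPATH : S_PATH) (hLC : S_LC) (hNULT : S_NULT)
    {s : ℝ} (hGood : Good2 d s) {M : Type} [MetricSpace M] [ProperSpace M] (hgeo : Geod M)
    {bd : Sph (d + 1) → M} {r : Sph (d + 1) → ℝ} (S : NFill (d + 1) M bd (near bd r))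
    {B : ℝ} (hr : ∀ x, r x ≤ B)
    (F : E (d + 1) → E (d + 1)) (L : NNReal) (hFL : LipschitzOnWith L F (closedBall 0 1))
    (hFs : ∀ y ∈ closedBall (0 : E (d + 1)) 1, ‖F y‖ ≤ s)
    {g : Sph (d + 1) → M → ℝ} (hg : FamB bd (hgt bd r) s F g)
    (hV0 : 0 ≤ ∫ y in ball (0 : E (d + 1)) 1, (fderiv ℝ F y).det * (√(1 - ‖F y‖ ^ 2))⁻¹)
    (hV : S.vol ≤ ENNReal.ofReal
      (∫ y in ball (0 : E (d + 1)) 1, (fderiv ℝ F y).det * (√(1 - ‖F y‖ ^ 2))⁻¹)) :
    (∀ i, ∀ᵐ p ∂(volume : Measure (E (d + 1))), p ∈ (S.chart i).D →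
      ∃ L : E (d + 1) →L[ℝ] E (d + 1), HasFDerivAt (Xf g ∘ (S.chart i).map) L p ∧
        |L.det| * (√(1 - ‖Xf g ((S.chart i).map p)‖ ^ 2))⁻¹ ≤ √((S.chart i).G p).det) ∧
    ∀ θ q, g θ q = Real.arcsin (inner ℝ (Xf g q) (θ : E (d + 1))) := by
  have hd1 : 1 ≤ d := by omega
  have hs0 : 0 < s := hGood.1
  have hs1 : s < 1 := hGood.2.1
  have hh : Hgt (near bd r) (hgt bd r) := isHgt hr (isCompact_range (bd_cont S)).isBounded
  obtain ⟨e1, e2⟩ := eqv hd hE hGood S hh F L hFL hFs hg hV0 hV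
  refine ⟨e1, ?_⟩
  obtain ⟨⟨K, hK, hu⟩, hc, hb⟩ := uf_lip hd1 hs0 hs1 hg fun x =>
    hFs x (sphere_subset_closedBall x.2)
  have h1 : ∀ᵐ θ ∂(sg (d + 1)), ∀ i, ∀ᵐ p ∂(volume : Measure (E (d + 1))), p ∈ (S.chart i).D →
      HasFDerivAt (fun y => uf g θ ((S.chart i).map y)) (0 : E (d + 1) →L[ℝ] ℝ) p :=
    eventually_all.2 fun i => swap hd1 (S.chart i) (uf g) hK hu hc (e2 i)
  have h2 : ∀ᵐ θ ∂(sg (d + 1)), θ ∈ {θ : Sph (d + 1) | ∀ q ∈ near bd r, uf g θ q = 0} := by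
    filter_upwards [h1] with θ hθ
    have h3 := loc_const hLC hNULT S (uf g θ) hK (hu θ) hθ
    have hcu : Continuous (uf g θ) := by
      have : LipschitzWith (Real.toNNReal K) (uf g θ) := by
        refine LipschitzWith.of_dist_le_mul fun q q' => ?_
        rw [Real.dist_eq, Real.coe_toNNReal _ hK]
        exact hu θ q q'
      exact this.continuous
    exact hPATH M hgeo (d + 1) bd r (uf g θ) hcu (hb θ) h3
  have hcl : IsClosed {θ : Sph (d + 1) | ∀ q ∈ near bd r, uf g θ q = 0} := by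
    have e : {θ : Sph (d + 1) | ∀ q ∈ near bd r, uf g θ q = 0} =
        ⋂ q ∈ near bd r, {θ : Sph (d + 1) | uf g θ q = 0} := by
      ext θ
      simp
    rw [e]
    exact isClosed_biInter fun q _ => isClosed_eq (hc q) continuous_const
  have h3 := all_of_ae hcl h2
  intro θ q
  by_cases hq : q ∈ near bd r
  · have h4 := h3 θ q hq
    unfold uf ip at h4
    linarith
  · have h4 : hgt bd r q = 0 :=
      le_antisymm (not_lt.1 fun h5 => hq ((hh.pos q).1 h5)) (hh.nonneg q)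
    have h5 : ∀ θ, g θ q = 0 := fun θ => by
      have := hg.le θ q
      rw [h4] at this
      exact abs_nonpos_iff.1 this
    have h6 : Xf g q = 0 := by
      unfold Xf
      simp only [h5, zero_smul, integral_zero]
      exact Ri_zero hd1
    rw [h5, h6, inner_zero_left, Real.arcsin_zero]

end Pool.Agent.H780.RG.IDENT
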