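import Pool.Agent.H780.RG.Ident

/-!
# The map is injective in the case of equality
-/

set_option autoImplicit false

open MeasureTheory Metric Set Filter Topology InnerProductGeometry Matrix

namespace Pool.Agent.H780.RG.INJ

open Pool.Agent.H241R3.FV Pool.Agent.N526.CP Pool.Agent.N979.CP Pool.Agent.H780.NV
open Pool.Agent.H780.RG.EQV Pool.Agent.H780.RG.IDENT

section

variable {n : ℕ} {M : Type} [MetricSpace M] {bd : Sph n → M} {N : Set M}

/-- boundary points are limits of interior points -/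
theorem bd_closure (S : NFill n M bd N) (x : Sph n) : bd x ∈ closure (N \ range bd) := by
  obtain ⟨j, hjU, hjm⟩ := S.col_chart
  obtain ⟨K, hK⟩ := S.col_lip
  have hr0 := S.r_pos
  have hr1 := S.r_lt
  have hx : ‖(x : E n)‖ = 1 := norm_sph x
  rw [Metric.mem_closure_iff]
  intro ε hε
  obtain ⟨t, ht0, ht1, ht2, ht3⟩ : ∃ t : ℝ, 0 < t ∧ t < 1 ∧ S.r < t ∧ K * (1 - t) < ε := by
    have h1 : 0 < |K| + 1 := by positivity
    have h2 : 0 < ε / (|K| + 1) := by positivity
    refine ⟨max ((1 + S.r) / 2) (1 - ε / (2 * (|K| + 1))), ?_, ?_, ?_, ?_⟩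
    · exact lt_of_lt_of_le (by linarith) (le_max_left _ _)
    · refine max_lt (by linarith) ?_
      have : 0 < ε / (2 * (|K| + 1)) := by positivity
      linarith
    · exact lt_of_lt_of_le (by linarith) (le_max_left _ _)
    · have h3 : 1 - ε / (2 * (|K| + 1)) ≤
        max ((1 + S.r) / 2) (1 - ε / (2 * (|K| + 1))) := le_max_right _ _
      set t := max ((1 + S.r) / 2) (1 - ε / (2 * (|K| + 1)))
      have h4 : 1 - t ≤ ε / (2 * (|K| + 1)) := by linarith
      have h5 : 0 ≤ 1 - t := by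
        have : t < 1 := by
          refine max_lt (by linarith) ?_
          have : 0 < ε / (2 * (|K| + 1)) := by positivity
          linarith
        linarith
      calc K * (1 - t) ≤ (|K| + 1) * (1 - t) :=
            mul_le_mul_of_nonneg_right (by linarith [le_abs_self K]) h5
        _ ≤ (|K| + 1) * (ε / (2 * (|K| + 1))) := mul_le_mul_of_nonneg_left h4 h1.le
        _ = ε / 2 := by field_simp
        _ < ε := by linarith
  have hn : ‖t • (x : E n)‖ = t := by
    rw [norm_smul, hx, mul_one, Real.norm_of_nonneg ht0.le]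
  have hU : t • (x : E n) ∈ (S.chart j).U := by
    rw [hjU]
    exact ⟨by rw [hn]; exact ht2, by rw [hn]; exact ht1⟩
  refine ⟨S.col (t • (x : E n)), ⟨?_, ?_⟩, ?_⟩
  · rw [← hjm _ hU]
    exact S.sub j _ hU
  · rintro ⟨y, hy⟩
    rw [← hjm _ hU] at hy
    exact S.off_bd j _ hU y hy.symm
  · rw [← S.col_bd]
    have h1 := (hK x (t • (x : E n)) (by rw [hx]; exact hr1) hx.le (by rw [hn]; exact ht2)
      (by rw [hn]; exact ht1.le)).1
    have h2 : ‖(x : E n) - t • (x : E n)‖ = 1 - t := by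
      have e : (x : E n) - t • (x : E n) = (1 - t) • (x : E n) := by module
      rw [e, norm_smul, hx, mul_one, Real.norm_of_nonneg (by linarith)]
    rw [h2] at h1
    exact h1.trans_lt ht3

/-- nonempty open sets have positive volume -/
theorem pos_part (hNULT : S_NULT) (S : NFill n M bd N) {V : Set M} (hV : IsOpen V)
    (hVN : V ⊆ N) (hne : V.Nonempty) : 0 < S.part V := by
  rw [pos_iff_ne_zero]
  intro h0
  have h1 : ∀ i, ∀ᵐ p ∂(volume : Measure (E n)), p ∈ (S.chart i).D →
      (S.chart i).map p ∉ V := by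
    intro i
    unfold NFill.part at h0
    have h2 := (Finset.sum_eq_zero_iff.1 h0) i (Finset.mem_univ i)
    have hms := meas_pre S hV i
    have h3 : volume {p | p ∈ (S.chart i).D ∧ (S.chart i).map p ∈ V} = 0 := by
      by_contra hc
      have hf : AEMeasurable (fun p => ENNReal.ofReal √((S.chart i).G p).det)
          (volume.restrict {p | p ∈ (S.chart i).D ∧ (S.chart i).map p ∈ V}) := by
        have h1 : ContinuousOn (fun p => √((S.chart i).G p).det) (S.chart i).U := by
          have h2 : Continuous fun A : Matrix (Fin n) (Fin n) ℝ => √A.det :=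
            Real.continuous_sqrt.comp (Continuous.matrix_det continuous_id)
          exact h2.comp_continuousOn (S.chart i).cont_G
        have h4 : AEStronglyMeasurable (fun p => √((S.chart i).G p).det)
            (volume.restrict {p | p ∈ (S.chart i).D ∧ (S.chart i).map p ∈ V}) :=
          (h1.aestronglyMeasurable (S.chart i).isOpen_U.measurableSet).mono_measure
            (Measure.restrict_mono (fun p hp => (S.chart i).D_sub hp.1) le_rfl)
        exact h4.aemeasurable.ennreal_ofReal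
      rw [lintegral_eq_zero_iff' hf] at h2
      have h5 : ∀ᵐ p ∂(volume.restrict {p | p ∈ (S.chart i).D ∧ (S.chart i).map p ∈ V}),
          False := by
        filter_upwards [h2, ae_restrict_mem hms] with p hp hpm
        have h6 : 0 < √((S.chart i).G p).det :=
          Real.sqrt_pos.2 ((S.chart i).pos_G p ((S.chart i).D_sub hpm.1)).det_pos
        have h7 : 0 < ENNReal.ofReal √((S.chart i).G p).det := ENNReal.ofReal_pos.2 h6
        exact absurd hp h7.ne'
      rw [eventually_false_iff_eq_bot, ae_eq_bot, Measure.restrict_eq_zero] at h5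
      exact hc h5
    have h4 : ∀ᵐ p ∂(volume : Measure (E n)),
        p ∉ {p | p ∈ (S.chart i).D ∧ (S.chart i).map p ∈ V} := measure_eq_zero_iff_ae_notMem.1 h3
    filter_upwards [h4] with p hp hpD hpV
    exact hp ⟨hpD, hpV⟩
  have h2 := hNULT n M S.ι S.chart S.inj (trans_of S) (cover_of S) (fun q => q ∉ V) h1
  -- a point of `V` in the interior
  obtain ⟨q, hqV, hqN, hqb⟩ : ∃ q ∈ V, q ∈ N ∧ q ∉ range bd := by
    obtain ⟨q, hq⟩ := hne
    by_cases hqb : q ∈ range bd
    · obtain ⟨x, rfl⟩ := hqb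
      obtain ⟨q', hq'1, hq'2⟩ := mem_closure_iff.1 (bd_closure S x) V hV hq
      exact ⟨q', hq'1, hq'2.1, hq'2.2⟩
    · exact ⟨q, hq, hVN hq, hqb⟩
  rcases S.cover q hqN with ⟨x, hx⟩ | ⟨i, p, hp, rfl⟩
  · exact hqb ⟨x, hx⟩
  have h3 := isOpen_pre S hV i
  have h4 : (0 : ENNReal) < volume {p | p ∈ (S.chart i).U ∧ (S.chart i).map p ∈ V} :=
    h3.measure_pos volume ⟨p, (S.chart i).D_sub hp, hqV⟩
  refine h4.ne' (measure_eq_zero_iff_ae_notMem.2 ?_)
  filter_upwards [h2 i] with y hy hyV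
  exact hy hyV.1 hyV.2

end

/-- the map is injective -/
theorem inj {d : ℕ} (hNULT : S_NULT) (hAREA : S_AREA) {M : Type} [MetricSpace M]
    {bd : Sph (d + 1) → M} {N : Set M} (hNo : IsOpen N) (S : NFill (d + 1) M bd N)
    (X : M → E (d + 1)) (s : ℝ) (K : NNReal) (hs : s < 1) (hXs : ∀ q, ‖X q‖ ≤ s)
    (hXK : LipschitzWith K X)
    (hdet : ∀ i, ∀ᵐ p ∂(volume : Measure (E (d + 1))), p ∈ (S.chart i).D →
      ∃ L : E (d + 1) →L[ℝ] E (d + 1), HasFDerivAt (X ∘ (S.chart i).map) L p ∧
        |L.det| * (√(1 - ‖X ((S.chart i).map p)‖ ^ 2))⁻¹ ≤ √((S.chart i).G p).det)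
    (F : E (d + 1) → E (d + 1)) (hR : Rig bd N F X) (hF : CReg F)
    (hV : S.vol ≤ ENNReal.ofReal (∫ x in F '' ball 0 1, (√(1 - ‖x‖ ^ 2))⁻¹))
    (hlift : ∀ q ∈ N, ∀ z ∈ F '' closedBall 0 1, z ≠ 0 →
      ∃ m ∈ N, X m = z ∧ dist q m = hdist (X q) z) : InjOn X N := by
  intro q hq q' hq' hX
  by_contra hne
  have hd0 : 0 < dist q q' := dist_pos.2 hne
  obtain ⟨V, hVdef⟩ : ∃ V : Set M, V = ball q' (dist q q' / 2) ∩ N := ⟨_, rfl⟩
  have hVo : IsOpen V := by
    rw [hVdef]
    exact isOpen_ball.inter hNo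
  have hVN : V ⊆ N := by
    rw [hVdef]
    exact inter_subset_right
  have hVne : V.Nonempty := by
    rw [hVdef]
    exact ⟨q', mem_ball_self (by linarith), hq'⟩
  have hpos := pos_part hNULT S hVo hVN hVne
  have hadd := partVol_add S hVo
  have hmT : ∀ i, {p | p ∈ (S.chart i).D ∧ (S.chart i).map p ∈ N \ V} =
      {p | p ∈ (S.chart i).D ∧ (S.chart i).map p ∈ Vᶜ} := by
    intro i
    ext p
    constructor
    · rintro ⟨h1, h2⟩
      exact ⟨h1, h2.2⟩
    · rintro ⟨h1, h2⟩
      exact ⟨h1, S.sub i p ((S.chart i).D_sub h1), h2⟩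
  have harea := hAREA d M S.ι S.chart (range bd) X s K hs hXs hXK hdet (N \ V)
    (fun m hm hmb => by
      rcases S.cover m hm.1 with ⟨x, hx⟩ | h
      · exact absurd ⟨x, hx⟩ hmb
      · exact h) (fun i => by
      rw [hmT]
      have h1 : {p | p ∈ (S.chart i).D ∧ (S.chart i).map p ∈ Vᶜ} =
          (S.chart i).D \ {p | p ∈ (S.chart i).D ∧ (S.chart i).map p ∈ V} := by
        ext p
        constructor
        · rintro ⟨h1, h2⟩
          exact ⟨h1, fun h => h2 h.2⟩
        · rintro ⟨h1, h2⟩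
          exact ⟨h1, fun h => h2 ⟨h1, h⟩⟩
      rw [h1]
      exact (S.chart i).meas_D.diff (meas_pre S hVo i))
    (F '' ball 0 1 \ {0}) ?_ ?_ ?_
  · have e1 : ∫ x in F '' ball 0 1 \ {0}, (√(1 - ‖x‖ ^ 2))⁻¹ =
        ∫ x in F '' ball 0 1, (√(1 - ‖x‖ ^ 2))⁻¹ := by
      have : Nontrivial (E (d + 1)) := inferInstance
      refine setIntegral_congr_set ?_
      exact sdiff_null_ae_eq_self (measure_singleton 0)
    rw [e1] at harea
    have e2 : ∑ i, ∫⁻ p in {p | p ∈ (S.chart i).D ∧ (S.chart i).map p ∈ N \ V},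
        ENNReal.ofReal √((S.chart i).G p).det = S.part Vᶜ := by
      unfold NFill.part
      simp only [hmT]
    rw [e2] at harea
    have h1 : S.vol ≤ S.part Vᶜ := hV.trans harea
    have h2 : S.part Vᶜ ≠ ⊤ := by
      have h3 : S.part Vᶜ ≤ S.vol := by
        rw [← hadd]
        exact le_add_self
      exact (h3.trans_lt (hV.trans_lt ENNReal.ofReal_lt_top)).ne
    rw [← hadd] at h1
    have h3 : S.part Vᶜ < S.part V + S.part Vᶜ := by
      rw [add_comm (S.part V)]
      exact ENNReal.lt_add_right h2 hpos.ne'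
    exact absurd h1 (not_le.2 h3)
  · rw [hF.int]
    exact isOpen_interior.measurableSet.diff (measurableSet_singleton 0)
  · rintro z ⟨hz, hz0⟩
    have hzD : z ∈ F '' closedBall 0 1 := image_mono ball_subset_closedBall hz
    obtain ⟨m, hm, hmz, hdm⟩ := hlift q hq z hzD hz0
    refine ⟨m, ⟨hm, fun hmV => ?_⟩, hmz⟩
    rw [hVdef] at hmV
    have h1 : dist m q' < dist q q' / 2 := hmV.1
    have h2 := hR.lip q' m
    rw [← hX, hmz, ← hdm, dist_comm q' m] at h2
    have h3 := dist_triangle q m q'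
    linarith
  · rw [Set.disjoint_left]
    rintro z ⟨⟨y, hy, rfl⟩, -⟩ ⟨_, ⟨x, rfl⟩, hx⟩
    rw [hR.bdv] at hx
    have h1 := hF.inj (sphere_subset_closedBall x.2) (ball_subset_closedBall hy) hx
    rw [← h1, mem_ball_zero_iff, norm_sph] at hy
    exact lt_irrefl _ hy

end Pool.Agent.H780.RG.INJ
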