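import Pool.Agent.H780.NV.Cor
import Pool.Agent.H780.RG.StmA

/-!
# The case of equality in the pointwise inequality in a chart
-/

set_option autoImplicit false

open MeasureTheory Metric Set Filter Topology InnerProductGeometry Matrix

namespace Pool.Agent.H780.RG.PTWE

open Pool.Agent.H241R3.FV Pool.Agent.N526.CP Pool.Agent.N979.CP Pool.Agent.H780.NV
open Pool.Agent.N526.CP.XDIFF (gnorm_smul fderiv_bound cl_single cl_comp)
open Pool.Agent.N526.CP.PTWF2 (cl_apply mat_cl det_cl cl_mul cl_add cl_smulRight det_comp)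

/-- the case of equality in the pointwise inequality -/
theorem ptwe {d : ℕ} (hd : 2 ≤ d) (hE : S_COMBE) {M : Type} [MetricSpace M] (C : RChart (d + 1) M)
    {bd : Sph (d + 1) → M} {h : M → ℝ} {s : ℝ} {F : E (d + 1) → E (d + 1)}
    {g : Sph (d + 1) → M → ℝ} (hs : Good2 d s) (hF : FamB bd h s F g) :
    ∀ᵐ p ∂(volume : Measure (E (d + 1))), p ∈ C.U →
    (d + 1) * ∫ θ, (fderiv ℝ (Psi g θ ∘ C.map) p).det ∂(sg (d + 1)) -
      d * (fderiv ℝ (Hf ∘ Xf g ∘ C.map) p).det = √(C.G p).det →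
    (∃ L : E (d + 1) →L[ℝ] E (d + 1), HasFDerivAt (Xf g ∘ C.map) L p ∧
      |L.det| * (√(1 - ‖Xf g (C.map p)‖ ^ 2))⁻¹ ≤ √(C.G p).det) ∧
    (fderiv ℝ (Hf ∘ Xf g ∘ C.map) p).det ≤ √(C.G p).det ∧
    ((fderiv ℝ (Hf ∘ Xf g ∘ C.map) p).det = √(C.G p).det →
      ∀ᵐ θ ∂(sg (d + 1)), HasFDerivAt
        (fun y => g θ (C.map y) - Real.arcsin (ip (Xf g (C.map y)) θ))
        (0 : E (d + 1) →L[ℝ] ℝ) p) := by
  have hd1 : 1 ≤ d := by omega
  have hINV := Pool.Agent.N979.CP.Fin.inv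
  have hUDER := UDER.t
  filter_upwards [xdif hd1 C hs.1 hs.2.1 hF] with p hp hpU heq
  obtain ⟨α, hαm, hα1, hα2, hX⟩ := hp hpU
  obtain ⟨X, hXdef⟩ : ∃ X, X = Xf g (C.map p) := ⟨_, rfl⟩
  rw [← hXdef] at hX
  have hXs : ‖X‖ ≤ s := by
    rw [hXdef]
    exact ((hINV d hd1).2.1 s hs.1 hs.2.1 _ (hF.range (C.map p))).1
  have hX1 : ‖X‖ < 1 := lt_of_le_of_lt hXs hs.2.1
  have hint : ∫ θ, (fderiv ℝ (Psi g θ ∘ C.map) p).det ∂(sg (d + 1)) =
      ∫ θ, (Vm X θ * Lm X α +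
        vecMulVec (fun i => (θ : E (d + 1)) i) (fun i => α θ i)).det ∂(sg (d + 1)) := by
    apply integral_congr_ae
    filter_upwards [hα1] with θ hθ
    have hU := (hUDER d hd1 X hX1).1 θ
    rw [hXdef] at hU
    have h1 : HasFDerivAt (Uf θ ∘ (Xf g ∘ C.map)) ((cl (Vm (Xf g (C.map p)) θ)).comp
        (cl (Lm X α))) p := HasFDerivAt.comp p hU hX
    have h2 : HasFDerivAt (fun y => (g θ ∘ C.map) y • (θ : E (d + 1)))
        ((innerSL ℝ (α θ)).smulRight (θ : E (d + 1))) p := hθ.smul_const _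
    have h3 : HasFDerivAt (Psi g θ ∘ C.map) ((cl (Vm (Xf g (C.map p)) θ)).comp
        (cl (Lm X α)) + (innerSL ℝ (α θ)).smulRight (θ : E (d + 1))) p := h1.add h2
    rw [h3.fderiv, ← hXdef, cl_mul, cl_smulRight, cl_add, det_cl]
  obtain ⟨T, hT, hTdet⟩ := (hUDER d hd1 X hX1).2
  have h4 : HasFDerivAt (Hf ∘ Xf g ∘ C.map) (T.comp (cl (Lm X α))) p := by
    rw [hXdef] at hT
    exact HasFDerivAt.comp p hT hX
  have h5 : (fderiv ℝ (Hf ∘ Xf g ∘ C.map) p).det =
      (Lm X α).det * (√(1 - ‖X‖ ^ 2))⁻¹ := by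
    rw [h4.fderiv, det_comp, det_cl, hTdet, mul_comm]
  rw [hint, h5] at heq
  rw [h5, ← hXdef]
  have hw : 0 < (√(1 - ‖X‖ ^ 2))⁻¹ := by
    rw [inv_pos, Real.sqrt_pos]
    nlinarith [norm_nonneg X]
  have hGp : 0 < (C.G p).det := (C.pos_G p hpU).det_pos
  by_cases hz : (Lm X α).det = 0
  · refine ⟨⟨cl (Lm X α), hX, ?_⟩, ?_, ?_⟩
    · rw [det_cl, hz, abs_zero, zero_mul]
      exact Real.sqrt_nonneg _
    · rw [hz, zero_mul]
      exact Real.sqrt_nonneg _
    · intro h6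
      rw [hz, zero_mul] at h6
      exact absurd h6 (Real.sqrt_pos.2 hGp).ne
  obtain ⟨k1, k2⟩ := hE d hd s hs X hXs α hαm (C.G p) (C.pos_G p hpU) hα2 heq hz
  have k3 : |(Lm X α).det * (√(1 - ‖X‖ ^ 2))⁻¹| = √(C.G p).det := by
    rw [← k1, Real.sqrt_sq_eq_abs]
  refine ⟨⟨cl (Lm X α), hX, ?_⟩, ?_, ?_⟩
  · rw [det_cl, ← k3, abs_mul, abs_of_pos hw]
  · rw [← k3]
    exact le_abs_self _
  · intro h6
    have h7 : 0 < (Lm X α).det := by
      have h8 : 0 < (Lm X α).det * (√(1 - ‖X‖ ^ 2))⁻¹ := by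
        rw [h6]
        exact Real.sqrt_pos.2 hGp
      exact (pos_iff_pos_of_mul_pos h8).2 hw
    filter_upwards [k2 h7, hα1] with θ k4 k5
    have hip : |ip X θ| ≤ ‖X‖ := by
      have := abs_real_inner_le_norm X (θ : E (d + 1))
      rwa [norm_sph, mul_one] at this
    have hip1 : |ip X θ| < 1 := hip.trans_lt hX1
    have m1 : HasFDerivAt (fun Y : E (d + 1) => ip Y θ) (innerSL ℝ (θ : E (d + 1))) X := by
      have e : (fun Y : E (d + 1) => ip Y θ) = fun Y => innerSL ℝ (θ : E (d + 1)) Y := by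
        funext Y
        unfold ip
        rw [innerSL_apply_apply, real_inner_comm]
      rw [e]
      exact (innerSL ℝ (θ : E (d + 1))).hasFDerivAt
    have m2 : HasFDerivAt (fun Y : E (d + 1) => Real.arcsin (ip Y θ))
        ((1 / √(1 - ip X θ ^ 2)) • innerSL ℝ (θ : E (d + 1))) X := by
      have := Real.hasDerivAt_arcsin (x := ip X θ) (by
        intro h; rw [h] at hip1; norm_num at hip1) (by
        intro h; rw [h] at hip1; norm_num at hip1)
      exact this.comp_hasFDerivAt X m1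
    have m3 : HasFDerivAt (fun y => Real.arcsin (ip (Xf g (C.map y)) θ))
        (((1 / √(1 - ip X θ ^ 2)) • innerSL ℝ (θ : E (d + 1))).comp (cl (Lm X α))) p := by
      rw [hXdef] at m2
      have := HasFDerivAt.comp p m2 hX
      rw [← hXdef] at this
      exact this
    have m4 : innerSL ℝ (α θ) = ((1 / √(1 - ip X θ ^ 2)) • innerSL ℝ (θ : E (d + 1))).comp
        (cl (Lm X α)) := by
      ext v
      rw [innerSL_apply_apply, ContinuousLinearMap.comp_apply, _root_.smul_apply,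
        innerSL_apply_apply, smul_eq_mul, PiLp.inner_apply, PiLp.inner_apply, one_div]
      have e1 : ∀ i, (cl (Lm X α) v) i = ∑ j, Lm X α i j * v j := fun i => cl_apply _ _ _
      simp only [e1, k4]
      simp only [RCLike.inner_apply, conj_trivial, Finset.mul_sum, Finset.sum_mul]
      rw [Finset.sum_comm]
      refine Finset.sum_congr rfl fun i _ => Finset.sum_congr rfl fun j _ => ?_
      ring
    have m5 : HasFDerivAt (fun y => g θ (C.map y) - Real.arcsin (ip (Xf g (C.map y)) θ))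
        (innerSL ℝ (α θ) - ((1 / √(1 - ip X θ ^ 2)) • innerSL ℝ (θ : E (d + 1))).comp
        (cl (Lm X α))) p := k5.sub m3
    rw [m4, sub_self] at m5
    exact m5

end Pool.Agent.H780.RG.PTWE
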