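import Pool.Graph.R_pool_sql_team_seeded_63374d34.N526.CP.Stm3

/-!
# Project RG (helper780): rigidity of convex regions of the round sphere

Part B: spherical geometry.  The point `X` of the open unit ball of `E n` stands for the point
`(X, √(1 - |X|²))` of the open hemisphere; `hdist` is the distance in the sphere.
-/

set_option autoImplicit false

open MeasureTheory Metric Set Filter Topology InnerProductGeometry

namespace Pool.Agent.H780.RG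

open Pool.Agent.H241R3.FV Pool.Agent.N526.CP

/-- The central projection of the open hemisphere; great circles are mapped to straight lines. -/
noncomputable def gn {n : ℕ} (X : E n) : E n := (√(1 - ‖X‖ ^ 2))⁻¹ • X

/-- the inverse of `gn` -/
noncomputable def ig {n : ℕ} (Y : E n) : E n := (√(1 + ‖Y‖ ^ 2))⁻¹ • Y

/-- SPA: functions with the values `arcsin ⟨X, θ⟩` (the signed distance from a great sphere) -/
def S_SPA : Prop := ∀ (n : ℕ) (X Y : E n) (θ : Sph n), ‖X‖ < 1 → ‖Y‖ < 1 →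
  ((∃ t : ℝ, 0 ≤ t ∧ gn X - gn Y = t • (θ : E n)) ↔
    Real.arcsin (inner ℝ X (θ : E n)) - Real.arcsin (inner ℝ Y (θ : E n)) = hdist X Y)

/-- SPB: points between two points -/
def S_SPB : Prop := ∀ (n : ℕ) (X Y Z : E n), ‖X‖ < 1 → ‖Y‖ < 1 → ‖Z‖ < 1 →
  gn Z ∈ segment ℝ (gn X) (gn Y) →
    hdist X Z + hdist Z Y = hdist X Y ∧
    ∀ W : E n, ‖W‖ < 1 → hdist X W ≤ hdist X Z → hdist W Y ≤ hdist Z Y → W = Z

/-- SPC: `hdist` is a metric and `gn` is a homeomorphism -/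
def S_SPC : Prop := ∀ (n : ℕ),
  (∀ X Y : E n, ‖X‖ < 1 → ‖Y‖ < 1 → (hdist X Y = 0 ↔ X = Y)) ∧
  (∀ X Y : E n, hdist X Y = hdist Y X) ∧
  (∀ X Y Z : E n, ‖X‖ < 1 → ‖Y‖ < 1 → ‖Z‖ < 1 → hdist X Y ≤ hdist X Z + hdist Z Y) ∧
  (Continuous fun z : E n × E n => hdist z.1 z.2) ∧
  (∀ Y : E n, ‖ig Y‖ < 1 ∧ gn (ig Y) = Y) ∧ (∀ X : E n, ‖X‖ < 1 → ig (gn X) = X) ∧
  ContinuousOn (gn : E n → E n) (ball 0 1) ∧ Continuous (ig : E n → E n)

/-- CVX: convex bodies and rays -/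
def S_CVX : Prop := ∀ (n : ℕ), 1 ≤ n → ∀ (C : Set (E n)), IsCompact C → Convex ℝ C →
  (∀ v : E n, (∀ u : E n, ‖u‖ = 1 → ∃ b ∈ C, ∃ t : ℝ, 0 ≤ t ∧ b = v + t • u) → v ∈ C) ∧
  (∀ v ∈ C \ interior C, ∃ u : E n, ‖u‖ = 1 ∧ ∀ t : ℝ, 0 < t → v + t • u ∉ C) ∧
  (∀ v ∈ interior C, ∀ b ∈ C \ interior C, ∀ b' ∈ C \ interior C, ∀ (u : E n) (t t' : ℝ),
    ‖u‖ = 1 → 0 ≤ t → 0 ≤ t' → b = v + t • u → b' = v + t' • u → b = b') ∧
  (∀ v ∈ C, ∀ z ∈ C, v ≠ z → ∃ b ∈ C \ interior C, z ∈ segment ℝ v b)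

end Pool.Agent.H780.RG
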