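import Pool.Agent.H780.RG.StmC
import Pool.Agent.H780.NV.Res
import Pool.Agent.H780.RG.SPC
import Pool.Agent.H780.RG.UNIV

/-!
# Rigidity of convex regions: if the whole of `M` is a manifold
-/

set_option autoImplicit false

open MeasureTheory Metric Set Filter Topology InnerProductGeometry Matrix

namespace Pool.Agent.H780.RG.Whole

open Pool.Agent.H241R3.FV Pool.Agent.N526.CP Pool.Agent.N979.CP Pool.Agent.H780.NV

/-- if `N` is all of `M` -/
theorem whole {n : ℕ} (hn : 2 ≤ n) {M : Type} [MetricSpace M] [ProperSpace M] (hgeo : Geod M)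
    {bd : Sph n → M} {r : Sph n → ℝ} (S : NFill n M bd univ)
    (hbr : ∀ x, bd x ∈ near bd r) {F : E n → E n} (hF : CReg F) {Φ : E n → M}
    (h1 : ∀ y ∈ F '' closedBall 0 1, ∀ z ∈ F '' closedBall 0 1, dist (Φ y) (Φ z) = hdist y z)
    (h2 : near bd r ⊆ Φ '' (F '' closedBall 0 1))
    (h3 : Φ '' (F '' closedBall 0 1 \ {0}) ⊆ near bd r) :
    Φ '' (F '' closedBall 0 1) = univ := by
  obtain ⟨c1, c2, c3, c4, -⟩ := SPC.main n
  have hcont : ContinuousOn Φ (F '' closedBall 0 1) := by
    intro y hy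
    have h4 : Tendsto (fun z => hdist z y) (𝓝[F '' closedBall 0 1] y) (𝓝 (hdist y y)) := by
      have h5 : Continuous fun z : E n => ((z, y) : E n × E n) :=
        Continuous.prodMk continuous_id continuous_const
      have h6 : Continuous ((fun z : E n × E n => hdist z.1 z.2) ∘ fun z : E n => (z, y)) :=
        c4.comp h5
      exact (h6.tendsto y).mono_left nhdsWithin_le_nhds
    have hlt : ‖y‖ < 1 := by
      obtain ⟨w, hw, rfl⟩ := hy
      exact hF.lt w hw
    rw [(c1 y y hlt hlt).2 rfl] at h4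
    have h6 : Tendsto (fun z => dist (Φ z) (Φ y)) (𝓝[F '' closedBall 0 1] y) (𝓝 0) := by
      refine h4.congr' ?_
      filter_upwards [self_mem_nhdsWithin] with z hz
      exact (h1 z hz y hy).symm
    exact tendsto_iff_dist_tendsto_zero.2 h6
  have hK : IsCompact (Φ '' (F '' closedBall 0 1)) :=
    ((isCompact_closedBall 0 1).image_of_continuousOn hF.cont).image_of_continuousOn hcont
  have hne : Nonempty (Sph n) := by
    obtain ⟨m, rfl⟩ : ∃ m, n = m + 1 := ⟨n - 1, by omega⟩
    exact ⟨⟨EuclideanSpace.single 0 1, by simp⟩⟩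
  obtain ⟨x0⟩ := hne
  have hsub : Φ '' (F '' closedBall 0 1) \ near bd r ⊆ {Φ 0} := by
    rintro _ ⟨⟨y, hy, rfl⟩, hy2⟩
    by_cases h0 : y = 0
    · rw [h0]
      rfl
    · exact absurd (h3 ⟨y, ⟨hy, h0⟩, rfl⟩) hy2
  refine UNIV.main n hn M hgeo S.ι S.chart S.inj S.open_map (near bd r) _ isOpen_near
    ⟨bd x0, hbr x0⟩ h2 hK (fun a ha b hb => ?_) ?_ fun q hq => ?_
  · rw [hsub ha, hsub hb]
  · rintro _ ⟨_, ⟨w, hw, rfl⟩, rfl⟩
    by_cases h0 : F w = 0
    · -- a sequence of points of the region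
      obtain ⟨w', hw', hww⟩ : ∃ w' ∈ closedBall (0 : E n) 1, w' ≠ w := by
        by_cases hwx : w = x0
        · refine ⟨-x0, ?_, fun h => ?_⟩
          · rw [mem_closedBall_zero_iff, norm_neg, norm_sph]
          · have hx1 : ‖(x0 : E n)‖ = 1 := norm_sph x0
            rw [hwx] at h
            have h2 : (2 : ℝ) • (x0 : E n) = 0 := by
              rw [two_smul]
              nth_rewrite 1 [← h]
              exact neg_add_cancel _
            rcases smul_eq_zero.1 h2 with h3 | h3
            · norm_num at h3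
            · rw [h3, norm_zero] at hx1
              exact zero_ne_one hx1
        · exact ⟨x0, sphere_subset_closedBall x0.2, fun h => hwx h.symm⟩
      have hseg : ∀ t ∈ Icc (0 : ℝ) 1, w + t • (w' - w) ∈ closedBall (0 : E n) 1 := fun t ht => by
        have h5 := (convex_closedBall (0 : E n) 1).add_smul_sub_mem hw hw' ht
        exact h5
      have hc : ContinuousOn (fun t : ℝ => Φ (F (w + t • (w' - w)))) (Icc 0 1) := by
        have h5 : ContinuousOn (fun t : ℝ => F (w + t • (w' - w))) (Icc 0 1) :=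
          hF.cont.comp (by fun_prop) hseg
        exact hcont.comp h5 fun t ht => ⟨_, hseg t ht, rfl⟩
      have h6 : Tendsto (fun t : ℝ => Φ (F (w + t • (w' - w)))) (𝓝[Ioc 0 1] 0) (𝓝 (Φ (F w))) := by
        have h7 := hc 0 (left_mem_Icc.2 zero_le_one)
        have h8 : Tendsto (fun t : ℝ => Φ (F (w + t • (w' - w)))) (𝓝[Icc 0 1] 0)
            (𝓝 (Φ (F (w + (0 : ℝ) • (w' - w))))) := h7
        rw [zero_smul, add_zero] at h8
        exact h8.mono_left (nhdsWithin_mono _ Ioc_subset_Icc_self)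
      have hb : (𝓝[Ioc (0 : ℝ) 1] 0).NeBot := by
        rw [← mem_closure_iff_nhdsWithin_neBot, closure_Ioc zero_ne_one]
        exact left_mem_Icc.2 zero_le_one
      refine mem_closure_of_tendsto h6 ?_
      filter_upwards [self_mem_nhdsWithin] with t ht
      have ht' : t ∈ Icc (0 : ℝ) 1 := Ioc_subset_Icc_self ht
      refine h3 ⟨_, ⟨⟨_, hseg t ht', rfl⟩, fun h9 => ?_⟩, rfl⟩
      have h10 := hF.inj (hseg t ht') hw (by rw [h0]; exact h9)
      have h11 : t • (w' - w) = 0 := by simpa using h10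
      rcases smul_eq_zero.1 h11 with h12 | h12
      · exact ht.1.ne' h12
      · exact hww (sub_eq_zero.1 h12)
    · exact subset_closure (h3 ⟨_, ⟨⟨w, hw, rfl⟩, h0⟩, rfl⟩)
  · rcases S.cover q (mem_univ q) with ⟨x, rfl⟩ | ⟨i, p, hp, hpq⟩
    · exact absurd (hbr x) hq
    · exact ⟨i, p, (S.chart i).D_sub hp, hpq⟩

end Pool.Agent.H780.RG.Whole
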